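import Pool.Agent.Lib.MP_b5021c_nt.BP.H80.Tele
import Pool.Agent.Lib.MP_b5021c_nt.BP.H71.Tl
import Pool.Agent.Lib.MP_b5021c_nt.B.H96.E3St
import Pool.Agent.Lib.MP_b5021c_nt.H50.B2c
import Pool.Agent.Lib.MP_b5021c_nt.IfaceBPR

/-!
# Board b5, BpS, levels (helper80)

`lev_core`: `b`, `T` with ports `kB`, `kT` (`kB T = kT b = 0`); `nu` a functional of the total
lattice which kills the closing of `b`, not zero at the monomial of the load of `T`.  A binomial
divisor of the closing of `T` (whose exponent is not a multiple of `b`) gives one of the closing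
of `b`.
-/

namespace Pool.Agent.B5.BP80

set_option linter.unusedSectionVars false

open scoped LaurentPolynomial
open Polynomial
open AddMonoidAlgebra
open Pool.Agent.B5.H40 (uT uT_val)
open Pool.Agent.B5.Tot
open Pool.Agent.B5.Tl
open Pool.Agent.B5.H71 (em em_single em_coeff em_coeff_not em_inj em_res cl_em em_cst)

section Su

variable {O : Type} [CommRing O] {L : Type} [AddCommGroup L]

/-- The monomial as a unit. -/
noncomputable def su (a : L) (e : (RO O)ˣ) : (AO O L)ˣ where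
  val := single a (e : RO O)
  inv := single (-a) ((e⁻¹ : (RO O)ˣ) : RO O)
  val_inv := by rw [single_mul_single, add_neg_cancel, Units.mul_inv]; rfl
  inv_val := by rw [single_mul_single, neg_add_cancel, Units.inv_mul]; rfl

theorem su_val (a : L) (e : (RO O)ˣ) : ((su a e : (AO O L)ˣ) : AO O L) = single a (e : RO O) := rfl

theorem su_mul (a b : L) (e f : (RO O)ˣ) : (su a e * su b f : (AO O L)ˣ) = su (a + b) (e * f) := by
  apply Units.ext
  rw [Units.val_mul, su_val, su_val, su_val, single_mul_single, Units.val_mul]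

theorem su_zero : (su (0 : L) (1 : (RO O)ˣ) : (AO O L)ˣ) = 1 := Units.ext rfl

theorem su_inv (a : L) (e : (RO O)ˣ) : (su a e : (AO O L)ˣ)⁻¹ = su (-a) e⁻¹ := Units.ext rfl

theorem su_pow (a : L) (e : (RO O)ˣ) (n : ℕ) : (su a e : (AO O L)ˣ) ^ n = su (n • a) (e ^ n) := by
  induction n with
  | zero => rw [pow_zero, zero_smul, pow_zero, su_zero]
  | succ n ih => rw [pow_succ, ih, su_mul, succ_nsmul, pow_succ]

theorem su_zpow (a : L) (e : (RO O)ˣ) (n : ℤ) : (su a e : (AO O L)ˣ) ^ n = su (n • a) (e ^ n) := by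
  cases n with
  | ofNat n =>
    rw [Int.ofNat_eq_natCast, zpow_natCast, zpow_natCast, natCast_zsmul, su_pow]
  | negSucc n =>
    rw [zpow_negSucc, zpow_negSucc, negSucc_zsmul, su_pow, su_inv]

end Su

section Tc

variable {O : Type} [CommRing O] {L : Type} [AddCommGroup L]

theorem tc_ext {G H : AO O L} (h : ∀ x, tc G x = tc H x) : G = H := by
  apply AddMonoidAlgebra.ext
  apply Finsupp.ext
  intro a
  apply AddMonoidAlgebra.ext
  apply Finsupp.ext
  intro n
  exact h (n, a)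

theorem tc_add (G H : AO O L) (x : ℤ × L) : tc (G + H) x = tc G x + tc H x := rfl

theorem tc_zero (x : ℤ × L) : tc (0 : AO O L) x = 0 := rfl

theorem tc_single_mul (b : L) (v : Oˣ) (m : ℤ) (G : AO O L) (x : ℤ × L) :
    tc (single b ((uT v m : (RO O)ˣ) : RO O) * G) x = (v : O) * tc G (x - (m, b)) := by
  have h : ((uT v m : (RO O)ˣ) : RO O) = AddMonoidAlgebra.single m (v : O) := by
    change LaurentPolynomial.C (v : O) * LaurentPolynomial.T m = _
    rw [LaurentPolynomial.single_eq_C_mul_T]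
  change ((single b ((uT v m : (RO O)ˣ) : RO O) * G).coeff x.2).coeff x.1 = _
  rw [coeff_single_mul_apply, h, AddMonoidAlgebra.coeff_single_mul_apply]
  change (v : O) * (G.coeff (-b + x.2)).coeff (-m + x.1) = (v : O) * (G.coeff (x.2 - b)).coeff (x.1 - m)
  rw [neg_add_eq_sub, neg_add_eq_sub]

/-- The total support is finite. -/
theorem ts_finite (G : AO O L) : (ts G).Finite := by
  classical
  have h : ts G ⊆ ⋃ a ∈ (G.coeff.support : Set L), (fun n : ℤ => (n, a)) ''
      ((G.coeff a).coeff.support : Set ℤ) := by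
    intro x hx
    have h1 : (G.coeff x.2).coeff x.1 ≠ 0 := hx
    have h2 : G.coeff x.2 ≠ 0 := by
      intro h
      apply h1
      rw [h]
      rfl
    refine Set.mem_biUnion (x := x.2) (Finset.mem_coe.mpr (Finsupp.mem_support_iff.mpr h2)) ?_
    exact ⟨x.1, Finset.mem_coe.mpr (Finsupp.mem_support_iff.mpr h1), rfl⟩
  refine Set.Finite.subset ?_ h
  exact Set.Finite.biUnion (Finset.finite_toSet _) fun a _ =>
    Set.Finite.image _ (Finset.finite_toSet _)

/-- The part of the total degree `j`. -/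
noncomputable def tgp (nu : ℤ × L →+ ℤ) (j : ℤ) (G : AO O L) : AO O L :=
  AddMonoidAlgebra.ofCoeff (Finsupp.onFinset G.coeff.support
    (fun a => (AddMonoidAlgebra.ofCoeff ((G.coeff a).coeff.filter fun n => nu (n, a) = j) : RO O))
    (by
      intro a ha
      rw [Finsupp.mem_support_iff]
      intro h
      apply ha
      rw [h]
      change AddMonoidAlgebra.ofCoeff ((0 : ℤ →₀ O).filter fun n => nu (n, a) = j) = 0
      rw [Finsupp.filter_zero]
      rfl))

theorem tc_tgp (nu : ℤ × L →+ ℤ) (j : ℤ) (G : AO O L) (x : ℤ × L) :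
    tc (tgp nu j G) x = if nu x = j then tc G x else 0 := by
  change ((G.coeff x.2).coeff.filter fun n => nu (n, x.2) = j) x.1 = _
  rw [Finsupp.filter_apply]
  rfl

/-- The grading of `AO O L` by a functional of the total lattice. -/
noncomputable def tgrd (nu : ℤ × L →+ ℤ) : Grd (AO O L) where
  pi j :=
    { toFun := tgp nu j
      map_zero' := tc_ext fun x => by rw [tc_tgp, tc_zero, ite_self]
      map_add' := fun G H => tc_ext fun x => by
        rw [tc_add, tc_tgp, tc_tgp, tc_tgp, tc_add]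
        split_ifs
        · rfl
        · rw [add_zero] }
  fin W := by
    obtain ⟨n, hn⟩ : ∃ n : ℕ, ∀ x ∈ ts W, (nu x).natAbs ≤ n := by
      obtain ⟨n, hn⟩ := ((ts_finite W).image fun x => (nu x).natAbs).bddAbove
      exact ⟨n, fun x hx => hn ⟨x, hx, rfl⟩⟩
    refine ⟨n, fun j hj => tc_ext fun x => ?_⟩
    change tc (tgp nu j W) x = _
    rw [tc_tgp, tc_zero]
    split_ifs with h
    · by_contra hx
      have h1 := hn x hx
      have h2 : ((nu x).natAbs : ℤ) = |nu x| := Int.natCast_natAbs _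
      rw [← h] at hj
      omega
    · rfl

theorem tgrd_pi (nu : ℤ × L →+ ℤ) (j : ℤ) (G : AO O L) : (tgrd nu).pi j G = tgp nu j G := rfl

theorem tgrd_hom (nu : ℤ × L →+ ℤ) (b : L) (v : Oˣ) (m : ℤ) :
    (tgrd nu).Hom (single b ((uT v m : (RO O)ˣ) : RO O) : AO O L) (nu (m, b)) := by
  intro j W
  refine tc_ext fun x => ?_
  rw [tgrd_pi, tgrd_pi, tc_tgp, tc_single_mul, tc_single_mul, tc_tgp, map_sub]
  by_cases h : nu x = j
  · rw [if_pos h, if_pos (by rw [h])]
  · rw [if_neg h, if_neg (by omega), mul_zero]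

theorem tgrd_deg (nu : ℤ × L →+ ℤ) (G : AO O L) (s : ℤ) (h : ∀ x ∈ ts G, nu x = s) :
    (tgrd nu).Deg G s := by
  intro j
  refine tc_ext fun x => ?_
  rw [tgrd_pi, tc_tgp]
  by_cases hx : tc G x = 0
  · by_cases h1 : j = s
    · rw [if_pos h1]
      split_ifs
      · rfl
      · rw [hx]
    · rw [if_neg h1, hx, ite_self]
      rfl
  · have h2 := h x hx
    by_cases h1 : j = s
    · rw [if_pos h1, if_pos (by rw [h2, h1])]
    · rw [if_neg h1, if_neg (by rw [h2]; exact fun h => h1 h.symm)]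
      rfl

end Tc

section Core

variable {O : Type} [CommRing O] [IsDomain O] [IsPrincipalIdealRing O] [Coef O] {L : Type}
  [AddCommGroup L] [Module.Free ℤ L] [Module.Finite ℤ L]

/-- The closing, embedded. -/
noncomputable def rho (k : L →+ ℤ) (S : L) (h : k S = 1) (e : (RO O)ˣ) : AO O L →+* AO O L :=
  (em (Ker k)).comp (cl k S h e)

theorem rho_apply (k : L →+ ℤ) (S : L) (h : k S = 1) (e : (RO O)ˣ) (F : AO O L) :
    rho k S h e F = em (Ker k) (cl k S h e F) := rfl

theorem rho_single (k : L →+ ℤ) (S : L) (h : k S = 1) (e : (RO O)ˣ) (a : L) (q : RO O) :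
    rho k S h e (single a q) = single (a - k a • S) (q * ((e ^ (k a) : (RO O)ˣ) : RO O)) := by
  rw [rho_apply, cl_single, em_single, prj_coe]

theorem rho_su (k : L →+ ℤ) (S : L) (h : k S = 1) (e : (RO O)ˣ) (a : L) (u : (RO O)ˣ) :
    rho k S h e ((su a u : (AO O L)ˣ) : AO O L) =
      ((su (a - k a • S) (u * e ^ (k a)) : (AO O L)ˣ) : AO O L) := by
  rw [su_val, rho_single, su_val, Units.val_mul]

theorem rho_comm (k k' : L →+ ℤ) (S S' : L) (h : k S = 1) (h' : k' S' = 1) (h1 : k S' = 0)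
    (h2 : k' S = 0) (e e' : (RO O)ˣ) (F : AO O L) :
    rho k S h e (rho k' S' h' e' F) = rho k' S' h' e' (rho k S h e F) := by
  induction F using AddMonoidAlgebra.induction_linear with
  | zero => simp
  | add f g hf hg => rw [map_add, map_add, hf, hg, map_add, map_add]
  | single a q =>
    rw [rho_single, rho_single, rho_single, rho_single]
    have h3 : k (a - k' a • S') = k a := by rw [map_sub, map_zsmul, h1, smul_zero, sub_zero]
    have h4 : k' (a - k a • S) = k' a := by rw [map_sub, map_zsmul, h2, smul_zero, sub_zero]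
    rw [h3, h4]
    congr 1
    · abel
    · ring

/-- The closing of an element of level zero. -/
theorem rho_zero (k : L →+ ℤ) (S : L) (h : k S = 1) (e : (RO O)ˣ) (F : AO O L)
    (hF : ∀ a ∈ supp F, k a = 0) : rho k S h e F = F := by
  rw [rho_apply, H71.cl_res k S h e F hF, em_res (Ker k) F (fun a ha => hF a ha)]

/-- The closing of an element of level one. -/
theorem rho_one (k : L →+ ℤ) (S : L) (h : k S = 1) (e : (RO O)ˣ) (F : AO O L)
    (hF : ∀ a ∈ supp F, k a = 1) :
    rho k S h e F = ((su (-S) e : (AO O L)ˣ) : AO O L) * F := by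
  have h1 : F = ((su S e⁻¹ : (AO O L)ˣ) : AO O L) * (((su (-S) e : (AO O L)ˣ) : AO O L) * F) := by
    rw [← mul_assoc, ← Units.val_mul, su_mul, add_neg_cancel, inv_mul_cancel, su_zero,
      Units.val_one, one_mul]
  have h2 : rho k S h e ((su S e⁻¹ : (AO O L)ˣ) : AO O L) = 1 := by
    rw [rho_su, h, one_smul, sub_self, zpow_one, inv_mul_cancel, su_zero, Units.val_one]
  conv_lhs => rw [h1]
  rw [map_mul, h2, one_mul]
  apply rho_zero
  intro a ha
  have h3 : (((su (-S) e : (AO O L)ˣ) : AO O L) * F).coeff a ≠ 0 := ha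
  rw [su_val, coeff_single_mul_apply, neg_neg] at h3
  have h4 := hF (S + a) (right_ne_zero_of_mul h3)
  rw [map_add, h] at h4
  omega

theorem eq_uT (hU : UnitRS) (u : (RO O)ˣ) : ∃ (v : Oˣ) (n : ℤ), u = uT v n := by
  obtain ⟨n, q, hq, hq2⟩ := (hU O (u : RO O)).1 u.isUnit
  obtain ⟨v, rfl⟩ := hq
  exact ⟨v, n, Units.ext hq2⟩

theorem supp_em {K : Submodule ℤ L} {F : AO O K} {a : L} (h : a ∈ supp (em K F)) :
    ∃ c ∈ supp F, (c : L) = a := by
  have h1 : (em K F).coeff a ≠ 0 := h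
  have ha : a ∈ K := by
    by_contra hn
    exact h1 (em_coeff_not K F a hn)
  refine ⟨⟨a, ha⟩, ?_, rfl⟩
  intro h2
  apply h1
  have h3 := em_coeff K F ⟨a, ha⟩
  change (em K F).coeff a = F.coeff ⟨a, ha⟩ at h3
  rw [h3, h2]

theorem ts_em {k : L →+ ℤ} {F : AO O (Ker k)} {x : ℤ × L} (h : x ∈ ts (em (Ker k) F)) :
    ∃ y ∈ ts F, inc2 k y = x := by
  have h1 : ((em (Ker k) F).coeff x.2).coeff x.1 ≠ 0 := h
  obtain ⟨c, -, hc⟩ := supp_em (snd_of_ts h)
  refine ⟨(x.1, c), ?_, Prod.ext rfl hc⟩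
  rw [← hc, em_coeff] at h1
  exact h1

/-- Levels. -/
theorem lev_core (hU : UnitRS) (kB kT : L →+ ℤ) (b T : L) (hb : kB b = 1) (hT : kT T = 1)
    (hbT : kB T = 0) (hTb : kT b = 0) (vb vT : Oˣ) (mb mT : ℤ) (E : AO O L)
    (hB : ∀ a ∈ supp E, kB a = 0 ∨ kB a = 1) (hT' : ∀ a ∈ supp E, kT a = 0 ∨ kT a = 1)
    (nu : ℤ × L →+ ℤ) (hk : KT (pr kB) (-mb, b) (vb : O) (tc E) nu) (hn : nu (-mT, T) ≠ 0)
    (b' : Ker kT) (e' : (RO O)ˣ)
    (hd : (1 - single b' (e' : RO O)) ∣ cl kT T hT (uT vT mT) E) :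
    (b' : L) = kB (b' : L) • b ∨ ∃ (b'' : Ker kB) (e'' : (RO O)ˣ), b'' ≠ 0 ∧
      (1 - single b'' (e'' : RO O)) ∣ cl kB b hb (uT vb mb) E := by
  classical
  obtain ⟨W, hW⟩ := hd
  obtain ⟨u, hu⟩ : ∃ u : (RO O)ˣ, u = e' * (uT vb mb) ^ (kB (b' : L)) := ⟨_, rfl⟩
  obtain ⟨c, hc⟩ : ∃ c : L, c = (b' : L) - kB (b' : L) • b := ⟨_, rfl⟩
  obtain ⟨V, hV⟩ : ∃ V : AO O L, V = rho kB b hb (uT vb mb) E := ⟨_, rfl⟩
  obtain ⟨A, hA⟩ : ∃ A : AO O L, A = gpart kT 0 V := ⟨_, rfl⟩
  obtain ⟨D, hD⟩ : ∃ D : AO O L, D = gpart kT 1 V := ⟨_, rfl⟩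
  have hkc : kT c = 0 := by
    have h1 : kT (b' : L) = 0 := b'.2
    rw [hc, map_sub, map_zsmul, hTb, h1, smul_zero, sub_zero]
  -- the closing of `b`
  have hVT : ∀ a ∈ supp V, kT a = 0 ∨ kT a = 1 := by
    intro a ha
    rw [hV, rho_apply] at ha
    obtain ⟨x, hx, rfl⟩ := supp_em ha
    have h1 : (cl kB b hb (uT vb mb) E).coeff x ≠ 0 := hx
    rw [Pool.Agent.B5.H47.cl_coeff_bin kB b hb (uT vb mb) E hB x] at h1
    by_cases h2 : E.coeff (x : L) = 0
    · rw [h2, zero_add] at h1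
      have h3 := hT' _ (right_ne_zero_of_mul h1)
      rw [map_add, hTb, add_zero] at h3
      exact h3
    · exact hT' _ h2
  have hVAD : V = A + D := by
    apply AddMonoidAlgebra.ext
    apply Finsupp.ext
    intro a
    rw [hA, hD, AddMonoidAlgebra.coeff_add, Finsupp.add_apply, H50.gpart_coeff, H50.gpart_coeff]
    by_cases ha : V.coeff a = 0
    · rw [ha, ite_self, ite_self, add_zero]
    · rcases hVT a ha with h | h
      · rw [if_pos h, if_neg (by omega), add_zero]
      · rw [if_pos h, if_neg (by omega), zero_add]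
  have hAs : ∀ a ∈ supp A, kT a = 0 := by
    intro a ha
    have h1 : A.coeff a ≠ 0 := ha
    rw [hA, H50.gpart_coeff] at h1
    by_contra h2
    exact h1 (if_neg h2)
  have hDs : ∀ a ∈ supp D, kT a = 1 := by
    intro a ha
    have h1 : D.coeff a ≠ 0 := ha
    rw [hD, H50.gpart_coeff] at h1
    by_contra h2
    exact h1 (if_neg h2)
  have hAV : ∀ x ∈ ts A, x ∈ ts V := by
    intro x hx
    have h1 := hAs _ (snd_of_ts hx)
    have h2 : (A.coeff x.2).coeff x.1 ≠ 0 := hx
    rw [hA, H50.gpart_coeff, if_pos h1] at h2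
    exact h2
  have hDV : ∀ x ∈ ts D, x ∈ ts V := by
    intro x hx
    have h1 := hDs _ (snd_of_ts hx)
    have h2 : (D.coeff x.2).coeff x.1 ≠ 0 := hx
    rw [hD, H50.gpart_coeff, if_pos h1] at h2
    exact h2
  have hk2 := (kt_iff kB b hb vb mb E hB nu).1 hk
  have hnV : ∀ x ∈ ts V, nu x = 0 := by
    intro x hx
    rw [hV, rho_apply] at hx
    obtain ⟨y, hy, rfl⟩ := ts_em hx
    exact hk2 _ (Or.inr ⟨y, hy, rfl⟩)
  -- the double closing
  have hsum : A + ((su (-T) (uT vT mT) : (AO O L)ˣ) : AO O L) * D =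
      (1 - ((su c u : (AO O L)ˣ) : AO O L)) * rho kB b hb (uT vb mb) (em (Ker kT) W) := by
    rw [← rho_one kT T hT (uT vT mT) D hDs, ← rho_zero kT T hT (uT vT mT) A hAs, ← map_add, ← hVAD,
      hV, ← rho_comm kB kT b T hb hT hbT hTb, rho_apply kT, hW, map_mul, map_sub, map_one,
      em_single, map_mul, map_sub, map_one]
    have h1 : (single (b' : L) (e' : RO O) : AO O L) = ((su (b' : L) e' : (AO O L)ˣ) : AO O L) :=
      rfl
    rw [h1, rho_su, ← hu, ← hc]
  obtain ⟨vu, mu, hvu⟩ := eq_uT hU u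
  have hlev := lev_alg (tgrd nu) (su c u) (su (-T) (uT vT mT))⁻¹ (nu (mu, c)) (-nu (-mT, T))
    (neg_ne_zero.mpr hn) (by rw [su_val, hvu]; exact tgrd_hom nu c vu mu) A
    (((su (-T) (uT vT mT) : (AO O L)ˣ) : AO O L) * D)
    (tgrd_deg nu A 0 fun x hx => hnV x (hAV x hx))
    (tgrd_deg nu _ _ (by
      intro x hx
      have h1 : tc (((su (-T) (uT vT mT) : (AO O L)ˣ) : AO O L) * D) x ≠ 0 := hx
      rw [su_val, tc_single_mul] at h1
      have h2 := hnV _ (hDV _ (right_ne_zero_of_mul h1))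
      rw [map_sub] at h2
      have h3 : ((-mT, T) : ℤ × L) = -(mT, -T) := by simp
      rw [h3, map_neg, neg_neg]
      omega)) ⟨_, hsum⟩
  have hback : ∀ (a : L) (f : (RO O)ˣ), (1 - ((su a f : (AO O L)ˣ) : AO O L)) ∣ V →
      (1 - single (prj kB b hb a) ((f * (uT vb mb) ^ (kB a) : (RO O)ˣ) : RO O)) ∣
        cl kB b hb (uT vb mb) E := by
    intro a f h
    have h1 := map_dvd (cl kB b hb (uT vb mb)) h
    rw [hV, rho_apply, cl_em, map_sub, map_one, su_val, cl_single, ← Units.val_mul] at h1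
    exact h1
  have hsimp : A + (((su (-T) (uT vT mT) : (AO O L)ˣ)⁻¹ : (AO O L)ˣ) : AO O L) *
      (((su (-T) (uT vT mT) : (AO O L)ˣ) : AO O L) * D) = V := by
    rw [← mul_assoc, Units.inv_mul, one_mul, hVAD]
  rw [hsimp] at hlev
  rcases hlev with h | ⟨r, h⟩
  · by_cases h0 : c = 0
    · left
      rw [hc] at h0
      exact sub_eq_zero.mp h0
    · right
      refine ⟨_, _, ?_, hback c u h⟩
      intro h1
      apply h0
      have h2 := congrArg (fun x : Ker kB => (x : L)) h1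
      simp only [prj_coe] at h2
      have h3 : kB c = 0 := by rw [hc, map_sub, map_zsmul, hb, smul_eq_mul, mul_one, sub_self]
      rw [h3, zero_smul, sub_zero] at h2
      exact h2
  · right
    rw [inv_inv, su_zpow, su_mul] at h
    refine ⟨_, _, ?_, hback _ _ h⟩
    intro h1
    have h2 := congrArg (fun x : Ker kB => kT (x : L)) h1
    simp only [prj_coe] at h2
    rw [map_sub, map_zsmul, hTb, smul_zero, sub_zero, map_add, map_neg, hT, map_zsmul, hkc,
      smul_zero, add_zero] at h2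
    have h3 : kT ((0 : Ker kB) : L) = 0 := map_zero kT
    rw [h3] at h2
    omega

/-- Killing functionals of `L` as functionals of the total lattice. -/
theorem kw_kt (k : L →+ ℤ) (b : L) (v : Oˣ) (m : ℤ) (E : AO O L) (mu : L →+ ℤ) :
    KT k b ((uT v m : (RO O)ˣ) : RO O) (fun a => E.coeff a) mu ↔
      KT (pr k) (-m, b) (v : O) (tc E) (pr mu) := by
  have key : ∀ (a : L) (n : ℤ), (E.coeff a + ((uT v m : (RO O)ˣ) : RO O) * E.coeff (a + b)).coeff n =
      tc E (n, a) + (v : O) * tc E ((n, a) + (-m, b)) := by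
    intro a n
    rw [AddMonoidAlgebra.coeff_add, Finsupp.add_apply, uT_coeff]
    rfl
  constructor
  · rintro ⟨h0, h1⟩
    refine ⟨h0, fun x hx hne => ?_⟩
    have h2 := h1 x.2 hx hne
    rw [← key x.2 x.1]
    simp only [h2]
    rfl
  · rintro ⟨h0, h1⟩
    refine ⟨h0, fun a ha hne => ?_⟩
    apply AddMonoidAlgebra.ext
    apply Finsupp.ext
    intro n
    rw [key]
    exact h1 (n, a) ha hne

end Core

section Lv

variable {P : Type} [Fintype P] [DecidableEq P] {L : Type} [AddCommGroup L] [Module.Free ℤ L]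
  [Module.Finite ℤ L]

/-- Levels, for a functional of `L`: all binomial divisors of the closing of `T` have exponents
which are multiples of `b`. -/
theorem lev_nb (hU : UnitRS) {phi : L →+ (P → ℤ)} {E : AO ℤ L} (hbin : ∀ a ∈ supp E, Bin phi a)
    {b T : L} {i iT : P} {e eT : (RO ℤ)ˣ} (hb : co phi i b = 1) (hT : co phi iT T = 1)
    (hbT : phi T i = 0) (hTb : phi b iT = 0) {mu : L →+ ℤ} (hk : BPR.Kw phi E b i e mu)
    (hm : mu T ≠ 0) (hnb : BPR.Nb phi E b i e) {b' : Ker (co phi iT)} {e' : (RO ℤ)ˣ}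
    (hd : (1 - single b' (e' : RO ℤ)) ∣ cl (co phi iT) T hT eT E) :
    (b' : L) = co phi i (b' : L) • b := by
  obtain ⟨vb, mb, rfl⟩ := eq_uT hU e
  obtain ⟨vT, mT, rfl⟩ := eq_uT hU eT
  have h1 := (kw_kt (co phi i) b vb mb E mu).1 hk
  rcases lev_core hU (co phi i) (co phi iT) b T hb hT hbT hTb vb vT mb mT E
    (fun a ha => hbin a ha i) (fun a ha => hbin a ha iT) (pr mu) h1 hm b' e' hd with h | h
  · exact h
  · obtain ⟨b'', e'', h2, h3⟩ := h
    exact absurd h3 (hnb hb b'' e'' h2)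

end Lv

end Pool.Agent.B5.BP80
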