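import Pool.Agent.Lib.MP_b5021c_nt.BP.H57.Gw
import Pool.Agent.Lib.MP_b5021c_nt.O1.H12.Cnt

/-!
# Board b5, BpS, row CntS (helper80): the count at the good load of a ray with a full closing
-/

namespace Pool.Agent.B5.BP80

set_option linter.unusedSectionVars false

open scoped LaurentPolynomial
open Polynomial
open Pool.Agent.B5.BPR
open Pool.Agent.B5.BP57

section

variable {P : Type} [Fintype P] [DecidableEq P] {L : Type} [AddCommGroup L] [Module.Free ℤ L]
  [Module.Finite ℤ L] {phi : L →+ (P → ℤ)} {D : AO ℤ L}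

/-- The rank of a big factor (injective outside ports), and z-freeness of an extremal one. -/
theorem big_rankI (hEvz : EvzS) (hEv1 : BdV ℤ 1 1) (hFcl : FclS) (hR : ResWDS) (hRS : ResStS)
    {S : L} {i0 : P} {eta : (RO ℤ)ˣ} {h : co phi i0 S = 1} {c : RO ℤ} {n : ℕ}
    {G : Fin n → AO ℤ (Ker (co phi i0))} (hI : ImS phi S) (fd : FD phi D S i0 eta h c n G)
    (i : Fin n) {N : ℕ} (hN : 2 ≤ N) (hV : ClassV (N : ℝ) ((G i).coeff 0)) :
    rk (supp (G i)) ≤ 2 * N ∧ ∃ K : Submodule ℤ (Ker (co phi i0)), Sat K ∧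
      (∀ a ∈ supp (G i), a ∈ K) ∧ Module.finrank ℤ K = rk (supp (G i)) ∧
      (rk (supp (G i)) = 2 * N → ZFree (res K (G i))) := by
  obtain ⟨K, hsat, hU, hKr, hirr, hun, hrk⟩ := hR ℤ (Ker (co phi i0)) (G i) (fd.irr i).ne_zero
  have hDD : DD ((phO phi S i0).comp (incl K)) (res K (G i)) :=
    ⟨(injO hI h).comp fun _ _ hh => Subtype.ext hh, fun a ha => binO (a : Ker (co phi i0))
      (fd.ww i _ ha), (hRS ℤ (Ker (co phi i0)) (G i) K hsat hU).mp (fd.st i), hun (fd.un i),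
      hirr (fd.irr i), by rw [hrk, hKr]⟩
  have hV' : ClassV (N : ℝ) ((res K (G i)).coeff 0) := hV
  have h1 := hEvz N hN P K _ _ hDD hV'
  rw [hKr] at h1
  refine ⟨by exact_mod_cast h1, K, hsat, hU, hKr, fun hr => ?_⟩
  rcases hFcl ℤ P K _ _ (N : ℝ) hDD hV' (by rw [hKr, hr]; omega) with h2 | ⟨N', b, D', hN', hD', hV2, hr2⟩
  · exact h2
  · exfalso
    exact KO67.fcl_no hEvz hEv1 hN hN' hD' hV2 (by rw [hr2, hKr, hr])

end

/-- (BPR_CN). -/
theorem cntS (hFD : FDS) (hSm : SmallS) (hE2 : E2S) (hVZ : VZS) (hUn : UnitRS) (hMm : MmulS)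
    (hMV : MVS) (hE1 : E1S) (hG1 : G1pS) (hEvz : EvzS) (hEv1 : BdV ℤ 1 1) (hFcl : FclS)
    (hR : ResWDS) (hRS : ResStS) (hRk : RkS) (hK : KmuS) : CntS := by
  classical
  intro P L _ _ _ _ _ phi E N p f S i e h hX hS hI hNb hfl
  have hN3 := hX.n3
  have hrkL := hX.rkL
  have hcc := gl_cc hE2 hVZ hUn hX hS
  obtain ⟨c, n, G, fd⟩ := hFD ℤ P L phi E S i e h hcc
  have hm1 := hS.pos
  have hmN := gl_lt hE2 hVZ hUn hX hS
  obtain ⟨nu, hnu⟩ : ∃ nu : ℕ, ((nu : ℕ) : ℤ) = (N : ℤ) - f.coeff 0 :=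
    ⟨((N : ℤ) - f.coeff 0).toNat, Int.toNat_of_nonneg (by omega)⟩
  have hnuR : ((N : ℝ) - f.coeff 0) = (nu : ℝ) := by
    have h3 : ((nu : ℤ) : ℝ) = (((N : ℤ) - f.coeff 0 : ℤ) : ℝ) := by rw [hnu]
    push_cast at h3
    exact h3.symm
  have hcls := gl_class hE2 hVZ hUn hX hS
  rw [fd.v00, hnuR] at hcls
  obtain ⟨Nc, -, hcV, -, -⟩ := (hE1 ℤ).1 _ _ _ hcls
  obtain ⟨c0, hc0, rfl⟩ := O1.H12.classV_nat hcV
  have hgV : ∀ i, ∃ m : ℕ, 1 ≤ m ∧ ClassV (m : ℝ) ((G i).coeff 0) := by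
    intro i
    have h3 : c * ∏ i, (G i).coeff 0 = (G i).coeff 0 * (c * ∏ k ∈ Finset.univ.erase i, (G k).coeff 0) := by
      rw [← Finset.mul_prod_erase Finset.univ (fun i => (G i).coeff 0) (Finset.mem_univ i)]
      ring
    rw [h3] at hcls
    obtain ⟨N1, -, h4, -, -⟩ := (hE1 ℤ).1 _ _ _ hcls
    obtain ⟨m, hm, rfl⟩ := O1.H12.classV_nat h4
    exact ⟨m, hm, h4⟩
  choose Ni hNi1 hNiV using hgV
  have hMc : M c = c0 := ((hMV ℤ).1 _ _ hcV).2
  have hMi : ∀ i, M ((G i).coeff 0) = Ni i := fun i => ((hMV ℤ).1 _ _ (hNiV i)).2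
  have hMp : ∀ s : Finset (Fin n), M (∏ i ∈ s, (G i).coeff 0) = ∏ i ∈ s, (Ni i : ℝ) := by
    intro s
    induction s using Finset.induction_on with
    | empty =>
      rw [Finset.prod_empty, Finset.prod_empty]
      exact (hMm ℤ).2.2 1 isUnit_one
    | insert i s hi ih =>
      rw [Finset.prod_insert hi, Finset.prod_insert hi,
        (hMm ℤ).1 _ _ (fd.st i).1 (Finset.prod_ne_zero_iff.mpr fun k _ => (fd.st k).1), ih, hMi]
  obtain ⟨N', hN'⟩ : ∃ N' : ℕ, N' = ∏ i, Ni i := ⟨_, rfl⟩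
  have hprod : nu = c0 * N' := by
    have h3 := ((hMV ℤ).1 _ _ hcls).2
    rw [(hMm ℤ).1 _ _ fd.c0 (Finset.prod_ne_zero_iff.mpr fun k _ => (fd.st k).1), hMc, hMp] at h3
    have h4 : ((c0 * N' : ℕ) : ℝ) = nu := by
      rw [← h3, hN']
      push_cast
      rfl
    exact_mod_cast h4.symm
  -- all factors are big
  have hs0 := snp_of_nb hSm fd hNb
  have hab := bigO hI fd hs0
  have hN2 : ∀ i, 2 ≤ Ni i := by
    intro i
    have h3 := hab i
    rw [hMi] at h3
    have h4 : 1 < Ni i := by exact_mod_cast h3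
    omega
  have hbig' : big G = Finset.univ := by
    unfold big
    exact Finset.filter_true_of_mem fun i _ => hab i
  have hrk := hG1 ℤ P L phi E S i e h c n G fd (fun i b _ hp _ => absurd hp (nopureO hI fd i))
  have hfull := full_of_kw hK hRk hX.dd h hfl
  have hker : Module.finrank ℤ (Ker (co phi i)) + 1 = Module.finrank ℤ L := finrank_kerO hRk h
  rw [hs0, Finset.card_empty, add_zero, hbig'] at hrk
  have hbr := fun i => big_rankI hEvz hEv1 hFcl hR hRS hI fd i (hN2 i) (hNiV i)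
  choose hb1 U hUs hUG hUr hUz using hbr
  have hsum1 : ∑ i, rk (supp (G i)) ≤ ∑ i, 2 * Ni i := Finset.sum_le_sum fun i _ => hb1 i
  have hne : (Finset.univ : Finset (Fin n)).Nonempty := by
    rw [Finset.nonempty_iff_ne_empty]
    intro h5
    rw [h5, Finset.sum_empty] at hsum1
    rw [h5, Finset.sum_empty] at hrk
    omega
  obtain ⟨hsp, -⟩ := O1.H12.sum_le_prod Finset.univ Ni (fun i _ => hN2 i) hne
  rw [← hN'] at hsp
  have hsum3 : ∑ i, 2 * Ni i = 2 * ∑ i, Ni i := by rw [Finset.mul_sum]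
  have hNN : N ≤ N' + 1 := by omega
  have hc1 : c0 = 1 := by
    by_contra hcon
    have h3 : 2 ≤ c0 := by omega
    have h4 := Nat.mul_le_mul_right N' h3
    omega
  subst hc1
  rw [one_mul] at hprod
  have hm : f.coeff 0 = 1 := by omega
  refine ⟨hm, c, n, G, ?_, fd.eq, fd.irr, fd.wd, hab, ?_⟩
  · have h3 := hcV
    rw [Nat.cast_one] at h3
    exact h3
  · have hsum2 : ∑ i, rk (supp (G i)) = ∑ i, 2 * Ni i := by omega
    have heq : ∀ i, rk (supp (G i)) = 2 * Ni i := by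
      intro i
      exact (Finset.sum_eq_sum_iff_of_le (fun i _ => hb1 i)).mp hsum2 i (Finset.mem_univ i)
    apply O1.H12.zfree_prod G U hUG (fun i => hUz i (heq i))
    · simp only [hUr]
      omega
    · have h6 : rk (supp (cl (co phi i) S h e E)) ≤
          Module.finrank ℤ (⨆ i, U i : Submodule ℤ (Ker (co phi i))) := by
        unfold rk
        apply Submodule.finrank_mono
        rw [Submodule.span_le]
        intro x hx
        rw [fd.eq] at hx
        have h7 : x ∈ supp (∏ i, G i) := by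
          intro h0
          apply hx
          rw [H71.cst_mul_coeff, h0, mul_zero]
        exact O1.H12.supp_prod G (⨆ i, U i) (fun i a ha => Submodule.mem_iSup_of_mem i (hUG i a ha))
          Finset.univ x h7
      omega

end Pool.Agent.B5.BP80
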