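import Pool.Agent.Lib.MP_b5021c_nt.BP.H80.LevB
import Pool.Agent.Lib.MP_b5021c_nt.BP.H80.Cnt
import Pool.Agent.Lib.MP_b5021c_nt.BP.H12.Asm
import Pool.Agent.Lib.MP_b5021c_nt.BP.H12.Pb
import Pool.Agent.Lib.MP_b5021c_nt.BP.H12.Wd
import Pool.Agent.Lib.MP_b5021c_nt.BP.H12.T2m
import Pool.Agent.Lib.MP_b5021c_nt.BP.H23.K1
import Pool.Agent.Lib.MP_b5021c_nt.BP.H52.Mcs
import Pool.Agent.Lib.MP_b5021c_nt.BP.H57.In
import Pool.Agent.Lib.MP_b5021c_nt.BP.H57.Pz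
import Pool.Agent.Lib.MP_b5021c_nt.BP.H71.Str
import Pool.Agent.Lib.MP_b5021c_nt.BP.H71.Fclg
import Pool.Agent.Lib.MP_b5021c_nt.BP.H83.Dec
import Pool.Agent.Lib.MP_b5021c_nt.BP.H90.Tys
import Pool.Agent.Lib.MP_b5021c_nt.UF.H83.UfgAll
import Pool.Agent.Lib.MP_b5021c_nt.UF.H83.Cno
import Pool.Agent.Lib.MP_b5021c_nt.UF.H02.Ccn2

/-!
# Board b5, BpS: THEOREM B' from base rows only (helper80)
-/

namespace Pool.Agent.B5.BP80

open Pool.Agent.B5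
open Pool.Agent.B5.BPR

/-- THEOREM B' (strong form) from base rows. -/
theorem bpx_all
    -- chapters A, B
    (hMulti : MultiS) (hStSpec : StSpecS) (hB2c : B2cS) (hG0 : G0S) (hEvR : EvRS) (hA3a : A3aS)
    (hA3b : A3bS) (hA5 : A5S) (hA6 : A6S) (hA7 : A7S) (hZf : ZfinS) (hUA : UnitAS) (hU : UnitRS)
    (hCI : ComplIrrS) (hCo : ComplS) (hRk : RkS) (hFacet : FacetS) (hFcl : FclS) (hE2 : E2S)
    (hVZ : VZS) (hMm : MmulS) (hMV : MVS) (hE1 : E1S) (hM1 : M1S) (hMmo : MmonoS) (hMono : MonoS)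
    (hC0 : Coeff0S) (hMin : MinS) (hB3 : B3S) (hB4 : B4S) (hB5a : B5aS) (hB5 : B5S) (hC1 : C1S)
    (hC1b : C1bS) (hC2 : C2S) (hFull : FullS) (hPr : PrimS) (hSh : SharpS) (hDe : DensS)
    (hHur : HurS) (hSlM : SlMulS) (hSlE : SlEvalS) (hKe : KerEvS) (hFace : FaceS)
    (hRS : ResStS) (hR : ResWDS) (hGen : GenS)
    -- closings
    (hFD : FDS) (hSm : SmallS) (hF1 : F1S) (hF2 : F2S) (hVco : VcoS) (hMp : MpaS) (hMco : McoS)
    (hD2 : D2S) (hD3 : D3S) (hUS : RkUSS) (hLMN : LMNS) (hW : WWfS) (hRF : RayFacS)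
    (hQst : QstS) (hQra : QraS) (hKm : KmuS) (hG1 : G1pS) (hG4 : G4S) (hLsn : LsnS) (hL2 : L2S)
    (hSy : SymLS) (hLR : LatResS)
    -- Eisenstein
    (hEv : EvS) (hEvm : EvmS) (hEvz : EvzS) (hEv1 : BdV ℤ 1 1)
    -- masses
    (hQc : Qc3S) (hDv : Dv3S) (hNd : Nd3vS) (hQm : Qm3S) (hNr : Nr3S) (hHp : HpgS) (hTa : Ta3S)
    (hUm : Um3vS) (hSt3 : St3S) (hSw3 : Sw3S) (hNn : Nn3S) (hQp : Qp3S) (hDb : Db3S)
    (hHp3 : Hp3S) (hTrg : TrgS) (hPai : PaiS) (hPav : PavS) (hHar : HarS) (hPmf : PmfS)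
    (hSnt : SntS) (hLin : E1.LinS)
    -- averages
    (hDcm : DcmS) (hSub : SubzS) (hPc : PCZS) : BpxS := by
  have hV1 : BP57.V1S := BP57.v1 hTrg hPai hPav hHar hPmf hSnt hE2 hEvR hU hM1 hMV
  have hV1z : BP57.V1zS := BP57.v1z hTrg hPai hPav hHar hPmf hSnt hE2 hEvR hU hM1 hMV hLin
  have hFw : H71.FclwS := H71.fclw (H71.fclg_all hHur hA3a hB3 hC1 hC2 hB4 hSh hStSpec hC0 hSlM
    hPr hCI hCo)
  have hCno : Cno.CnoS := Cno.cno hMulti hStSpec hEvR hE2 hG0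
  have hCq : UF.H74.CresqS := H02.cresq hMulti hStSpec hG0 hEvR hE2
  have hUf : UfgS := Ufg.ufg_all hDcm hSub hPr hG0 hRk hE2 hFD hSm hUA hMin hMm hGen hPc hG4 hMono
    hE1 hMV hMulti hStSpec hEvR hA5 hA7 hB5a hB2c hA3b hZf hCI hCo hFcl hEvz hEv1
  have hK1 : K1S := by apply BP23.k1s <;> assumption
  have hTys : TysS := by apply BP90.tysS <;> assumption
  have hAdj : AdjS := by apply BP12.adjS <;> assumption
  have hDec : DecS := by apply DecP.decS <;> assumption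
  have hCtb : CtbS := DecP.ctbS (UfgC.ccng hCq hE2 hG0 hPr hA5 hA7) hDec
  have hLev : LevS := levS hU hE2 hVZ hNd hCq hDec hK1 hAdj
  have hCnt : CntS := by apply cntS <;> assumption
  have hMc : BP12.McOneS := by apply BP52.mcOneS <;> assumption
  have hPz : PzS := by apply BP57.pzS <;> assumption
  have hPb : PbS := BP12.pbS hU hLev hCnt hCtb hPz hAdj
  have hT2 : T2mS := by apply BP12.t2mS <;> assumption
  have hStr : StrS := by apply BP71.strS <;> assumption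
  have hIn : InS := by apply BP57.inS <;> assumption
  exact BP12.bpxS ⟨hTys, hCnt, hPb, hAdj, hT2, hStr, hIn, hUf⟩ hV1z hVZ hGen hF1 hF2 hVco hMp
    hFacet hCI hCo hRk hE1 hMV hM1 hE2 hEv1 hEvz hD3 hSy hLR hU

end Pool.Agent.B5.BP80
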