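import Pool.Agent.Lib.MP_b5021c_nt.UF.H83.Avg

/-!
# Board b5, exports of (BPX) (helper80): the averages with all coefficients
-/

namespace Pool.Agent.B5.BP80

open scoped LaurentPolynomial
open Polynomial
open Pool.Agent.B5 Pool.Agent.B5.H83 Pool.Agent.B5.H96 Pool.Agent.B5.Uf
open Pool.Agent.B5.Dcm (mz mzs_coeff unit_mz)

set_option linter.unusedSectionVars false

section

variable {P : Type} [Fintype P] [DecidableEq P] {L : Type} [AddCommGroup L] [Module.Free ℤ L]
  [Module.Finite ℤ L]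

/-- The average of `E` over the levels divisible by `q m`, gauge removed, `z^m` replaced by `z`. -/
structure Avx (phi : L →+ (P → ℤ)) (E : AO ℤ L) (S : L) (i0 : P) (q m : ℕ) (nu : ℤ × L →+ ℤ)
    (K : Submodule ℤ L) (D : AO ℤ K) (S' : K) (h' : co (phi.comp (incl K)) i0 S' = 1)
    (se : ℤˣ) (gam : K →+ ℤ) (s1 : ℤˣ) : Prop where
  eS : (S' : L) = S
  dd : DD (phi.comp (incl K)) D
  rkL : Module.finrank ℤ K = Module.finrank ℤ L
  gm : ∀ a : K, (q : ℤ) * gam a = -nu (0, (a : L))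
  co : ∀ (a : K) (j : ℤ), (D.coeff a).coeff j = s1 * (E.coeff (a : L)).coeff (gam a + m * j)
  mem : ∀ (y : L) (k : ℤ), (E.coeff y).coeff k ≠ 0 → ((q : ℤ) * m) ∣ nu (k, y) → y ∈ K
  dr : Module.finrank ℤ K =
    rk (supp (cl (Pool.Agent.B5.co (phi.comp (incl K)) i0) S' h' (H40.uT se 0) D)) + 1
  cs : ∀ (a : Ker (Pool.Agent.B5.co (phi.comp (incl K)) i0)) (k : ℤ),
    ((cl (Pool.Agent.B5.co (phi.comp (incl K)) i0) S' h' (H40.uT se 0) D).coeff a).coeff k ≠ 0 →
      k = 0
  ns : ∀ (b : Ker (Pool.Agent.B5.co (phi.comp (incl K)) i0)) (e : (RO ℤ)ˣ), b ≠ 0 →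
    ¬ (1 - AddMonoidAlgebra.single b (e : RO ℤ)) ∣
      cl (Pool.Agent.B5.co (phi.comp (incl K)) i0) S' h' (H40.uT se 0) D

/-- (AVX) -/
theorem avx (hRk : RkS) (hDcm : DcmS) (hSub : SubzS) (hPr : PrimS) (hG0 : G0S)
    (hFD : FDS) (hSm : SmallS) (hU : UnitAS) (hMin : MinS) (hMm : MmulS)
    {phi : L →+ (P → ℤ)} {E : AO ℤ L} {S : L} {i0 : P} {h : co phi i0 S = 1} {eta : (RO ℤ)ˣ}
    {c : RO ℤ} {n0 : ℕ} {G : Fin n0 → AO ℤ (Ker (co phi i0))} (hCC : CC phi E S i0 eta)
    (hZ : Zfg phi E S i0 h eta c n0 G) (hc : IsUnit c) {se : ℤˣ} {ke : ℤ}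
    (hse : (eta : RO ℤ) = mz ke (se : ℤ)) {q : ℕ} (hq : 0 < q) {nu : ℤ × L →+ ℤ}
    (hnq : nu (1, 0) = q) (hnS : nu (-ke, S) = 0)
    (hnV : ∀ (a : Ker (co phi i0)) (k : ℤ),
      ((cl (co phi i0) S h eta E).coeff a).coeff k ≠ 0 → nu (k, (a : L)) = 0)
    (hSc : (E.coeff S).coeff (-ke) ≠ 0)
    (hrk : Module.finrank ℤ L = rk (supp (cl (co phi i0) S h eta E)) + 1) {m : ℕ} (hm : 1 ≤ m) :
    ∃ (K : Submodule ℤ L) (D : AO ℤ K) (S' : K) (h' : co (phi.comp (incl K)) i0 S' = 1)
      (gam : K →+ ℤ) (s1 : ℤˣ), Avx phi E S i0 q m nu K D S' h' se gam s1 := by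
  classical
  have hm0 : 0 < m := hm
  have hq0 : (q : ℤ) ≠ 0 := by exact_mod_cast hq.ne'
  have hnu : ∀ (k : ℤ) (a : L), nu (k, a) = q * k + nu (0, a) := by
    intro k a
    have h2 : ((k, a) : ℤ × L) = k • ((1 : ℤ), (0 : L)) + (0, a) := by simp
    rw [h2, map_add, map_zsmul, hnq, smul_eq_mul]
    ring
  set V := cl (co phi i0) S h eta E with hVdef
  -- the grading
  have : NeZero (q * m) := ⟨(Nat.mul_pos hq hm0).ne'⟩
  let l' : L →+ ℤ := nu.comp (AddMonoidHom.inr ℤ L)
  have hl' : ∀ a, l' a = nu (0, a) := fun a => rfl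
  let l : L →+ ZMod (q * m) := (Int.castAddHom (ZMod (q * m))).comp l'
  have hl : ∀ a, l a = ((l' a : ℤ) : ZMod (q * m)) := fun a => rfl
  set g' : ZMod (q * m) := ((q : ℤ) : ZMod (q * m)) with hg'
  set r : ZMod (q * m) := ((0 : ℤ) : ZMod (q * m)) with hr
  have hsm : ∀ k : ℤ, k • g' = ((k * q : ℤ) : ZMod (q * m)) := by
    intro k
    rw [hg', zsmul_eq_mul, Int.cast_mul]
  have hcast : ∀ x y : ℤ, ((x : ℤ) : ZMod (q * m)) = ((y : ℤ) : ZMod (q * m)) ↔
      ((q : ℤ) * m) ∣ y - x := by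
    intro x y
    rw [ZMod.intCast_eq_intCast_iff_dvd_sub]
    push_cast
    rfl
  have hcond : ∀ (k : ℤ) (a : L), k • g' = r - l a ↔ ((q : ℤ) * m) ∣ q * k + l' a := by
    intro k a
    rw [hsm, hr, hl, ← Int.cast_sub, hcast, ← dvd_neg]
    congr! 1
    ring
  have hl'S : l' S = (q : ℤ) * ke := by
    have h3 := hnu (-ke) S
    rw [hnS] at h3
    rw [hl']
    linarith
  have hl'K : ∀ (b : Ker (co phi i0)) (k : ℤ), (V.coeff b).coeff k ≠ 0 →
      (q : ℤ) * k + l' (b : L) = 0 := by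
    intro b k hk
    have h3 := hnV b k hk
    rw [hnu] at h3
    exact h3
  have hlS : ke • g' = l S := by
    rw [hsm, hl, hl'S]
    congr 1
    ring
  have hHm : Hmg g' (l.comp (incl (Ker (co phi i0)))) r
      (cst (1 : RO ℤ) * cl (co phi i0) S h eta E) := by
    intro b k hk
    rw [H78.cst_one, one_mul] at hk
    have h3 := hl'K b k hk
    change k • g' + l (b : L) = r
    rw [← eq_sub_iff_add_eq, hcond, h3]
    exact dvd_zero _
  obtain ⟨c1, D', hc1, hE, hEcl, hsupp, hst, hun, hirr, hrk1, hrk2, hDD, hfr⟩ :=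
    hDcm ℤ P L phi E S i0 eta h (ZMod (q * m)) g' l r 1 hCC one_ne_zero
      (by rw [map_one]) (by
      intro k hk
      rw [hse] at hk
      unfold mz at hk
      rw [AddMonoidAlgebra.coeff_single, Finsupp.single_apply] at hk
      by_cases h3 : ke = k
      · rw [← h3]
        exact hlS
      · rw [if_neg h3] at hk
        exact absurd rfl hk) hHm
  rw [H78.cst_one, one_mul] at hE hEcl
  rw [← hVdef] at hEcl hrk2
  have hc1u : IsUnit c1 := by
    have h1 : cst c1 ∣ cst c * ∏ i, G i := by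
      rw [← hZ.eq, ← hVdef, hEcl]
      exact Dvd.intro _ rfl
    exact isUnit_of_dvd_unit (Dcm.gauss (Dcm.prim_prod hPr G hZ.irr hZ.wd) c1 c h1) hc
  obtain ⟨k1, s1, hk1⟩ := unit_mz hc1u.unit
  have hk1' : c1 = mz k1 (s1 : ℤ) := hk1
  have hDc : ∀ (a : L) (k : ℤ), (D'.coeff a).coeff k =
      s1 * (if ((q : ℤ) * m) ∣ q * (k + k1) + l' a then (E.coeff a).coeff (k + k1)
        else 0) := by
    intro a k
    have h3 : (dcm g' l r E).coeff a = c1 * D'.coeff a := by rw [hE, H78.cstm]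
    have h4 := congrArg (fun F : RO ℤ => F.coeff (k + k1)) h3
    change ((dcm g' l r E).coeff a).coeff (k + k1) = (c1 * D'.coeff a).coeff (k + k1) at h4
    rw [dcm_coeff, pm_coeff, hk1', mzs_coeff, add_sub_cancel_right] at h4
    have h5 : (s1 : ℤ) * (s1 * (D'.coeff a).coeff k) = (D'.coeff a).coeff k := by
      rw [← mul_assoc, sq_unit, one_mul]
    rw [← h5, ← h4]
    congr 1
    by_cases h6 : (k + k1) • g' = r - l a
    · rw [if_pos h6, if_pos ((hcond _ _).1 h6)]
    · rw [if_neg h6, if_neg (fun h7 => h6 ((hcond _ _).2 h7))]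
  -- the lattice of `D'`
  set K : Submodule ℤ L := Submodule.span ℤ (supp D') with hK
  have hsK : ∀ a ∈ supp D', a ∈ K := fun a ha => Submodule.subset_span ha
  have hex : ∀ (a : L) (k : ℤ), (D'.coeff a).coeff k ≠ 0 →
      ((q : ℤ) * m) ∣ q * (k + k1) + l' a ∧ (E.coeff a).coeff (k + k1) ≠ 0 := by
    intro a k hk
    rw [hDc] at hk
    by_cases h6 : ((q : ℤ) * m) ∣ q * (k + k1) + l' a
    · rw [if_pos h6] at hk
      exact ⟨h6, right_ne_zero_of_mul hk⟩
    · rw [if_neg h6, mul_zero] at hk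
      exact absurd rfl hk
  have hmem : ∀ (y : L) (k : ℤ), (E.coeff y).coeff k ≠ 0 → ((q : ℤ) * m) ∣ nu (k, y) →
      y ∈ supp D' := by
    intro y k hk hd h3
    have h4 : D'.coeff y = 0 := h3
    have h5 := hDc y (k - k1)
    rw [h4, sub_add_cancel, if_pos (by rw [hl', ← hnu]; exact hd)] at h5
    exact mul_ne_zero s1.ne_zero hk h5.symm
  have hdv : ∀ a ∈ K, (q : ℤ) ∣ l' a := by
    intro a ha
    rw [hK] at ha
    induction ha using Submodule.span_induction with
    | mem a ha =>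
      obtain ⟨k, hk⟩ : ∃ k, (D'.coeff a).coeff k ≠ 0 := by
        by_contra hcon
        push Not at hcon
        apply ha
        apply AddMonoidAlgebra.ext
        exact Finsupp.ext hcon
      have h3 := (Dvd.intro _ rfl : (q : ℤ) ∣ q * m).trans (hex a k hk).1
      exact (dvd_add_right (Dvd.intro _ rfl)).1 h3
    | zero => rw [map_zero]; exact dvd_zero _
    | add x y _ _ hx hy => rw [map_add]; exact dvd_add hx hy
    | smul n x _ hx => rw [map_zsmul, smul_eq_mul]; exact hx.mul_left _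
  let gam : K →+ ℤ := AddMonoidHom.mk' (fun a => -(l' (a : L) / q)) (by
    intro a b
    change -(l' ((a : L) + (b : L)) / q) = -(l' (a : L) / q) + -(l' (b : L) / q)
    rw [map_add, Int.add_ediv_of_dvd_left (hdv _ a.2)]
    ring)
  have hgam : ∀ a : K, (q : ℤ) * gam a = -(l' (a : L)) := by
    intro a
    change (q : ℤ) * -(l' (a : L) / q) = _
    rw [mul_neg, Int.mul_ediv_cancel' (hdv _ a.2)]
  have hgS : ∀ a : K, l' (a : L) = -((q : ℤ) * gam a) := fun a => by rw [hgam, neg_neg]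
  have hcd : ∀ (a : K) (k : ℤ), (((q : ℤ) * m) ∣ q * (k + k1) + l' (a : L)) ↔
      ∃ j : ℤ, k = gam a + (-k1) + m * j := by
    intro a k
    rw [hgS, show (q : ℤ) * (k + k1) + -(q * gam a) = q * (k + k1 - gam a) by ring,
      mul_dvd_mul_iff_left hq0]
    constructor
    · rintro ⟨j, hj⟩
      exact ⟨j, by linarith⟩
    · rintro ⟨j, hj⟩
      exact ⟨j, by linarith⟩
  have hSD : S ∈ supp D' := hmem S (-ke) hSc (by rw [hnS]; exact dvd_zero _)
  let S' : K := ⟨S, hsK S hSD⟩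
  have hS'c : (S' : L) = S := rfl
  have h' : co (phi.comp (incl K)) i0 S' = 1 := h
  have hkk : ∀ a : K, co (phi.comp (incl K)) i0 a = co phi i0 (a : L) := fun a => rfl
  have hgS' : gam S' = -ke := by
    have h3 := hgam S'
    rw [hS'c, hl'S] at h3
    apply mul_left_cancel₀ hq0
    linarith
  obtain ⟨D'', hDD'', hco, hcl⟩ := hSub P K (phi.comp (incl K)) (res K D') gam (-k1) m hDD hm
    (by
      intro a k hk
      rw [res_coeff] at hk
      exact (hcd a k).1 (hex _ _ hk).1)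
  -- the closing of `D''`
  have heta : H40.uT se (-gam S') = eta := by
    apply Units.ext
    rw [Uf.uT_mz, hgS', neg_neg, hse]
  set V' := cl (co (phi.comp (incl K)) i0) S' h' (H40.uT se 0) D'' with hV'
  set W := cl (co (phi.comp (incl K)) i0) S' h' eta (res K D') with hW
  have hclV : ∀ (a : Ker (co (phi.comp (incl K)) i0)) (j : ℤ), (V'.coeff a).coeff j =
      (W.coeff a).coeff (gam (a : K) + (-k1) + m * j) := by
    intro a j
    have h3 := hcl (co (phi.comp (incl K)) i0) S' h' se a j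
    rw [heta] at h3
    exact h3
  have hWV : ∀ (a : Ker (co (phi.comp (incl K)) i0)) (j : ℤ),
      (V.coeff (iot (co phi i0) K _ hkk a)).coeff j = s1 * (W.coeff a).coeff (j - k1) := by
    intro a j
    rw [hEcl, H78.cstm, hk1', mzs_coeff, cl_res hkk h hS'c h' eta hsK]
  have hWexp : ∀ (a : Ker (co (phi.comp (incl K)) i0)) (j : ℤ), (W.coeff a).coeff j ≠ 0 →
      j = gam (a : K) + (-k1) := by
    intro a j hj
    have h3 := hl'K (iot (co phi i0) K _ hkk a) (j + k1) (by
      rw [hWV, add_sub_cancel_right]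
      exact mul_ne_zero s1.ne_zero hj)
    rw [iot_coe, hgS] at h3
    apply mul_left_cancel₀ hq0
    linarith
  have hcst : ∀ (a : Ker (co (phi.comp (incl K)) i0)) (k : ℤ), (V'.coeff a).coeff k ≠ 0 →
      k = 0 := by
    intro a k hk
    rw [hclV] at hk
    have h3 := hWexp a _ hk
    have h4 : (m : ℤ) * k = 0 := by linarith
    exact (mul_eq_zero.1 h4).resolve_left (by exact_mod_cast hm0.ne')
  refine ⟨K, D'', S', h', gam, s1, ⟨hS'c, hDD'', ?_, hgam, ?_, fun y k h3 h4 =>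
    hsK y (hmem y k h3 h4), ?_, hcst, ?_⟩⟩
  · have h3 := hrk2 hSD
    have h7 : rk (supp D') = Module.finrank ℤ K := rfl
    have h8 : Module.finrank ℤ K ≤ Module.finrank ℤ L := Submodule.finrank_le K
    omega
  · intro a j
    have h3 : gam a + (-k1) + (m : ℤ) * j + k1 = gam a + m * j := by ring
    rw [hco, res_coeff, hDc, if_pos ((hcd a _).mpr ⟨j, rfl⟩), h3]
  · have h3 : supp V ⊆ iot (co phi i0) K _ hkk '' supp V' := by
      intro b hb
      by_cases hb2 : ∃ a, iot (co phi i0) K _ hkk a = b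
      · obtain ⟨a, rfl⟩ := hb2
        refine ⟨a, ?_, rfl⟩
        obtain ⟨j, hj⟩ : ∃ j, (V.coeff (iot (co phi i0) K _ hkk a)).coeff j ≠ 0 := by
          by_contra hcon
          push Not at hcon
          apply hb
          apply AddMonoidAlgebra.ext
          exact Finsupp.ext hcon
        rw [hWV] at hj
        have h4 := right_ne_zero_of_mul hj
        have h5 := hWexp a _ h4
        intro h6
        have h7 : V'.coeff a = 0 := h6
        have h8 := hclV a 0
        rw [h7, mul_zero, add_zero, ← h5] at h8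
        exact h4 h8.symm
      · exfalso
        apply hb
        have h4 := cl_res_not hkk h hS'c h' eta hsK b (fun a ha => hb2 ⟨a, ha⟩)
        rw [hEcl, H78.cstm, h4, mul_zero]
    change Module.finrank ℤ K = rk (supp V') + 1
    have h4 : rk (supp V) ≤ rk (iot (co phi i0) K _ hkk '' supp V') :=
      (hRk (Ker (co phi i0)) (Ker (co phi i0))).2.1 _ _ h3
    have h5 := (hRk (Ker (co (phi.comp (incl K)) i0)) (Ker (co phi i0))).2.2.2.1
      (iot (co phi i0) K _ hkk) (supp V') (iot_inj _ _ _ _)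
    have h6 := (hRk (Ker (co (phi.comp (incl K)) i0)) (Ker (co (phi.comp (incl K)) i0))).2.2.1
      (supp V')
    have h7 := (hRk K K).1 (co (phi.comp (incl K)) i0) (by
      intro h8
      rw [h8] at h'
      exact zero_ne_one h')
    have h8 : Module.finrank ℤ K ≤ Module.finrank ℤ L := Submodule.finrank_le K
    have h9 : Module.finrank ℤ L = rk (supp V) + 1 := hrk
    have h10 := hrk2 hSD
    have h11 : rk (supp D') = Module.finrank ℤ K := rfl
    omega
  · intro b e hb hd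
    obtain ⟨e', he'⟩ := ns_trans hkk h hS'c h' eta hsK gam (-k1) V' hcst (by
      intro a
      rw [hclV, mul_zero, add_zero]) hWexp b e hd
    refine ns_Lg hFD hSm hG0 hU hMin hPr hMm hCC hZ hc (iot (co phi i0) K _ hkk b) e' ?_ ?_
    · intro h3
      apply hb
      apply iot_inj (co phi i0) K _ hkk
      rw [h3, map_zero]
    · rw [← hVdef, hEcl]
      exact he'.mul_left _

end

end Pool.Agent.B5.BP80
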