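import Pool.Agent.Lib.MP_b5021c_nt.BP.H12.Asm
import Pool.Agent.Lib.MP_b5021c_nt.BP.H12.Pb
import Pool.Agent.Lib.MP_b5021c_nt.BP.H57.Pze

/-!
# Board b5, exports of (BPX) (helper80): (F), a full closing at the unit load
-/

namespace Pool.Agent.B5.BP80

open scoped LaurentPolynomial
open Polynomial
open Pool.Agent.B5
open Pool.Agent.B5.BPR
open Pool.Agent.B5.BP57

set_option linter.unusedSectionVars false

/-- Binomials with the same exponent. -/
def Bnm (N : ℕ) (p g : ℤ[X]) : Prop :=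
  ∃ (k : ℕ) (t r : ℤ), 1 ≤ k ∧ p = C (N : ℤ) + C t * X ^ k ∧ g = 1 + C r * X ^ k

/-- (BPF) the closing at the unit load of a unit ray is full. -/
def BpfS : Prop := ∀ (P L : Type) [Fintype P] [DecidableEq P] [AddCommGroup L]
  [Module.Free ℤ L] [Module.Finite ℤ L] (phi : L →+ (P → ℤ)) (G : AO ℤ L) (N : ℕ) (S : L) (i : P)
  (h : co phi i S = 1) (w e : (RO ℤ)ˣ) (p g : ℤ[X]), 2 ≤ N → DD phi G → ClassV N (G.coeff 0) →
    Module.finrank ℤ L + 1 = 2 * N → (∀ K < 2 * N, Bnk K) → Ray G S →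
    (w : RO ℤ) * G.coeff 0 = toLaurent p → p.coeff 0 = N →
    (w : RO ℤ) * ((e : RO ℤ) * G.coeff S) = -toLaurent g → g.coeff 0 = 1 → g ≠ 1 →
    ImS phi S → (∀ mu : L →+ ℤ, Kw phi G S i e mu → mu = 0) →
      Bnm N p g ∨ (p - g = C ((N : ℤ) - 1) ∧ ZFree (cl (co phi i) S h e G))

section

variable {P L : Type} [Fintype P] [DecidableEq P] [AddCommGroup L] [Module.Free ℤ L]
  [Module.Finite ℤ L] {phi : L →+ (P → ℤ)}

theorem bnm_of_bpx_two {p g : ℤ[X]} (h : Bpx 2 p g) : Bnm 2 p g := by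
  rcases h with h | ⟨s, M, F, h1, h2, -⟩
  · exact h
  · have := h2.1
    omega

theorem bnm_of_tyC {N : ℕ} {p g : ℤ[X]} (h : TyC N p g) (hg : g ≠ 1) : Bnm N p g := by
  rcases h with ⟨h1, -⟩ | ⟨d, u, hd, -, h1, -⟩ | ⟨d, u, hd, -, h1, h2⟩ | ⟨h0, d, r, hd, h1, h2⟩
  · exact absurd h1 hg
  · exact absurd h1 hg
  · refine ⟨d, -(((N : ℤ) - 1) * u), -u, hd, ?_, ?_⟩
    · rw [h2]; simp only [map_neg]; ring
    · rw [h1]; simp only [map_neg]; ring
  · exact ⟨d, 2 * r, 2 * r, hd, by rw [h0, h1]; simp, h2⟩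

theorem bnm_of_allB (hU : UnitRS) {N : ℕ} {p g : ℤ[X]} {E : AO ℤ L}
    (hX : Xt N p phi E) {b : L} {i : P} {e : (RO ℤ)ˣ} (hb : Gl phi E b i e g)
    (hg0 : g.coeff 0 = 1) (hA : AllB E) : Bnm N p g := by
  obtain ⟨d, hd, hA⟩ := hA
  obtain ⟨n, al, be, h0⟩ := hA 0
  obtain ⟨m, al', be', h1⟩ := hA b
  have hN := hX.n3
  obtain ⟨t, ht⟩ := BP12.bin_nf hU (w := 1) (q := p) (by rw [Units.val_one, one_mul, hX.e0])
    (by rw [hX.p0]; exact_mod_cast (by omega : N ≠ 0)) hd h0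
  obtain ⟨r, hr⟩ := BP12.bin_nf hU (w := -e) (q := g) (by
    rw [Units.val_neg, neg_mul, hb.eq, neg_neg]) (by rw [hg0]; exact one_ne_zero) hd h1
  rw [hX.p0] at ht
  rw [hg0, C_1] at hr
  exact ⟨d, t, r, hd, ht, hr⟩

/-- The normalised element. -/
theorem xt_nrm (hU : UnitRS) {G : AO ℤ L} {N : ℕ} (hN : 3 ≤ N) (hD : DD phi G)
    (hcv : ClassV N (G.coeff 0)) (hrk : Module.finrank ℤ L + 1 = 2 * N) {w : (RO ℤ)ˣ} {p g : ℤ[X]}
    {S : L} {e : (RO ℤ)ˣ} (hp : (w : RO ℤ) * G.coeff 0 = toLaurent p) (hp0 : p.coeff 0 = N)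
    (hg : (w : RO ℤ) * ((e : RO ℤ) * G.coeff S) = -toLaurent g) (hg0 : g.coeff 0 = 1)
    (hg1 : g ≠ 1) : Xt N p phi (cst (w : RO ℤ) * G) := by
  have hwu : IsUnit (w : RO ℤ) := w.isUnit
  have hco : ∀ a, (cst (w : RO ℤ) * G).coeff a = (w : RO ℤ) * G.coeff a := fun a => by rw [H78.cstm]
  have hE0 : (cst (w : RO ℤ) * G).coeff 0 = toLaurent p := by rw [hco, hp]
  have hpne : p.coeff 0 ≠ 0 := by rw [hp0]; exact_mod_cast (by omega : N ≠ 0)
  obtain ⟨hpz, -⟩ := zf_of_unit hU hcv hp hpne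
  have hnp : ‖(Coef.emb (p.coeff 0) : ℂ)‖ = N := by
    rw [hp0]
    change ‖(((N : ℤ) : ℤ) : ℂ)‖ = _
    rw [Complex.norm_intCast]
    simp
  refine ⟨H78.dd_cst hwu (fun z => (hwu.map (evR z)).ne_zero) hD, ?_, hrk, hN, hE0, hp0, ?_⟩
  · rw [hE0]
    have h6 := classV_of (O := ℤ) hU (w := 1) (F := toLaurent p) (v := p)
      (by rw [Units.val_one, one_mul]) (by
        rw [hnp]
        have : (3 : ℝ) ≤ N := by exact_mod_cast hN
        linarith) hpz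
    rw [hnp] at h6
    exact h6
  · intro hz
    apply hg1
    have h2 := BP12.gz1 hz hU (w := -e) (a := S) (p := g) (by
      rw [hco, Units.val_neg, neg_mul]
      linear_combination -hg) (by rw [hg0]; exact one_ne_zero)
    rw [h2, hg0, C_1]

theorem gl_nrm {G : AO ℤ L} {w : (RO ℤ)ˣ} {g : ℤ[X]} {S : L} {i : P} (h : co phi i S = 1)
    {e : (RO ℤ)ˣ} (hS : Ray G S)
    (hg : (w : RO ℤ) * ((e : RO ℤ) * G.coeff S) = -toLaurent g) (hg0 : g.coeff 0 = 1) :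
    Gl phi (cst (w : RO ℤ) * G) S i e g := by
  refine ⟨BP90.ray_cst w.isUnit.ne_zero hS, h, ?_, by rw [hg0]⟩
  rw [H78.cstm]
  linear_combination hg

theorem kw_nrm {G : AO ℤ L} {w : (RO ℤ)ˣ} {S : L} {i : P} {e : (RO ℤ)ˣ} {mu : L →+ ℤ} :
    Kw phi (cst (w : RO ℤ) * G) S i e mu ↔ Kw phi G S i e mu := by
  have hco : ∀ a, (cst (w : RO ℤ) * G).coeff a = (w : RO ℤ) * G.coeff a := fun a => by rw [H78.cstm]
  have hw : (w : RO ℤ) ≠ 0 := w.isUnit.ne_zero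
  unfold Kw Tot.KT
  refine and_congr_right fun _ => forall_congr' fun x => forall_congr' fun _ =>
    forall_congr' fun _ => ?_
  simp only [hco]
  constructor
  · intro h
    have h2 : (w : RO ℤ) * (G.coeff x + (e : RO ℤ) * G.coeff (x + S)) = 0 := by
      linear_combination h
    exact (mul_eq_zero.mp h2).resolve_left hw
  · intro h
    linear_combination (w : RO ℤ) * h

theorem nb_nrm {G : AO ℤ L} {w : (RO ℤ)ˣ} {S : L} {i : P} {e : (RO ℤ)ˣ} (h : co phi i S = 1) :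
    cl (co phi i) S h e (cst (w : RO ℤ) * G) = cst (w : RO ℤ) * cl (co phi i) S h e G := by
  rw [map_mul]
  congr 1
  unfold cst
  rw [cl_single, map_zero, map_zero, zpow_zero, Units.val_one, mul_one]

end

/-- (BPF) from the rows. -/
theorem bpfS (hU : UnitRS) (hE2 : E2S) (hVZ : VZS) (hV1 : BP57.V1zS) (hTys : TysS) (hCnt : CntS)
    (hCtb : CtbS) (hUf : UfgS) : BpfS := by
  intro P L _ _ _ _ _ phi G N S i h w e p g hN hD hcv hrk hbn hS hp hp0 hg hg0 hg1 hI hfull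
  rcases Nat.lt_or_ge 2 N with hN3 | hN2
  swap
  · have h2 : N = 2 := le_antisymm hN2 hN
    subst h2
    left
    have h3 := BP12.bpA_two hV1 hU hE2 hVZ P L phi G S w (-(w * e)) p g hD hcv hrk hbn hS hp hp0
      (by rw [Units.val_neg, Units.val_mul]; linear_combination -hg) hg0
    exact bnm_of_bpx_two (h3.1 hg1)
  have hX := xt_nrm (phi := phi) hU hN3 hD hcv hrk hp hp0 hg hg0 hg1
  have hb := gl_nrm (phi := phi) h hS hg hg0
  by_cases hNb : Nb phi (cst (w : RO ℤ) * G) S i e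
  swap
  · left
    exact bnm_of_tyC (hTys P L phi _ N p g S i e hX hb hg0 hI hNb) hg1
  obtain ⟨-, c, n, F, hz⟩ := hCnt P L phi _ N p g S i e h hX hb hI hNb
    (fun mu hk => hfull mu (kw_nrm.mp hk))
  by_cases hc : IsUnit c
  swap
  · left
    exact bnm_of_allB hU hX hb hg0 (hCtb P L phi _ N p g S i e h c n F hX hb hg0 hz hc)
  obtain ⟨x, hx, hx1⟩ := BP12.ex_x hN3
  rcases hUf P L phi _ S i h e c n F N p g 1 x hX.dd hb.ray hz hN3
      hX.cv hX.rkL (hbn _ (by omega)) (by rw [Units.val_one, one_mul, hX.e0])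
      (by rw [Units.val_one, one_mul, hb.eq]) hX.p0 hg0 hx hx1 with
    ⟨F0, h1, h2, -⟩ | ⟨k, ep, hk, -, h1, h2⟩
  · right
    refine ⟨?_, ?_⟩
    · rw [h1, h2, C_sub, C_1]; ring
    · have h3 : ZFree (cst (w : RO ℤ) * cl (co phi i) S h e G) := by
        rw [← nb_nrm, hz.eq]
        exact zfree_unit hU hc hz.zf
      have h4 := zfree_unit hU (c := ((w⁻¹ : (RO ℤ)ˣ) : RO ℤ)) (w⁻¹).isUnit h3
      have h5 : cst ((w⁻¹ : (RO ℤ)ˣ) : RO ℤ) * (cst (w : RO ℤ) * cl (co phi i) S h e G) =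
          cl (co phi i) S h e G := by
        rw [← mul_assoc]
        have h6 : (cst ((w⁻¹ : (RO ℤ)ˣ) : RO ℤ) * cst (w : RO ℤ) : AO ℤ (Ker (co phi i))) = 1 := by
          unfold cst
          rw [AddMonoidAlgebra.single_mul_single, Units.inv_mul, add_zero]
          rfl
        rw [h6, one_mul]
      rw [h5] at h4
      exact h4
  · left
    exact ⟨k, -ep, _, hk, by rw [h1, map_neg]; ring, h2⟩

/-- A z-free element: the coefficients are monomials. -/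
theorem mono_of_zfree {L : Type} [AddCommGroup L] {E : AO ℤ L} (h : ZFree E) (a : L) :
    ∃ (n m : ℤ), E.coeff a = LaurentPolynomial.T m * LaurentPolynomial.C n := by
  obtain ⟨q, l, n0, hq, hl⟩ := h
  by_cases h0 : E.coeff a = 0
  · exact ⟨0, 0, by rw [h0, map_zero, mul_zero]⟩
  obtain ⟨k0, hk0⟩ : ∃ k, (E.coeff a).coeff k ≠ 0 := by
    by_contra hcon
    push Not at hcon
    exact h0 (LaurentPolynomial.ext hcon)
  refine ⟨(E.coeff a).coeff k0, k0, ?_⟩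
  apply LaurentPolynomial.ext
  intro k
  rw [H78.T_mul_coeff]
  by_cases hk : k = k0
  · rw [hk, sub_self, LaurentPolynomial.C_apply, if_pos rfl]
  · rw [LaurentPolynomial.C_apply, if_neg (sub_ne_zero.mpr hk)]
    by_contra h1
    have h2 := (hl a k h1).trans (hl a k0 hk0).symm
    exact hk (mul_left_cancel₀ (by exact_mod_cast hq.ne' : (q : ℤ) ≠ 0) h2)

end Pool.Agent.B5.BP80
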