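import Pool.Agent.Lib.MP_b5021c_nt.BP.H80.Lev
import Pool.Agent.Lib.MP_b5021c_nt.BP.H57.Eta
import Pool.Agent.Lib.MP_b5021c_nt.UF.H74.Ccn
import Pool.Agent.Lib.MP_b5021c_nt.IfaceE3V

/-!
# Board b5, BpS, row LevS: the divisor `1 - u y_b` of the closing of `T` (helper80)
-/

namespace Pool.Agent.B5.BP80

set_option linter.unusedSectionVars false

open scoped LaurentPolynomial
open Polynomial
open AddMonoidAlgebra (single coeff_single_mul_apply)
open Pool.Agent.B5.H40 (uT uT_val)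
open Pool.Agent.B5.Tot
open Pool.Agent.B5.Tl
open Pool.Agent.B5.BPR
open Pool.Agent.B5.UF.H74 (evR_lau emb_eq av_map cd_dvd)

section Star

variable {O : Type} [CommRing O] [IsDomain O] [IsPrincipalIdealRing O] [Coef O] {L : Type}
  [AddCommGroup L] [Module.Free ℤ L] [Module.Finite ℤ L]

/-- A divisor `1 - single b' e'`, `b'` a multiple of `b`, of the closing of `T`. -/
theorem star (hU : UnitRS) (kB kT : L →+ ℤ) (b T : L) (hb : kB b = 1) (hT : kT T = 1)
    (hbT : kB T = 0) (hTb : kT b = 0) (eT : (RO O)ˣ) (E : AO O L)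
    (hB : ∀ a ∈ supp E, kB a = 0 ∨ kB a = 1) (hT' : ∀ a ∈ supp E, kT a = 0 ∨ kT a = 1)
    (b' : Ker kT) (hb' : b' ≠ 0) (hbb : (b' : L) = kB (b' : L) • b) (e' : (RO O)ˣ)
    (hd : (1 - single b' (e' : RO O)) ∣ cl kT T hT eT E)
    (h0 : E.coeff 0 + (eT : RO O) * E.coeff T ≠ 0) :
    ∃ u : (RO O)ˣ, ∀ y : L, kB y = 0 → kT y = 0 →
      E.coeff (y + b) + (eT : RO O) * E.coeff (y + b + T) =
        -((u : RO O) * (E.coeff y + (eT : RO O) * E.coeff (y + T))) := by
  classical
  obtain ⟨W, hW⟩ := hd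
  obtain ⟨V, hV⟩ : ∃ V, V = cl kT T hT eT E := ⟨_, rfl⟩
  obtain ⟨kB', hkB'⟩ : ∃ k : Ker kT →+ ℤ, k = kB.comp (incl (Ker kT)) := ⟨_, rfl⟩
  have hkc : ∀ y : Ker kT, kB' y = kB (y : L) := fun y => by rw [hkB']; rfl
  obtain ⟨bK, hbK⟩ : ∃ x : Ker kT, x = ⟨b, hTb⟩ := ⟨_, rfl⟩
  obtain ⟨c', hc'⟩ : ∃ c' : ℤ, c' = kB (b' : L) := ⟨_, rfl⟩
  have hbbK : b' = c' • bK := by
    apply Subtype.ext
    rw [hbb, ← hc', hbK]
    rfl
  have hc0 : c' ≠ 0 := by
    intro h
    apply hb'
    rw [hbbK, h, zero_smul]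
  have hVc : ∀ y : Ker kT, V.coeff y = E.coeff (y : L) + (eT : RO O) * E.coeff ((y : L) + T) :=
    fun y => by rw [hV]; exact Pool.Agent.B5.H47.cl_coeff_bin kT T hT eT E hT' y
  have hVB : ∀ y ∈ supp V, kB' y = 0 ∨ kB' y = 1 := by
    intro y hy
    have h1 : V.coeff y ≠ 0 := hy
    rw [hVc] at h1
    rw [hkc]
    by_cases h2 : E.coeff (y : L) = 0
    · rw [h2, zero_add] at h1
      have h3 := hB _ (right_ne_zero_of_mul h1)
      rw [map_add, hbT, add_zero] at h3
      exact h3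
    · exact hB _ h2
  obtain ⟨A, hA⟩ : ∃ A : AO O (Ker kT), A = gpart kB' 0 V := ⟨_, rfl⟩
  obtain ⟨D, hD⟩ : ∃ D : AO O (Ker kT), D = gpart kB' 1 V := ⟨_, rfl⟩
  have hAc : ∀ y, A.coeff y = if kB' y = 0 then V.coeff y else 0 := fun y => by
    rw [hA]; exact H50.gpart_coeff _ _ _ _
  have hDc : ∀ y, D.coeff y = if kB' y = 1 then V.coeff y else 0 := fun y => by
    rw [hD]; exact H50.gpart_coeff _ _ _ _
  have hVAD : V = A + D := by
    apply AddMonoidAlgebra.ext
    apply Finsupp.ext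
    intro y
    rw [AddMonoidAlgebra.coeff_add, Finsupp.add_apply, hAc, hDc]
    by_cases ha : V.coeff y = 0
    · rw [ha, ite_self, ite_self, add_zero]
    · rcases hVB y ha with h | h
      · rw [if_pos h, if_neg (by omega), add_zero]
      · rw [if_pos h, if_neg (by omega), zero_add]
  obtain ⟨v, n, hvn⟩ := eq_uT hU e'
  have hdegA : (tgrd (pr kB')).Deg A 0 := tgrd_deg _ _ _ (by
    intro x hx
    have h1 : A.coeff x.2 ≠ 0 := snd_of_ts hx
    rw [hAc] at h1
    by_contra h2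
    exact h1 (if_neg h2))
  have hdegD : (tgrd (pr kB')).Deg D 1 := tgrd_deg _ _ _ (by
    intro x hx
    have h1 : D.coeff x.2 ≠ 0 := snd_of_ts hx
    rw [hDc] at h1
    by_contra h2
    exact h1 (if_neg h2))
  have hhom : (tgrd (pr kB')).Hom ((su b' e' : (AO O (Ker kT))ˣ) : AO O (Ker kT)) c' := by
    rw [su_val, hvn]
    have h1 := tgrd_hom (pr kB') b' v n
    have h2 : pr kB' (n, b') = c' := by
      rw [pr_apply, hkc, hc']
    rw [h2] at h1
    exact h1
  have hWW : (1 - ((su b' e' : (AO O (Ker kT))ˣ) : AO O (Ker kT))) * W = A + D := by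
    rw [← hVAD, hV, hW, su_val]
  rcases tele (tgrd (pr kB')) (su b' e') c' 1 hc0 hhom W A D hdegA hdegD hWW with h | ⟨r, hr, h⟩
  · exfalso
    apply h0
    have h1 := hAc 0
    rw [h, if_pos (map_zero kB'), hVc] at h1
    have h2 : ((0 : Ker kT) : L) = 0 := rfl
    rw [h2, zero_add] at h1
    exact h1.symm
  · refine ⟨(e' ^ (-r))⁻¹, fun y hy1 hy2 => ?_⟩
    have h1 : (-r) • b' = -bK := by
      rw [hbbK, smul_smul, neg_mul, hr, neg_one_smul]
    rw [su_zpow, h1, su_val] at h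
    obtain ⟨yK, hyK⟩ : ∃ yK : Ker kT, yK = ⟨y, mem_Ker.mpr hy2⟩ := ⟨_, rfl⟩
    have hyc : (yK : L) = y := by rw [hyK]
    have h2 := congrArg (fun F : AO O (Ker kT) => F.coeff yK) h
    simp only [AddMonoidAlgebra.coeff_add, Finsupp.add_apply] at h2
    rw [hAc, if_pos (by rw [hkc, hyc]; exact hy1)] at h2
    have h4 : ((-(-bK) + yK : Ker kT) : L) = y + b := by
      rw [neg_neg, hbK, ← hyc]
      exact add_comm b (yK : L)
    rw [coeff_single_mul_apply, hDc, if_pos (by
      rw [hkc, h4, map_add, hb, hy1, zero_add]), hVc, hVc, h4, hyc] at h2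
    have h3 : (0 : AO O (Ker kT)).coeff yK = 0 := rfl
    rw [h3] at h2
    rw [eq_neg_of_add_eq_zero_left h2]
    have h5 : (((e' ^ (-r))⁻¹ : (RO O)ˣ) : RO O) * ((e' ^ (-r) : (RO O)ˣ) : RO O) = 1 :=
      Units.inv_mul _
    linear_combination (-(E.coeff (y + b) + (eT : RO O) * E.coeff (y + b + T))) * h5

end Star

section Spc

variable {P : Type} [Fintype P] [DecidableEq P] {L : Type} [AddCommGroup L] [Module.Free ℤ L]
  [Module.Finite ℤ L]

/-- Polynomial data of `E` and of a ray. -/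
theorem gl_pol (hE2 : E2S) (hVZ : VZS) (hU : UnitRS) {N : ℕ} {p f : ℤ[X]} {phi : L →+ (P → ℤ)}
    {E : AO ℤ L} (hX : Xt N p phi E) {R : L} {i : P} {e : (RO ℤ)ˣ} (hG : Gl phi E R i e f) :
    (∀ z : ℂ, ‖z‖ ≤ 1 → (p.map (Coef.emb : ℤ →+* ℂ)).eval z ≠ 0) ∧
      (∀ z : ℂ, ‖z‖ = 1 → ‖(f.map (Coef.emb : ℤ →+* ℂ)).eval z‖ ≤
        ‖(p.map (Coef.emb : ℤ →+* ℂ)).eval z‖) ∧
      (∀ z : ℂ, ‖z‖ < 1 → ‖(f.map (Coef.emb : ℤ →+* ℂ)).eval z‖ <
        ‖(p.map (Coef.emb : ℤ →+* ℂ)).eval z‖) ∧ f.coeff 0 < (N : ℤ) := by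
  have h3 := hX.n3
  have h4 := hX.rkL
  have hp0 : p.coeff 0 ≠ 0 := by rw [hX.p0]; omega
  have e0 : (((1 : (RO ℤ)ˣ) : RO ℤ)) * E.coeff 0 = toLaurent p := by
    rw [Units.val_one, one_mul, hX.e0]
  obtain ⟨hz, -⟩ := BP57.zf_of_unit hU hX.cv e0 hp0
  obtain ⟨h1, h2, h5⟩ := BP57.ray_polyU hE2 hVZ (w := 1) (u := e) hX.dd (by omega) hG.ray e0
    (by rw [Units.val_one, one_mul, hG.eq]) hz
  refine ⟨h1, h2, h5, ?_⟩
  have h6 := h5 0 (by simp)
  rw [← coeff_zero_eq_eval_zero, ← coeff_zero_eq_eval_zero, coeff_map, coeff_map, hX.p0,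
    emb_eq] at h6
  change ‖((f.coeff 0 : ℤ) : ℂ)‖ < ‖(((N : ℤ) : ℤ) : ℂ)‖ at h6
  rw [Complex.norm_intCast, Complex.norm_intCast] at h6
  have h7 : |f.coeff 0| < |(N : ℤ)| := by exact_mod_cast h6
  have h8 := hG.pos
  rw [abs_of_pos (by omega), abs_of_nonneg (by positivity)] at h7
  exact h7

/-- The case of a divisor `1 - u y_b` of the closing of `T`. -/
theorem spc (hU : UnitRS) (hE2 : E2S) (hVZ : VZS) (hNd : Nd3vS) (hCres : UF.H74.CresqS) (hDec : DecS)
    (hK1 : K1S) {N : ℕ} {p g f : ℤ[X]} {phi : L →+ (P → ℤ)} {E : AO ℤ L} {b T : L} {i iT : P}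
    {e eT : (RO ℤ)ˣ} {mu : L →+ ℤ} (hX : Xt N p phi E) (hGb : Gl phi E b i e g)
    (hg0 : g.coeff 0 = 1) (hGT : Gl phi E T iT eT f) (hims : ImS phi b) (hbT : phi T i = 0)
    (hTb : phi b iT = 0) (hk : Kw phi E b i e mu) (hm : mu T ≠ 0)
    (hst : ∃ u : (RO ℤ)ˣ, ∀ y : L, co phi i y = 0 → co phi iT y = 0 →
      E.coeff (y + b) + (eT : RO ℤ) * E.coeff (y + b + T) =
        -((u : RO ℤ) * (E.coeff y + (eT : RO ℤ) * E.coeff (y + T)))) : AllB E := by
  classical
  obtain ⟨u, hst⟩ := hst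
  obtain ⟨hpz, hle, -, hmN⟩ := gl_pol hE2 hVZ hU hX hGT
  obtain ⟨-, hleb, -, -⟩ := gl_pol hE2 hVZ hU hX hGb
  have hN3 := hX.n3
  have hrk := hX.rkL
  obtain ⟨ut, hut⟩ : ∃ ut : (RO ℤ)ˣ, ut = u * e := ⟨_, rfl⟩
  obtain ⟨V, hV⟩ : ∃ V, V = cl (co phi i) b hGb.po e E := ⟨_, rfl⟩
  have hVc : ∀ x : Ker (co phi i), V.coeff x = E.coeff (x : L) + (e : RO ℤ) * E.coeff ((x : L) + b) :=
    fun x => by
      rw [hV]
      exact Pool.Agent.B5.H47.cl_coeff_bin _ b hGb.po e E (fun a ha => hX.dd.bin a ha i) x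
  have hkT : co phi iT T = 1 := hGT.po
  have hkb : co phi i b = 1 := hGb.po
  have hkTb : co phi i T = 0 := hbT
  have hkbT : co phi iT b = 0 := hTb
  -- the two lines
  have key : ∀ y : L, co phi i y = 0 → co phi iT y = 0 →
      (E.coeff y + (e : RO ℤ) * E.coeff (y + b)) +
        (eT : RO ℤ) * (E.coeff (y + T) + (e : RO ℤ) * E.coeff (y + T + b)) =
        (1 - (ut : RO ℤ)) * (E.coeff y + (eT : RO ℤ) * E.coeff (y + T)) := by
    intro y h1 h2
    have h3 := hst y h1 h2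
    have h4 : y + T + b = y + b + T := by abel
    rw [h4, hut, Units.val_mul]
    linear_combination (e : RO ℤ) * h3
  have hmu : ∀ x : L, co phi i x = 0 → mu x ≠ 0 → E.coeff x + (e : RO ℤ) * E.coeff (x + b) = 0 :=
    fun x h1 h2 => hk.2 x h1 h2
  have l0 : ∀ y : L, co phi i y = 0 → co phi iT y = 0 → mu y = 0 →
      E.coeff y + (e : RO ℤ) * E.coeff (y + b) =
        (1 - (ut : RO ℤ)) * (E.coeff y + (eT : RO ℤ) * E.coeff (y + T)) := by
    intro y h1 h2 h3
    rw [← key y h1 h2, hmu (y + T) (by rw [map_add, h1, hkTb, add_zero])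
      (by rw [map_add, h3, zero_add]; exact hm), mul_zero, add_zero]
  have hdvd : cst (1 - (ut : RO ℤ)) ∣ V := by
    rw [H96.cst_dvd_iff]
    intro x
    have hx : co phi i (x : L) = 0 := x.2
    rw [hVc]
    by_cases h0 : mu (x : L) = 0
    · by_cases h1 : co phi iT (x : L) = 0
      · rw [l0 _ hx h1 h0]
        exact ⟨_, rfl⟩
      · by_cases h2 : co phi iT (x : L) = 1
        · have h3 := key ((x : L) - T) (by rw [map_sub, hx, hkTb, sub_zero])
            (by rw [map_sub, h2, hkT, sub_self])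
          rw [sub_add_cancel, hmu ((x : L) - T) (by rw [map_sub, hx, hkTb, sub_zero])
            (by rw [map_sub, h0, zero_sub]; exact neg_ne_zero.mpr hm), zero_add] at h3
          refine ⟨((eT⁻¹ : (RO ℤ)ˣ) : RO ℤ) * (E.coeff ((x : L) - T) + (eT : RO ℤ) *
            E.coeff (x : L)), ?_⟩
          have h4 : ((eT⁻¹ : (RO ℤ)ˣ) : RO ℤ) * (eT : RO ℤ) = 1 := Units.inv_mul _
          linear_combination ((eT⁻¹ : (RO ℤ)ˣ) : RO ℤ) * h3 -
            (E.coeff (x : L) + (e : RO ℤ) * E.coeff ((x : L) + b)) * h4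
        · have h3 : E.coeff (x : L) = 0 := by
            by_contra h
            rcases hX.dd.bin _ h iT with h4 | h4
            · exact h1 h4
            · exact h2 h4
          have h4 : E.coeff ((x : L) + b) = 0 := by
            by_contra h
            have h6 : co phi iT ((x : L) + b) = co phi iT (x : L) := by
              rw [map_add, hkbT, add_zero]
            rcases hX.dd.bin _ h iT with h5 | h5
            · exact h1 (h6 ▸ h5)
            · exact h2 (h6 ▸ h5)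
          rw [h3, h4, mul_zero, add_zero]
          exact dvd_zero _
    · rw [hmu _ hx h0]
      exact dvd_zero _
  obtain ⟨G, hG⟩ := hdvd
  have hGc : ∀ x, V.coeff x = (1 - (ut : RO ℤ)) * G.coeff x := fun x => by
    rw [hG, H96.cst_mul_coeff]
  -- the constant coefficient
  have hV0 : V.coeff 0 = toLaurent (p - g) := by
    rw [hVc]
    have h1 : ((0 : Ker (co phi i)) : L) = 0 := rfl
    rw [h1, zero_add, hX.e0, hGb.eq, map_sub]
    ring
  have hal0 : E.coeff 0 + (eT : RO ℤ) * E.coeff (0 + T) = toLaurent (p - f) := by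
    rw [zero_add, hX.e0, hGT.eq, map_sub]
    ring
  have eq1 : toLaurent (p - g) = (1 - (ut : RO ℤ)) * toLaurent (p - f) := by
    have h1 := l0 0 (map_zero _) (map_zero _) (map_zero _)
    rw [hal0] at h1
    rw [← h1, ← hV0, hVc]
    rfl
  have hpg0 : (p - g).coeff 0 = (N : ℤ) - 1 := by rw [coeff_sub, hX.p0, hg0]
  have hpf0 : (p - f).coeff 0 = (N : ℤ) - f.coeff 0 := by rw [coeff_sub, hX.p0]
  have hpgn : p - g ≠ 0 := by
    intro h
    rw [h, coeff_zero] at hpg0
    omega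
  have hun : (1 - (ut : RO ℤ)) ≠ 0 := by
    intro h
    rw [h, zero_mul] at eq1
    exact hpgn (Dcm.toLaurent_inj' (by rw [eq1, map_zero]))
  have hG0 : G.coeff 0 = toLaurent (p - f) := by
    apply mul_left_cancel₀ hun
    rw [← hGc, hV0, eq1]
  obtain ⟨TK, hTK⟩ : ∃ TK : Ker (co phi i), TK = ⟨T, hkTb⟩ := ⟨_, rfl⟩
  have hTKc : (TK : L) = T := by rw [hTK]
  have hGT0 : G.coeff TK = 0 := by
    apply mul_left_cancel₀ hun
    rw [← hGc, hVc, hTKc, hmu T hkTb hm, mul_zero]
  have hVG : cl (co phi i) b hGb.po e E = cst (1 - (ut : RO ℤ)) * G := by rw [← hV, hG]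
  obtain ⟨v, j, hvj⟩ := eq_uT hU ut
  have hutv : (ut : RO ℤ) = LaurentPolynomial.C (v : ℤ) * LaurentPolynomial.T j := by
    rw [hvj]; rfl
  have hv : (v : ℤ) = 1 ∨ (v : ℤ) = -1 := by
    rcases Int.units_eq_one_or v with h | h <;> rw [h]
    · exact Or.inl rfl
    · exact Or.inr rfl
  rcases lt_trichotomy j 0 with hj | hj | hj
  · -- negative exponent
    exfalso
    obtain ⟨k, hk⟩ : ∃ k : ℕ, j = -(k : ℤ) := ⟨j.natAbs, by omega⟩
    have hk1 : 1 ≤ k := by omega
    have h1 : (LaurentPolynomial.T (k : ℤ) : RO ℤ) * toLaurent (p - g) =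
        LaurentPolynomial.T 0 * toLaurent ((X ^ k - C (v : ℤ)) * (p - f)) := by
      have h0 : toLaurent ((X ^ k - C (v : ℤ)) * (p - f)) = (LaurentPolynomial.T (k : ℤ) -
          LaurentPolynomial.C (v : ℤ)) * toLaurent (p - f) := by
        rw [map_mul, map_sub toLaurent (X ^ k), toLaurent_X_pow, toLaurent_C]
      rw [h0, eq1, hutv, hk, LaurentPolynomial.T_zero, one_mul]
      have h2 : (LaurentPolynomial.T (k : ℤ) : RO ℤ) * LaurentPolynomial.T (-(k : ℤ)) = 1 := by
        rw [← LaurentPolynomial.T_add, add_neg_cancel, LaurentPolynomial.T_zero]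
      linear_combination (-(LaurentPolynomial.C (v : ℤ)) * toLaurent (p - f)) * h2
    have h3 := (H09.nf_unique (k : ℤ) 0 (p - g) _ (by rw [hpg0]; omega) (by
      rw [mul_coeff_zero, hpf0, coeff_sub, coeff_X_pow, if_neg (by omega), coeff_C_zero]
      refine mul_ne_zero ?_ (by omega)
      rcases hv with h | h <;> rw [h] <;> norm_num) h1).1
    omega
  · -- constant
    exfalso
    rcases hv with h | h
    · apply hun
      rw [hutv, h, hj, LaurentPolynomial.T_zero, mul_one, map_one, sub_self]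
    · have h1 : (1 - (ut : RO ℤ)) = LaurentPolynomial.C 2 := by
        rw [hutv, h, hj, LaurentPolynomial.T_zero, mul_one, map_neg, map_one, sub_neg_eq_add,
          one_add_one_eq_two, map_ofNat]
      rw [h1] at hVG
      have h2 := hK1 P L phi E N p g b i e hGb.po 2 G hX hGb hims hVG
      omega
  · obtain ⟨k, hk⟩ : ∃ k : ℕ, j = (k : ℤ) := ⟨j.natAbs, by omega⟩
    have hk1 : 1 ≤ k := by omega
    obtain ⟨c1, hc1⟩ : ∃ c1 : ℤ[X], c1 = 1 - C (v : ℤ) * X ^ k := ⟨_, rfl⟩
    have hc1L : (1 - (ut : RO ℤ)) = toLaurent c1 := by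
      rw [hutv, hk, hc1, map_sub, map_one, map_mul, toLaurent_C, toLaurent_X_pow]
    have hc1z : ∀ z : ℂ, aeval z c1 = 0 → ‖z‖ = 1 := by
      intro z hz
      have h4 : (v : ℂ) * z ^ k = 1 := by
        rw [hc1] at hz
        simp only [map_sub, map_mul, map_one, map_pow, aeval_X, aeval_C] at hz
        exact (sub_eq_zero.mp hz).symm
      have h6 : ‖z‖ ^ k = 1 := by
        have h7 := congrArg norm h4
        rw [norm_mul, norm_pow, norm_one] at h7
        have h8 : ‖((v : ℤ) : ℂ)‖ = 1 := by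
          rcases hv with h | h <;> rw [h] <;> norm_num
        rw [h8, one_mul] at h7
        exact h7
      exact (pow_eq_one_iff_of_nonneg (norm_nonneg z) (by lia)).mp h6
    have eq2 : p - g = c1 * (p - f) := by
      apply Dcm.toLaurent_inj'
      rw [eq1, hc1L, ← map_mul]
    have h2L : 2 ≤ Module.finrank ℤ L := by lia
    have hv0 : E.coeff 0 + (e : RO ℤ) * E.coeff b ≠ 0 := by
      rw [hX.e0, hGb.eq, ← sub_eq_add_neg, ← map_sub]
      intro h
      exact hpgn (Dcm.toLaurent_inj' (by rw [h, map_zero]))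
    have hCC : CC phi E b i e := ⟨hX.dd, h2L, hGb.ray, hGb.po, hv0⟩
    -- the congruence
    have hcong : ∀ z : Circle, aeval (z : ℂ) c1 = 0 → ∀ a : Ker (co phi i),
        evR z (E.coeff (a : L)) = evR z (G.coeff a) := by
      intro z hz
      have hne : evR z (G.coeff 0) ≠ 0 := by
        intro h
        rw [hG0, evR_lau] at h
        refine hNd (p.map (algebraMap ℤ ℂ)) ((p - g).map (algebraMap ℤ ℂ)) z
          (fun w hw => by rw [← emb_eq]; exact hpz w hw) ?_ ?_ (Circle.norm_coe z) ?_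
        · intro w hw
          have h1 := hleb w hw
          rw [emb_eq] at h1
          rw [Polynomial.map_sub, eval_sub]
          obtain ⟨P', hP'⟩ : ∃ x, x = eval w (p.map (algebraMap ℤ ℂ)) := ⟨_, rfl⟩
          obtain ⟨G', hG'⟩ : ∃ x, x = eval w (g.map (algebraMap ℤ ℂ)) := ⟨_, rfl⟩
          rw [← hP', ← hG'] at h1 ⊢
          have h2 : ((P' - G') * (starRingEnd ℂ) P').re = ‖P'‖ ^ 2 - (G' * (starRingEnd ℂ) P').re := by
            rw [sub_mul, Complex.sub_re, Complex.mul_conj, Complex.ofReal_re,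
              Complex.normSq_eq_norm_sq]
          rw [h2]
          have h3 : (G' * (starRingEnd ℂ) P').re ≤ ‖G'‖ * ‖P'‖ := by
            refine (Complex.re_le_norm _).trans ?_
            rw [norm_mul, RCLike.norm_conj]
          nlinarith [norm_nonneg P', norm_nonneg G']
        · intro h1
          apply hpgn
          exact (Polynomial.map_eq_zero_iff (algebraMap ℤ ℂ).injective_int).mp h1
        · rw [eq2, Polynomial.map_mul, pow_two]
          refine mul_dvd_mul ?_ ?_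
          · rw [dvd_iff_isRoot, IsRoot.def, av_map]
            exact hz
          · rw [dvd_iff_isRoot, IsRoot.def, av_map]
            exact h
      have hder : aeval (z : ℂ) (derivative c1) ≠ 0 := by
        rw [hc1, derivative_sub, derivative_one, zero_sub, derivative_C_mul, derivative_X_pow,
          map_neg, map_mul, map_mul, aeval_C, map_pow, aeval_X, aeval_C]
        refine neg_ne_zero.mpr (mul_ne_zero ?_ (mul_ne_zero ?_ (pow_ne_zero _ (Circle.coe_ne_zero z))))
        · rcases hv with h | h <;> rw [h] <;> norm_num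
        · have h1 : (k : ℂ) ≠ 0 := by exact_mod_cast (by omega : k ≠ 0)
          simpa using h1
      obtain ⟨ka, hka⟩ := hCres P L phi E b i hGb.po e c1 G z hCC
        (by rw [hVG, hc1L]) hz hder hne
      have h1 := hka TK
      rw [hTKc, hGT0, map_zero, mul_zero] at h1
      have h2 : aeval (z : ℂ) f = 0 := by
        rw [← evR_lau, ← neg_neg (toLaurent f), ← hGT.eq, map_neg, map_mul, h1, mul_zero, neg_zero]
      have h3 := hka 0
      have h4 : ((0 : Ker (co phi i)) : L) = 0 := rfl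
      rw [h4, hX.e0, hG0, evR_lau, evR_lau, map_sub, h2, sub_zero] at h3
      have h5 : aeval (z : ℂ) p ≠ 0 := by
        rw [← av_map, ← emb_eq]
        exact hpz _ (Circle.norm_coe z).le
      have h6 : ka = 1 := by
        apply mul_right_cancel₀ h5
        rw [← h3, one_mul]
      intro a
      rw [hka a, h6, one_mul]
    have hdiv : cst (toLaurent c1) ∣ res (Ker (co phi i)) E - G := by
      rw [H96.cst_dvd_iff]
      intro a
      obtain ⟨F, hFd⟩ : ∃ F : RO ℤ, F = (res (Ker (co phi i)) E - G).coeff a := ⟨_, rfl⟩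
      rw [← hFd]
      have h5 : (res (Ker (co phi i)) E - G).coeff a = E.coeff (a : L) - G.coeff a := rfl
      have hF0 : ∀ z : Circle, aeval (z : ℂ) c1 = 0 → evR z F = 0 := by
        intro z hz
        rw [hFd, h5, map_sub, hcong z hz a, sub_self]
      obtain ⟨m', f', hf⟩ := LaurentPolynomial.exists_T_pow F
      have h3 : c1 ∣ f' := by
        rw [hc1]
        refine cd_dvd hk1 hv fun z hz => ?_
        rw [← hc1] at hz
        obtain ⟨w, rfl⟩ : ∃ w : Circle, (w : ℂ) = z :=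
          ⟨⟨z, mem_sphere_zero_iff_norm.mpr (hc1z z hz)⟩, rfl⟩
        rw [← evR_lau, hf, map_mul, hF0 w hz, zero_mul]
      obtain ⟨t, ht⟩ := h3
      refine ⟨toLaurent t * LaurentPolynomial.T (-(m' : ℤ)), ?_⟩
      have h4 : F = toLaurent f' * LaurentPolynomial.T (-(m' : ℤ)) := by
        rw [hf, mul_assoc, ← LaurentPolynomial.T_add, add_neg_cancel, LaurentPolynomial.T_zero,
          mul_one]
      rw [h4, ht, map_mul]
      ring
    obtain ⟨R, hR⟩ := hdiv
    refine (hDec P L phi E N p g b i e hGb.po G R k (v : ℤ) hX hGb hg0 hk1 hv ?_ ?_).2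
    · rw [hVG, hc1L, hc1]
    · intro a
      have h3 : (res (Ker (co phi i)) E - G).coeff a = (cst (toLaurent c1) * R).coeff a := by
        rw [hR]
      rw [H96.cst_mul_coeff] at h3
      have h5 : (res (Ker (co phi i)) E - G).coeff a = E.coeff (a : L) - G.coeff a := rfl
      rw [h5] at h3
      rw [← hc1, ← h3]
      ring

/-- All coefficients binomials: the conclusion. -/
theorem cn_of_allb {N : ℕ} {p g : ℤ[X]} {phi : L →+ (P → ℤ)} {E : AO ℤ L} {b : L} {i : P}
    {e : (RO ℤ)ˣ} (hU : UnitRS) (hX : Xt N p phi E) (hGb : Gl phi E b i e g)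
    (hg0 : g.coeff 0 = 1) (h : AllB E) : Cn N p g := by
  obtain ⟨d, hd, h⟩ := h
  -- a polynomial with non-zero constant coefficient of the form `s T^n (al + be X^d)`
  have key : ∀ (q : ℤ[X]) (n al be : ℤ), q.coeff 0 ≠ 0 →
      toLaurent q = LaurentPolynomial.T n * toLaurent (C al + C be * X ^ d) →
        ∃ t : ℤ, q = C (q.coeff 0) + C t * X ^ d := by
    intro q n al be hq h1
    by_cases hal : al = 0
    · rw [hal, C_0, zero_add, map_mul, toLaurent_C, toLaurent_X_pow] at h1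
      have h2 : (LaurentPolynomial.T 0 : RO ℤ) * toLaurent q =
          LaurentPolynomial.T (n + d) * toLaurent (C be) := by
        rw [LaurentPolynomial.T_zero, one_mul, h1, LaurentPolynomial.T_add, toLaurent_C]
        ring
      have hbe : be ≠ 0 := by
        intro h3
        rw [h3, C_0, map_zero, mul_zero, LaurentPolynomial.T_zero, one_mul] at h2
        exact hq (by rw [Dcm.toLaurent_inj' (by rw [h2, map_zero] : toLaurent q = toLaurent 0),
          coeff_zero])
      obtain ⟨-, h3⟩ := H09.nf_unique _ _ q (C be) hq (by rw [coeff_C_zero]; exact hbe) h2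
      exact ⟨0, by rw [h3, coeff_C_zero, C_0, zero_mul, add_zero]⟩
    · have h2 : (LaurentPolynomial.T 0 : RO ℤ) * toLaurent q =
          LaurentPolynomial.T n * toLaurent (C al + C be * X ^ d) := by
        rw [LaurentPolynomial.T_zero, one_mul, h1]
      have h4 : (C al + C be * X ^ d : ℤ[X]).coeff 0 = al := by
        rw [coeff_add, coeff_C_zero, coeff_C_mul, coeff_X_pow, if_neg (by omega), mul_zero,
          add_zero]
      obtain ⟨-, h3⟩ := H09.nf_unique _ _ q _ hq (by rw [h4]; exact hal) h2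
      exact ⟨be, by rw [h3, h4]⟩
  have hN3 := hX.n3
  obtain ⟨n, al, be, h1⟩ := h 0
  obtain ⟨t, ht⟩ := key p n al be (by rw [hX.p0]; omega) (by rw [← hX.e0, h1])
  rw [hX.p0] at ht
  refine ⟨fun _ => Or.inl ?_, fun _ => Or.inl ⟨d, t, hd, ht⟩⟩
  obtain ⟨n', al', be', h2⟩ := h b
  obtain ⟨v, m, hvm⟩ := eq_uT hU e
  have h3 : toLaurent g = LaurentPolynomial.T (m + n') *
      toLaurent (C (-(v : ℤ) * al') + C (-(v : ℤ) * be') * X ^ d) := by
    rw [← neg_neg (toLaurent g), ← hGb.eq, h2, hvm, uT_val, LaurentPolynomial.T_add]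
    simp only [map_add, map_mul, toLaurent_C, map_neg, toLaurent_X_pow]
    ring
  obtain ⟨r, hr⟩ := key g _ _ _ (by rw [hg0]; exact one_ne_zero) h3
  rw [hg0, C_1] at hr
  exact ⟨d, t, r, hd, ht, hr⟩

end Spc

/-- (BPR_LV). -/
theorem levS (hU : UnitRS) (hE2 : E2S) (hVZ : VZS) (hNd : Nd3vS) (hCres : UF.H74.CresqS) (hDec : DecS)
    (hK1 : K1S) (hAd : AdjS) : LevS := by
  intro P L _ _ _ _ _ phi E N p g f b i e T iT eT mu hR hGb hGT hadj hk hm hnb
  have hX := hR.toXt
  obtain ⟨-, h1⟩ := hAd P L phi E N p g b i e mu hR hGb hk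
  obtain ⟨hdis, hims⟩ := h1 T hGT.ray hm
  have hgr : BP12.Gray g E b := ⟨hGb.ray, -e, by rw [Units.val_neg, neg_mul, hGb.eq, neg_neg]⟩
  have hbT : phi T i = 0 := by
    rcases hdis i with h | h
    · exact h
    · have h2 : co phi i b = 1 := hGb.po
      have h3 : phi b i = 1 := h2
      omega
  have hTb : phi b iT = 0 := by
    rcases hdis iT with h | h
    · have h2 : co phi iT T = 1 := hGT.po
      have h3 : phi T iT = 1 := h2
      omega
    · exact h
  by_cases hnT : Nb phi E T iT eT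
  · exact Or.inr hnT
  · left
    unfold Nb at hnT
    push Not at hnT
    obtain ⟨hpo, b', e', hb', hd⟩ := hnT
    have hbb := lev_nb hU hX.dd.bin hGb.po hpo hbT hTb hk hm hnb hd
    obtain ⟨-, -, hlt, hmN⟩ := gl_pol hE2 hVZ hU hX hGT
    have h0 : E.coeff 0 + (eT : RO ℤ) * E.coeff T ≠ 0 := by
      rw [hX.e0, hGT.eq, ← sub_eq_add_neg, ← map_sub]
      intro h
      have h2 : p - f = 0 := Dcm.toLaurent_inj' (by rw [h, map_zero])
      have h3 : (p - f).coeff 0 = 0 := by rw [h2, coeff_zero]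
      rw [coeff_sub, hX.p0] at h3
      omega
    have hst := star hU (co phi i) (co phi iT) b T hGb.po hpo hbT hTb eT E
      (fun a ha => hX.dd.bin a ha i) (fun a ha => hX.dd.bin a ha iT) b' hb' hbb e' hd h0
    exact cn_of_allb hU hX hGb hR.g0 (spc hU hE2 hVZ hNd hCres hDec hK1 hX hGb hR.g0 hGT
      (hR.ims b hgr) hbT hTb hk hm hst)

end Pool.Agent.B5.BP80
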