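import Pool.Agent.Lib.MP_b5021c_nt.BP.H80.Exr
import Pool.Agent.Lib.MP_b5021c_nt.BP.H80.Exf
import Pool.Agent.Lib.MP_b5021c_nt.BP.H80.LevB
import Pool.Agent.Lib.MP_b5021c_nt.BP.H57.In
import Pool.Agent.Lib.MP_b5021c_nt.BP.H71.Str

/-!
# Board b5, exports of (BPX) (helper80): (D), a drop at the unit load of a unit ray
-/

namespace Pool.Agent.B5.BP80

open scoped LaurentPolynomial
open Polynomial
open Pool.Agent.B5
open Pool.Agent.B5.BPR
open Pool.Agent.B5.BP57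
open Pool.Agent.MP_b5021c_nt (Eis)
open Pool.Agent.MP_b5021c_nt.Ire (bc)
open Pool.Agent.B5.H25.Bch
open Pool.Agent.B5.BP90 (Et pE pE_inj embN et_im_ne)

set_option linter.unusedSectionVars false

/-- The conclusion for the pair `(p, g)` of a ray with a drop at its unit load. -/
def Cd (N : ℕ) (p g : ℤ[X]) : Prop := Bnm N p g ∨ Cn (N - 1) (p - g) g

section

variable {P : Type} [Fintype P] [DecidableEq P] {L : Type} [AddCommGroup L] [Module.Free ℤ L]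
  [Module.Finite ℤ L]

/-- `R` is a `g`-ray whose closing at the unit load has a killing functional. -/
structure Gkr (phi : L →+ (P → ℤ)) (E : AO ℤ L) (g : ℤ[X]) (R : L) (i : P) (e : (RO ℤ)ˣ) :
    Prop where
  gl : Gl phi E R i e g
  kl : ∃ mu : L →+ ℤ, mu ≠ 0 ∧ Kw phi E R i e mu

/-- The reduced element (`redk`), and the induction hypothesis. -/
structure Rdk (N : ℕ) (p g : ℤ[X]) (phi : L →+ (P → ℤ)) (E : AO ℤ L) : Prop extends
    Xt N p phi E where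
  g0 : g.coeff 0 = 1
  ims : ∀ (R : L) (i : P) (e : (RO ℤ)ˣ), Gkr phi E g R i e → ImS phi R
  fct : ∀ (lam : L →+ ℤ) (R : L) (i : P) (e : (RO ℤ)ˣ), FacF (supp E) lam → Gkr phi E g R i e →
    lam R = 0 → ∃ (j : P) (m : ℤ), 0 < m ∧ ∀ a, lam a = m * phi a j
  bnk : ∀ K < 2 * N, Bnk K
  ih : BpA (N - 1)

theorem bnm_of_tyC' {N : ℕ} {p g : ℤ[X]} (h : TyC N p g) : Bnm N p g := by
  rcases h with ⟨h1, h2⟩ | ⟨d, u, hd, -, h1, h2⟩ | ⟨d, u, hd, -, h1, h2⟩ | ⟨h0, d, r, hd, h1, h2⟩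
  · exact ⟨1, 0, 0, le_rfl, by rw [h2]; simp, by rw [h1]; simp⟩
  · exact ⟨d, u, 0, hd, h2, by rw [h1]; simp⟩
  · refine ⟨d, -(((N : ℤ) - 1) * u), -u, hd, ?_, ?_⟩
    · rw [h2]; simp only [map_neg]; ring
    · rw [h1]; simp only [map_neg]; ring
  · exact ⟨d, 2 * r, 2 * r, hd, by rw [h0, h1]; simp, h2⟩

theorem bnm_const {N : ℕ} {p g : ℤ[X]} (h1 : g = 1) (h2 : p = C (N : ℤ)) : Bnm N p g :=
  ⟨1, 0, 0, le_rfl, by rw [h2]; simp, by rw [h1]; simp⟩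

/-- `ImS` for the rays adjacent to `b`. -/
theorem ims_adjk (hD3 : D3S) (hRk : RkS) {N : ℕ} {p g : ℤ[X]} {phi : L →+ (P → ℤ)} {E : AO ℤ L}
    (H : Rdk N p g phi E) {b : L} {i : P} {e : (RO ℤ)ˣ} (hb : Gkr phi E g b i e) {T : L}
    (hT : Ray E T) (hadj : BPR.Adj E b T) (hdis : ∀ q, phi T q = 0 ∨ phi b q = 0) :
    ImS phi T := by
  obtain ⟨l, lb, lT, lp⟩ := hadj
  have hbs := hb.gl.ray.1
  obtain ⟨q, hq⟩ := BP12.ex_port H.dd.inj (H.dd.bin b hbs) hb.gl.ray.2.1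
  have hTq : phi T q = 0 := by
    rcases hdis q with h | h
    · exact h
    · rw [hq] at h; exact absurd h one_ne_zero
  intro a ha
  obtain ⟨k, j, hkj⟩ := BP57.inj2g hD3 hRk H.dd hb.gl.ray hT (fun i => (hdis i).symm) lb lT lp
    (fun mu hmu h0 => H.fct mu b i e hmu hb h0) a (fun i _ h1 => ha i h1)
  have h1 := congrArg (fun x => phi x q) hkj
  simp only [map_add, map_zsmul, Pi.add_apply, Pi.smul_apply, hq, hTq, ha q hTq, smul_eq_mul,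
    mul_one, mul_zero, add_zero] at h1
  exact ⟨j, by rw [hkj, ← h1, zero_smul, zero_add]⟩

/-- (BPR_AD) for `Rdk`. -/
theorem adjk (hGen : GenS) (hF1 : F1S) (hF2 : F2S) (hVco : VcoS) (hD3 : D3S) (hRk : RkS)
    {N : ℕ} {p g : ℤ[X]} {phi : L →+ (P → ℤ)} {E : AO ℤ L}
    (H : Rdk N p g phi E) {b : L} {i : P} {e : (RO ℤ)ˣ} (hb : Gl phi E b i e g)
    {mu : L →+ ℤ} (hk : Kw phi E b i e mu) :
    (mu ≠ 0 → ∃ T, Ray E T ∧ BPR.Adj E b T ∧ mu T ≠ 0) ∧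
    ∀ T, Ray E T → mu T ≠ 0 → (∀ q, phi T q = 0 ∨ phi b q = 0) ∧ (BPR.Adj E b T → ImS phi T) := by
  have hUS := (BP12.kw_us hVco H.dd.inj H.dd.bin hb.ray.1 hb.ray.2.1 hb.po).mp hk
  refine ⟨fun hmu => ?_, fun T hT hmT => ?_⟩
  · obtain ⟨a1, ha1, hm1⟩ : ∃ a1 ∈ supp E, mu a1 ≠ 0 := by
      by_contra hcon
      push Not at hcon
      exact hmu (BP12.zero_of_supp H.dd hcon)
    obtain ⟨T, hT, hmT, -, hl⟩ := BP12.face2D hGen hF1 H.dd.inj H.dd.bin hb.ray hUS ha1 hm1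
    exact ⟨T, hT, hl, hmT⟩
  · have hdis := BP12.dis_of_ou hVco hF2 H.dd.inj H.dd.bin hb.ray hT hb.po
      (⟨mu, hk, hmT⟩ : Ou phi E b i e T)
    have hmu : mu ≠ 0 := by rintro rfl; exact hmT rfl
    exact ⟨hdis, fun hadj => ims_adjk hD3 hRk H ⟨hb, mu, hmu, hk⟩ hT hadj hdis⟩

/-- (BPR_LV) for `Rdk`. -/
theorem levk (hU : UnitRS) (hE2 : E2S) (hVZ : VZS) (hNd : Nd3vS) (hCres : UF.H74.CresqS)
    (hDec : DecS) (hK1 : K1S) {N : ℕ} {p g f : ℤ[X]} {phi : L →+ (P → ℤ)} {E : AO ℤ L}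
    (hR : Rdk N p g phi E) {b : L} {i : P} {e : (RO ℤ)ˣ} (hGb : Gl phi E b i e g) {T : L}
    {iT : P} {eT : (RO ℤ)ˣ} (hGT : Gl phi E T iT eT f) (hdis : ∀ q, phi T q = 0 ∨ phi b q = 0)
    {mu : L →+ ℤ} (hk : Kw phi E b i e mu) (hm : mu T ≠ 0) (hnb : Nb phi E b i e) :
    Bnm N p g ∨ Nb phi E T iT eT := by
  have hX := hR.toXt
  have hmu : mu ≠ 0 := by rintro rfl; exact hm rfl
  have hbT : phi T i = 0 := by
    rcases hdis i with h | h
    · exact h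
    · have h2 : co phi i b = 1 := hGb.po
      have h3 : phi b i = 1 := h2
      omega
  have hTb : phi b iT = 0 := by
    rcases hdis iT with h | h
    · have h2 : co phi iT T = 1 := hGT.po
      have h3 : phi T iT = 1 := h2
      omega
    · exact h
  by_cases hnT : Nb phi E T iT eT
  · exact Or.inr hnT
  · left
    unfold Nb at hnT
    push Not at hnT
    obtain ⟨hpo, b', e', hb', hd⟩ := hnT
    have hbb := lev_nb hU hX.dd.bin hGb.po hpo hbT hTb hk hm hnb hd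
    obtain ⟨-, -, hlt, hmN⟩ := gl_pol hE2 hVZ hU hX hGT
    have h0 : E.coeff 0 + (eT : RO ℤ) * E.coeff T ≠ 0 := by
      rw [hX.e0, hGT.eq, ← sub_eq_add_neg, ← map_sub]
      intro h
      have h2 : p - f = 0 := Dcm.toLaurent_inj' (by rw [h, map_zero])
      have h3 : (p - f).coeff 0 = 0 := by rw [h2, coeff_zero]
      rw [coeff_sub, hX.p0] at h3
      omega
    have hst := star hU (co phi i) (co phi iT) b T hGb.po hpo hbT hTb eT E
      (fun a ha => hX.dd.bin a ha i) (fun a ha => hX.dd.bin a ha iT) b' hb' hbb e' hd h0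
    exact bnm_of_allB hU hX hGb hR.g0 (spc hU hE2 hVZ hNd hCres hDec hK1 hX hGb hR.g0 hGT
      (hR.ims b i e ⟨hGb, mu, hmu, hk⟩) hbT hTb hk hm hst)

/-- (BPR_IN) for `Rdk`. -/
theorem ink (hG0 : G0S) (hC0 : Coeff0S) (hMm : MmulS) (hE1 : E1S) (hMV : MVS) (hM1 : M1S)
    (hU : UnitRS) (hE2 : E2S) (hVZ : VZS) (hW : WWfS) (hRF : RayFacS) (hR : ResWDS)
    (hRS : ResStS) (hRk : RkS) (hFD : FDS) (hSm : SmallS) (hK : KmuS) {N : ℕ} {p g : ℤ[X]}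
    {phi : L →+ (P → ℤ)} {E : AO ℤ L} {T : L} {i : P} {e : (RO ℤ)ˣ} (h : co phi i T = 1)
    {x : Ker (co phi i)} {w : (RO ℤ)ˣ} {mu : L →+ ℤ} {b : L} (hRd : Rdk N p g phi E)
    (hT : Gl phi E T i e g) (hNb : Nb phi E T i e) (hx : Ray (cl (co phi i) T h e E) x)
    (hw : (w : RO ℤ) * (cl (co phi i) T h e E).coeff x = toLaurent g) (hmu : mu ≠ 0)
    (hk : Kw phi E T i e mu) (hone : ∀ nu : L →+ ℤ, Kw phi E T i e nu → nu b = 0 → nu = 0) :
    Cn (N - 1) (p - g) g := by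
  have hX := hRd.toXt
  have hN := hX.n3
  obtain ⟨c, n, G, fd⟩ := hFD ℤ P L phi E T i e h (gl_cc hE2 hVZ hU hX hT)
  have hI : ImS phi T := hRd.ims T i e ⟨hT, mu, hmu, hk⟩
  have hrk := one_of_kw hK hRk hX.dd h hmu hk hone
  obtain ⟨P', L', x1, x2, x3, x4, x5, phi', E', S', w', w1', hD', hc', hr', hR', h0', hp', h1'⟩ :=
    ind_dd hG0 hC0 hMm hE1 hMV hM1 hU hE2 hVZ hW hRF hR hRS hRk fd hI (snp_of_nb hSm fd hNb) hN
      hX.cv hX.rkL (w := 1) (p := p) (g := g) (by rw [Units.val_one, one_mul, hX.e0]) hX.p0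
      (by rw [Units.val_one, one_mul, hT.eq]) hRd.g0 hrk hx hw
  exact hRd.ih P' L' phi' E' S' w' w1' (p - g) g hD' hc' hr'
    (fun K hKl => hRd.bnk K (by omega)) hR' h0' hp' h1' hRd.g0

end

end Pool.Agent.B5.BP80
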