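import Pool.Agent.Lib.MP_b5021c_nt.BP.H80.Exd

/-!
# Board b5, exports of (BPX) (helper80): (D), rows T2m and Str for `Rdk`
-/

namespace Pool.Agent.B5.BP80

open scoped LaurentPolynomial
open Polynomial
open Pool.Agent.B5
open Pool.Agent.B5.BPR
open Pool.Agent.MP_b5021c_nt (Eis)
open Pool.Agent.MP_b5021c_nt.Ire (bc)
open Pool.Agent.B5.H25.Bch
open Pool.Agent.B5.BP90 (Et pE pE_inj embN et_im_ne)
open Pool.Agent.B5.BP57 (et_mul)

set_option linter.unusedSectionVars false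

/-- (BPR_T2) for `Rdk`. -/
theorem t2mk (hMc : BP12.McOneS) (hFD : FDS) (hE2 : E2S) (hVZ : VZS) (hU : UnitRS) (hMV : MVS)
    (hE1 : E1S) (hM1 : M1S) (hMm : MmulS) (hG0 : G0S) (hC0 : Coeff0S) (hW : WWfS)
    (hRF : RayFacS) (hQst : QstS) (hQra : QraS) (hMin : MinS) (hB5 : B5aS) (hRk : RkS)
    (hKm : KmuS) (hQc : Qc3S) (hDv : Dv3S) (hNd : Nd3vS) (hLMN : LMNS) (hUS : RkUSS)
    (hD2 : D2S) (hF1 : F1S) (hF2 : F2S) (hMco : McoS) (hD3 : D3S) (hMp : MpaS) (hVco : VcoS)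
    (hG1 : G1pS) (hR : ResWDS) (hRS : ResStS) (hEv : EvS) (hEvR : EvRS) (hEvm : EvmS)
    (hFcl : FclS) (hCno : Cno.CnoS) (hQm : Qm3S) (hNr : Nr3S) (hHp : HpgS) (hTa : Ta3S)
    (hUm : Um3vS) (hSt : St3S) (hSw : Sw3S) (hZ : ZfinS) (hNn : Nn3S) (hSm : SmallS)
    (hV1 : BP57.V1S) (hV1z : BP57.V1zS) {P L : Type} [Fintype P] [DecidableEq P] [AddCommGroup L]
    [Module.Free ℤ L] [Module.Finite ℤ L] {phi : L →+ (P → ℤ)} {E : AO ℤ L} {N : ℕ} {p g : ℤ[X]}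
    {b : L} {i : P} {e : (RO ℤ)ˣ} {T : L} {iT : P} {eT : (RO ℤ)ˣ} (H : Rdk N p g phi E)
    (hb : Gl phi E b i e g) (hT : Gl phi E T iT eT g) (hNb : Nb phi E b i e)
    (h1 : Ou phi E b i e T) (h2 : Ou phi E T iT eT b)
    (hone : ∀ nu : L →+ ℤ, Kw phi E b i e nu → nu T = 0 → nu = 0)
    (hfull : T2f phi E b T e eT) : Bnm N p g := by
  classical
  have hX := H.toXt
  have hN := hX.n3
  have hD := hX.dd
  obtain ⟨et, he⟩ : ∃ et : Eis, Et et := ⟨_, BP90.et_g6⟩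
  have hm : Mut E T b eT e := BP12.mut_of_ou hVco hD.inj hD.bin hT.ray hb.ray hT.po hb.po h2 h1
  have hm' : Mut E b T e eT := BP12.mut_of_ou hVco hD.inj hD.bin hb.ray hT.ray hb.po hT.po h1 h2
  have hdis := BP12.dis_of_ou hVco hF2 hD.inj hD.bin hb.ray hT.ray hb.po h1
  have hkb : Gkr phi E g b i e := by
    obtain ⟨mu, hk, hm⟩ := h1
    exact ⟨hb, mu, by rintro rfl; exact hm rfl, hk⟩
  have hkT : Gkr phi E g T iT eT := by
    obtain ⟨mu, hk, hm⟩ := h2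
    exact ⟨hT, mu, by rintro rfl; exact hm rfl, hk⟩
  have hIb := H.ims b i e hkb
  have hIT := H.ims T iT eT hkT
  have hp1 : ((1 : (RO ℤ)ˣ) : RO ℤ) * E.coeff 0 = toLaurent p := by
    rw [Units.val_one, one_mul, hX.e0]
  have hgT : ((1 : (RO ℤ)ˣ) : RO ℤ) * ((eT : RO ℤ) * E.coeff T) = -toLaurent g := by
    rw [Units.val_one, one_mul, hT.eq]
  have hgb : ((1 : (RO ℤ)ˣ) : RO ℤ) * ((e : RO ℤ) * E.coeff b) = -toLaurent g := by
    rw [Units.val_one, one_mul, hb.eq]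
  have hrk2 : 2 ≤ Module.finrank ℤ L := BP57.Xt.two hX
  have hTi : phi T i = 0 := by
    rcases hdis i with h | h
    · exact h
    · have h3 : phi b i = 1 := hb.po
      rw [h3] at h; exact absurd h one_ne_zero
  have hbiT : phi b iT = 0 := by
    rcases hdis iT with h | h
    · have h3 : phi T iT = 1 := hT.po
      rw [h3] at h; exact absurd h one_ne_zero
    · exact h
  -- the units
  obtain ⟨eu, heu⟩ : IsUnit et := IsUnit.of_mul_eq_one _ (BP57.et_mul he)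
  obtain ⟨k0, hk0⟩ : ∃ k0 : (RO Eis)ˣ, (k0 : RO Eis) = LaurentPolynomial.C et * bcR (eT : RO ℤ) :=
    ⟨Units.map (LaurentPolynomial.C : Eis →+* RO Eis) eu * bcU eT, by
      rw [Units.val_mul, H09.bcU_val]
      change LaurentPolynomial.C ((eu : Eisˣ) : Eis) * _ = _
      rw [heu]⟩
  obtain ⟨k1, hk1⟩ : ∃ k1 : (RO Eis)ˣ, (k1 : RO Eis) = LaurentPolynomial.C et * bcR (e : RO ℤ) :=
    ⟨Units.map (LaurentPolynomial.C : Eis →+* RO Eis) eu * bcU e, by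
      rw [Units.val_mul, H09.bcU_val]
      change LaurentPolynomial.C ((eu : Eisˣ) : Eis) * _ = _
      rw [heu]⟩
  obtain ⟨b', hb'⟩ : ∃ b' : Ker (co phi iT), (b' : L) = b := ⟨⟨b, hbiT⟩, rfl⟩
  obtain ⟨hDH, hRb, hH0, hHb, hclH⟩ := BP57.eta_mut hFD hE2 hVZ hU hMV hE1 hM1 hMm hG0 hC0 hW
    hRF hQst hQra hMin hB5 hRk hKm hQc hDv hNd hLMN hUS hD2 hF1 hF2 hMco (h0 := hT.po) he hk0 hk1
    hD (by omega : 2 ≤ N) hrk2 hX.cv hm hIT hIb hp1 hX.p0 hgT H.g0 hb'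
  obtain ⟨hIb', -⟩ := BP57.im2g hD2 hF1 hF2 hD3 hRk hD hm hIT hIb
    (fun mu hmu h0 => H.fct mu T iT eT hmu hkT h0) hT.po hb'
  have hj : co (phO phi T iT) i b' = 1 := by
    change (if phi T i = 0 then phi (b' : L) i else 0) = 1
    rw [if_pos hTi, hb']
    exact hb.po
  have hfullH := BP12.t2_full hMp hKm hRk hD hb.po hm' hdis hfull he hk0 hk1 hb' (hj := hj) hDH.bin
  have hkerT := BP57.finrank_kerO hRk hT.po
  have hr : Module.finrank ℤ (Ker (co phi iT)) + 2 = 2 * N := by have := hX.rkL; omega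
  have hv0 : (pE p - C et * pE g).coeff 0 = ((N : ℤ) : Eis) - et := by
    rw [coeff_sub, coeff_C_mul, BP57.pE_coeff, BP57.pE_coeff, hX.p0, H.g0]
    push_cast
    ring
  have hg0E : (pE g).coeff 0 = 1 := by rw [BP57.pE_coeff, H.g0]; push_cast; rfl
  have hne : (cl (co phi iT) T hT.po k0 (bc E)).coeff 0 +
      (k1 : RO Eis) * (cl (co phi iT) T hT.po k0 (bc E)).coeff b' ≠ 0 := by
    intro h0
    have h3 : toLaurent (pE p - C et * pE g - pE g) = (0 : RO Eis) := by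
      rw [map_sub, ← hH0]
      linear_combination (((bcU 1 : (RO Eis)ˣ) : RO Eis)) * h0 - hHb
    have h4 := congrArg (fun q : Eis[X] => q.coeff 0)
      (toLaurent_injective (h3.trans (map_zero _).symm))
    simp only [coeff_sub, coeff_zero] at h4
    rw [← coeff_sub, hv0, hg0E] at h4
    have h5 := congrArg (fun x : Eis => (Coef.emb x : ℂ).im) h4
    simp only [map_sub, map_one, map_zero, embN, Complex.sub_im, Complex.one_im, Complex.zero_im,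
      Complex.intCast_im] at h5
    apply et_im_ne he
    linarith
  obtain ⟨c, n, G, fd⟩ := hFD Eis P (Ker (co phi iT)) (phO phi T iT)
    (cl (co phi iT) T hT.po k0 (bc E)) b' i k1 hj ⟨hDH, by omega, hRb, hj, hne⟩
  have fin : (∃ (k : ℕ) (t r : ℤ), 1 ≤ k ∧ p = C (N : ℤ) + C t * X ^ k ∧ g = 1 + C r * X ^ k) →
      Bnm N p g := fun h => h
  by_cases hs : snp (phO phi T iT) b' i G = ∅
  · obtain ⟨G0, -, -, -, -, -, hcase⟩ := BP57.t2n hG1 hR hRS hEv hEvm hFcl hE1 hMV hMm hU hE2 hVZ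
      hRk hCno fd hs hIb' he hN hr hclH hH0 hv0 hHb hg0E hfullH
    apply fin
    refine BP57.bin_of_t2n he hX.p0 H.g0 (a := ((N : ℤ) : Eis) - et - 1) ?_
    rcases hcase with ⟨-, h3⟩ | ⟨d, s, G', R, hd, h3, -⟩
    · exact Or.inl h3
    · exact Or.inr ⟨d, s, hd, h3⟩
  · have hsn := Finset.nonempty_iff_ne_empty.mpr hs
    have hM := hMc P (Ker (co phi iT)) (phO phi T iT) (cl (co phi iT) T hT.po k0 (bc E)) b' i k1
      hj c n G et N _ _ _ _ fd hIb' he hN hr hclH hH0 hv0 hHb hg0E hfullH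
    rcases BP90.t2s_bin hQc hE2 hNd hDv hQm hNr hHp hTa hUm hSt hSw hEvR hZ hNn hU hVZ hM1 hMV hV1 fd hM hsn
      he hN hclH hr hH0 hX.p0 hHb H.g0 with hg | hg
    · -- `g = 1`
      have hgb1 : ((1 : (RO ℤ)ˣ) : RO ℤ) * ((e : RO ℤ) * E.coeff b) = -1 := by
        rw [hgb, hg, map_one]
      have fin1 : (p = C (N : ℤ) ∨ ∃ (d : ℕ) (u : ℤ), 1 ≤ d ∧ (u = 1 ∨ u = -1) ∧
          p = C (N : ℤ) + C u * Polynomial.X ^ d) → Bnm N p g := by
        rintro (h3 | ⟨d, u, hd, -, h3⟩)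
        · exact bnm_const hg h3
        · exact ⟨d, u, 0, hd, h3, by rw [hg]; simp⟩
      have hH0' := hH0.trans (by rw [hg] :
        toLaurent (pE p - C et * pE g) = toLaurent (pE p - C et * pE 1))
      have hHb' := hHb.trans (by rw [hg] : -toLaurent (pE g) = -toLaurent (pE 1))
      rcases BP90.t2s1 hQc hE2 hNd hDv hQm hNr hHp hTa hEvR hZ hNn hU hVZ hM1 hMV hVco hb.po hTi hD
        hm he hk1 hb' fd hM hsn hN hclH hp1 hX.p0 hgb1 hH0' hHb' with h3 | ⟨X', e2, hXr, hV0, hVX⟩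
      · exact fin1 (Or.inl h3)
      · obtain ⟨c', n', G', fd'⟩ := hFD ℤ P L phi E b i e hb.po (BP57.gl_cc hE2 hVZ hU hX hb)
        have hs' := BP57.snp_of_nb hSm fd' hNb
        obtain ⟨mu, hmk, hmT⟩ := h1
        have hrk := BP57.one_of_kw hKm hRk hD hb.po (mu := mu)
          (fun h0 => hmT (by rw [h0]; rfl)) hmk hone
        exact fin1 (BP90.t2s1_fin hG0 hC0 hMm hU hE2 hVZ hW hRF hR hRS hRk hEvR hV1z fd' hIb hs' hN
          hX.cv hX.rkL hp1 hX.p0 hgb1 hrk hXr hV0 hVX)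
    · exact fin hg


/-- (BPR_ST) for `Rdk`. -/
theorem strk (hLMN : LMNS) (hUS : RkUSS) (hGen : GenS) (hF1 : F1S) (hF2 : F2S) (hVco : VcoS) (hD3 : D3S)
    (hA6 : A6S) (hMmo : MmonoS) (hB5t : B5S) (hB2c : B2cS) (hFD : FDS) (hE2 : E2S) (hVZ : VZS)
    (hU : UnitRS) (hMV : MVS) (hE1 : E1S) (hM1 : M1S) (hMm : MmulS) (hG0 : G0S) (hC0 : Coeff0S)
    (hW : WWfS) (hRF : RayFacS) (hQst : QstS) (hQra : QraS) (hMin : MinS) (hB5 : B5aS)
    (hRk : RkS) (hKm : KmuS) (hQc : Qc3S) (hDv : Dv3S) (hNd : Nd3vS) (hG1 : G1pS)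
    (hFw : H71.FclwS) (hL : L2S) (hR : ResWDS) (hRS : ResStS) (hEv : EvS) (hEvm : EvmS)
    {P L : Type} [Fintype P] [DecidableEq P] [AddCommGroup L]
    [Module.Free ℤ L] [Module.Finite ℤ L] {phi : L →+ (P → ℤ)} {E : AO ℤ L} {N : ℕ} {p g : ℤ[X]}
    {i : L → P} {e : L → (RO ℤ)ˣ} {f : L → ℤ[X]} {b : L} (H : Rdk N p g phi E)
    (hGl : ∀ R, Ray E R → Gl phi E R (i R) (e R) (f R)) (hb : Ray E b) (hfb : f b = g)
    (hkb : Gkr phi E g b (i b) (e b))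
    (hadj : ∀ T, Ray E T → BPR.Adj E b T → Ou phi E b (i b) (e b) T →
      Nb phi E T (i T) (e T) ∧ ∃ nu, nu ≠ 0 ∧ Kw phi E T (i T) (e T) nu) :
      Bnm N p g ∨
      ∀ T, Ray E T → BPR.Adj E b T → Ou phi E b (i b) (e b) T →
        f T = g ∧ Ou phi E T (i T) (e T) b ∧
        ∀ nu, Kw phi E b (i b) (e b) nu → nu T = 0 → nu = 0 := by
  classical
  have hD := H.dd
  have hsys := BP12.sysW hVco hF2 hD i e (fun R hR => (hGl R hR).po)
  have hfin := BP12.finite_rays E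
  have hGb : Gl phi E b (i b) (e b) g := by rw [← hfb]; exact hGl b hb
  have hp : ((1 : (RO ℤ)ˣ) : RO ℤ) * E.coeff 0 = toLaurent p := by
    rw [Units.val_one, one_mul]; exact H.e0
  have hg : ((1 : (RO ℤ)ˣ) : RO ℤ) * ((e b : RO ℤ) * E.coeff b) = -toLaurent g := by
    rw [Units.val_one, one_mul]; exact hGb.eq
  have hI2 : ∀ T, Ray E T → BPR.Adj E b T → (∀ q, phi T q = 0 ∨ phi b q = 0) →
      ∀ a : L, (∀ i, phi b i = 0 → phi T i = 0 → phi a i = 0) →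
        ∃ k l : ℤ, a = k • b + l • T := by
    intro T hT hA hdis a ha
    obtain ⟨l, lb, lT, lp⟩ := hA
    exact BP57.inj2g hD3 hRk hD hb hT (fun q => (hdis q).symm) lb lT lp
      (fun mu hmu h0 => H.fct mu b (i b) (e b) hmu hkb h0) a ha
  let bi : {R : L // Ray E R} := ⟨b, hb⟩
  rcases hsys.struct' (b := bi) (adj := fun T => BPR.Adj E b T.1)
    (F3 := fun T1 x => BPR.Adj E T1.1 x.1 ∧ ∃ l : L →+ ℤ, l b = 0 ∧ l T1.1 = 0 ∧ l x.1 = 0 ∧
      ∀ a ∈ supp E, 0 ≤ l a ∧ (l a = 0 →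
        ∃ i j k : ℤ, (i = 0 ∨ i = 1) ∧ (j = 0 ∨ j = 1) ∧ (k = 0 ∨ k = 1) ∧
          a = i • b + j • T1.1 + k • x.1))
    (fun T hA ho => (hadj T.1 T.2 hA ho).2) (by
      intro T1 mu hA ho hmu h1 h2
      obtain ⟨mb, hmb, hmbT⟩ := ho
      have hdis := ((adjk hGen hF1 hF2 hVco hD3 hRk H hGb (mu := mb) hmb).2 T1.1 T1.2 hmbT).1
      obtain ⟨x, x1, x2, -, x4, x5, x6⟩ := BP12.face3w hGen hF1 hVco hD hGb (hGl T1.1 T1.2) hA
        hdis hmu h2 h1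
      exact ⟨⟨x, x1⟩, x4, ⟨x5, x6⟩, x2⟩) with hmut | hbad
  · -- all mutual
    by_cases hdim : ∀ T, Ray E T → BPR.Adj E b T → Ou phi E b (i b) (e b) T →
        ∀ nu, Kw phi E b (i b) (e b) nu → nu T = 0 → nu = 0
    · right
      intro T hT hA ho
      have h1 := hmut ⟨T, hT⟩ hA ho
      refine ⟨?_, h1, hdim T hT hA ho⟩
      obtain ⟨m, hm, hmT⟩ := ho
      obtain ⟨m', hm', hmb'⟩ := h1
      obtain ⟨d1, d2⟩ := hsys.dis bi ⟨T, hT⟩ m hm hmT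
      exact (BP71.f_eq hGb (hGl T hT) d1 d2 hm hmT hm' hmb').symm
    · -- two independent functionals
      left
      push Not at hdim
      obtain ⟨T, hT, hA, ho, nu, hnu, hnT, hnu0⟩ := hdim
      obtain ⟨R, hR', hRA, hnR⟩ :=
        (adjk hGen hF1 hF2 hVco hD3 hRk H hGb (mu := nu) hnu).1 hnu0
      have hoR : Tot.Ou (fun a => E.coeff a) (fun R : {R : L // Ray E R} => R.1)
        (fun R => co phi (i R.1)) (fun R => ((e R.1 : (RO ℤ)ˣ) : RO ℤ)) bi ⟨R, hR'⟩ :=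
        ⟨nu, hnu, hnR⟩
      have hTb := hmut ⟨T, hT⟩ hA ho
      have hRb := hmut ⟨R, hR'⟩ hRA hoR
      obtain ⟨et, he⟩ : ∃ et : Eis, Et et := ⟨_, BP90.et_g6⟩
      have heta : (LaurentPolynomial.C et : RO Eis) ^ 2 - LaurentPolynomial.C et + 1 = 0 := by
        have h3 : et * et = et - 1 := by linear_combination -(et_mul he)
        have h4 : (LaurentPolynomial.C et : RO Eis) * LaurentPolynomial.C et =
            LaurentPolynomial.C et - 1 := by rw [← map_mul, h3, map_sub, map_one]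
        linear_combination h4
      have hnT' : Kw phi E T (i T) (e T) nu := hsys.mut_mem (b := bi) (T := ⟨T, hT⟩) hTb hnu hnT
      obtain ⟨m, hm, hmT⟩ := id ho
      obtain ⟨m', hm', hmb'⟩ := id hTb
      obtain ⟨mR, hmR, hmRb⟩ := id hRb
      obtain ⟨d1, d2⟩ := hsys.dis bi ⟨T, hT⟩ m hm hmT
      obtain ⟨d3, d4⟩ := hsys.dis bi ⟨R, hR'⟩ nu hnu hnR
      obtain ⟨d5, d6⟩ := hsys.dis ⟨T, hT⟩ ⟨R, hR'⟩ nu hnT' hnR
      have fT : f T = g := (BP71.f_eq hGb (hGl T hT) d1 d2 hm hmT hm' hmb').symm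
      have fR : f R = g := (BP71.f_eq hGb (hGl R hR') d3 d4 hnu hnR hmR hmRb).symm
      obtain ⟨hdis, hI⟩ := (adjk hGen hF1 hF2 hVco hD3 hRk H hGb (mu := m) hm).2 T hT hmT
      have rT : E.coeff T + (e b : RO ℤ) * E.coeff (T + b) = 0 := hm.2 T d1 hmT
      have eT := (hGl T hT).eq
      have eR := (hGl R hR').eq
      rw [fT] at eT
      rw [fR] at eR
      obtain ⟨h1, -, h2⟩ := B3.b3 hFD hE2 hVZ hU hMV hE1 hM1 hMm hG0 hC0 hW hRF hQst hQra hMin hB5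
        hRk hKm hQc hDv hNd hG1 hFw hL hR hRS hEv hEvm hD H.n3 H.rkL H.cv hb.2.1 hT (hI hA)
        (hGl b hb).po (hGl T hT).po d1 d2 d3 d5 (hI2 T hT hA hdis) hA (w := 1) (eb := e b)
        (eT := e T) (ex := e R) (p := p) (g := g) (f := g) H.p0 H.g0 H.g0 hp hg
        (by rw [Units.val_one, one_mul]; exact eT) (by rw [Units.val_one, one_mul]; exact eR)
        (by
          rw [Units.val_one, one_mul, add_comm b T]
          linear_combination (e T : RO ℤ) * rT - eT) hnu hnT' hnR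
        (fun nu' hK => hsys.mut_full bcR bcR_inj heta (b := bi) (T := ⟨T, hT⟩)
          (T' := ⟨R, hR'⟩) ho hTb hRb hnu hnT hnR hK)
      exact bnm_const h1 h2
  · -- the bad pair
    left
    obtain ⟨T1, x, hA1, hAx, ⟨hA3, hl3⟩, ho1, hox, ho3, ho4, hle1, hlex, mu, hmu, hmux⟩ := hbad
    obtain ⟨m1, hm1, hm1T⟩ := id ho1
    obtain ⟨m2, hm2, hm2x⟩ := id hox
    obtain ⟨m4, hm4, hm4T⟩ := id ho4
    obtain ⟨d1, d2⟩ := hsys.dis bi T1 m1 hm1 hm1T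
    obtain ⟨d3, d4⟩ := hsys.dis bi x m2 hm2 hm2x
    obtain ⟨d5, d6⟩ := hsys.dis T1 x mu hmu hmux
    have hmub : mu b = 0 := (hle1 mu hmu).1
    obtain ⟨hdis1, hI1⟩ := (adjk hGen hF1 hF2 hVco hD3 hRk H hGb (mu := m1) hm1).2 T1.1 T1.2 hm1T
    obtain ⟨hdisx, hIx⟩ := (adjk hGen hF1 hF2 hVco hD3 hRk H hGb (mu := m2) hm2).2 x.1 x.2 hm2x
    have GT := hGl T1.1 T1.2
    have Gx := hGl x.1 x.2
    have ff : f T1.1 = f x.1 := BP71.f_eq GT Gx d5 d6 hmu hmux hm4 hm4T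
    have eT := GT.eq
    have ex := Gx.eq
    rw [← ff] at ex
    -- the cube
    have r1 : E.coeff T1.1 + (e b : RO ℤ) * E.coeff (T1.1 + b) = 0 := hm1.2 T1.1 d1 hm1T
    have r2 : E.coeff x.1 + (e b : RO ℤ) * E.coeff (x.1 + b) = 0 := hm2.2 x.1 d3 hm2x
    have r3 : E.coeff x.1 + (e T1.1 : RO ℤ) * E.coeff (x.1 + T1.1) = 0 := hmu.2 x.1 d5 hmux
    have r4 : E.coeff (x.1 + b) + (e T1.1 : RO ℤ) * E.coeff (x.1 + b + T1.1) = 0 := by
      refine hmu.2 (x.1 + b) (by rw [map_add, d5, d2, add_zero]) ?_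
      rw [map_add, hmub, add_zero]
      exact hmux
    rw [add_comm T1.1 b] at r1
    rw [add_comm x.1 b] at r2 r4
    rw [add_comm x.1 T1.1] at r3
    have er : b + x.1 + T1.1 = b + T1.1 + x.1 := by abel
    rw [er] at r4
    have hcT : ((1 : (RO ℤ)ˣ) : RO ℤ) * ((e T1.1 : RO ℤ) * E.coeff T1.1) =
        -toLaurent (f T1.1) := by rw [Units.val_one, one_mul]; exact eT
    have hcx : ((1 : (RO ℤ)ˣ) : RO ℤ) * ((e x.1 : RO ℤ) * E.coeff x.1) =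
        -toLaurent (f T1.1) := by rw [Units.val_one, one_mul]; exact ex
    have hcbT : ((1 : (RO ℤ)ˣ) : RO ℤ) * ((e b : RO ℤ) * (e T1.1 : RO ℤ) *
        E.coeff (b + T1.1)) = toLaurent (f T1.1) := by
      rw [Units.val_one, one_mul]
      linear_combination (e T1.1 : RO ℤ) * r1 - eT
    have hcbx : ((1 : (RO ℤ)ˣ) : RO ℤ) * ((e b : RO ℤ) * (e x.1 : RO ℤ) *
        E.coeff (b + x.1)) = toLaurent (f T1.1) := by
      rw [Units.val_one, one_mul]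
      linear_combination (e x.1 : RO ℤ) * r2 - ex
    have hcTx : ((1 : (RO ℤ)ˣ) : RO ℤ) * ((e T1.1 : RO ℤ) * (e x.1 : RO ℤ) *
        E.coeff (T1.1 + x.1)) = toLaurent (f T1.1) := by
      rw [Units.val_one, one_mul]
      linear_combination (e x.1 : RO ℤ) * r3 - ex
    have hcbTx : ((1 : (RO ℤ)ˣ) : RO ℤ) * ((e b : RO ℤ) * (e T1.1 : RO ℤ) * (e x.1 : RO ℤ) *
        E.coeff (b + T1.1 + x.1)) = -toLaurent (f T1.1) := by
      rw [Units.val_one, one_mul] at hcbx ⊢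
      linear_combination ((e b : RO ℤ) * (e x.1 : RO ℤ)) * r4 - hcbx
    have hpos := GT.pos
    obtain ⟨m, hm⟩ : ∃ m : ℕ, (f T1.1).coeff 0 = m := ⟨((f T1.1).coeff 0).toNat, by omega⟩
    have hm1' : 1 ≤ m := by omega
    have h3m : 3 * m ≤ N + 1 := BP12.b1 hE2 hVZ hU hMV hMmo hA6 hB5t hB2c hD (by
        have := H.rkL
        have := H.n3
        omega) H.cv T1.2 hb.2.1 x.2.2.1 GT.po Gx.po d5 d2 d6 d4 hA3 hl3
      (by have := H.n3; omega) hm1' H.p0 hm H.g0 hp hg hcT hcx hcTx hcbT hcbx hcbTx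
    rcases Nat.lt_or_ge 1 m with h2m | h2m
    · obtain ⟨h1, h2, -⟩ := BP83.b2 hFD hE2 hVZ hU hMV hE1 hM1 hMm hC0 hQst hQra hMin hB5 hRk hKm
        hQc hDv hNd hLMN hUS hG1 hFw hL hR hRS hEv hEvm hD H.rkL H.cv (b := b)
        (BP12.mut_of_ou hVco hD.inj hD.bin T1.2 x.2 GT.po Gx.po ho3 ho4) (hI1 hA1) GT.po d5 d2
        h2m h3m H.p0 hm H.g0 hp hg hcT hcx hcTx hcbT
      exact bnm_const h1 h2
    · have hf1 : (f T1.1).coeff 0 = 1 := by omega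
      obtain ⟨h1, -, h2⟩ := B3.b3 hFD hE2 hVZ hU hMV hE1 hM1 hMm hG0 hC0 hW hRF hQst hQra hMin hB5
        hRk hKm hQc hDv hNd hG1 hFw hL hR hRS hEv hEvm hD H.n3 H.rkL H.cv hb.2.1 T1.2 (hI1 hA1)
        (hGl b hb).po GT.po d1 d2 d3 d5 (hI2 T1.1 T1.2 hA1 hdis1) hA1 (w := 1) (eb := e b)
        (eT := e T1.1) (ex := e x.1) (p := p) (g := g) (f := f T1.1) H.p0 H.g0 hf1 hp hg hcT hcx
        hcbT (hle1 mu hmu) hmu hmux
        (fun nu' hK => hsys.bad_full (b := bi) (T1 := T1) (x := x) ho1 ho3 ho4 hle1 hK)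
      exact bnm_const h1 h2



end Pool.Agent.B5.BP80
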