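import Pool.Agent.Lib.MP_b5021c_nt.BP.H80.Exd
import Pool.Agent.Lib.MP_b5021c_nt.BP.H57.Pz

/-!
# Board b5, exports of (BPX) (helper80): (D), row PZ for `Rdk`
-/

namespace Pool.Agent.B5.BP80

open scoped LaurentPolynomial
open Polynomial Pool.Agent.B5 Pool.Agent.B5.BPR
open Pool.Agent.MP_b5021c_nt (Eis)
open Pool.Agent.MP_b5021c_nt.Ire (bc)
open Pool.Agent.B5.H25.Bch
open Pool.Agent.B5.BP90 (Et pE pE_inj embN et_im_ne et_zero)
open Pool.Agent.B5.BP57
open Pool.Agent.B5.H40 (uT uT_val)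
open Pool.Agent.B5.Tl

set_option linter.unusedSectionVars false

/-- (NOL) a full z-free closing of a ray `T` with `p = N + F`, `f = 1 + F`, `F ≠ 0`: no exponent
`y` of level zero with `E_y` a monomial, whose class vanishes. -/
def NolS : Prop := ∀ (P L : Type) [Fintype P] [DecidableEq P] [AddCommGroup L]
  [Module.Free ℤ L] [Module.Finite ℤ L] (phi : L →+ (P → ℤ)) (E : AO ℤ L) (N : ℕ) (p f F : ℤ[X])
  (T : L) (iT : P) (eT : (RO ℤ)ˣ) (sT : ℤˣ) (mT : ℤ) (nuT : ℤ × L →+ ℤ) (hT : co phi iT T = 1)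
  (c : RO ℤ) (n : ℕ) (G : Fin n → AO ℤ (Ker (co phi iT))), Xt N p phi E → Gl phi E T iT eT f →
    eT = uT sT mT → p = C (N : ℤ) + F → f = 1 + F → F.coeff 0 = 0 → (∀ k, |F.coeff k| ≤ 1) →
    F ≠ 0 → Nb phi E T iT eT → (∀ nu : L →+ ℤ, Kw phi E T iT eT nu → nu = 0) →
    Zfg phi E T iT hT eT c n G → IsUnit c →
    Tot.KT (pr (co phi iT)) (-mT, T) (sT : ℤ) (tc E) nuT → nuT (1, 0) ≠ 0 →
    ∀ (y : L) (s s0 : ℤ), co phi iT y = 0 →
      E.coeff y = LaurentPolynomial.C s0 * LaurentPolynomial.T s → s0 ≠ 0 → nuT (s, y) = 0 →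
      (eT : RO ℤ) * E.coeff (y + T) = -E.coeff y → False

section

variable {P L : Type} [Fintype P] [DecidableEq P] [AddCommGroup L] [Module.Free ℤ L]
  [Module.Finite ℤ L] {phi : L →+ (P → ℤ)} {E : AO ℤ L} {N : ℕ} {p g f F : ℤ[X]} {b T R : L}
  {i iT iR : P} {e eT : (RO ℤ)ˣ} {mu nu : L →+ ℤ} {sb sT : ℤˣ} {mb mT : ℤ} {kk : ℕ} {r : ℤ}
  {nuT : ℤ × L →+ ℤ}

/-- THE CLOSING AT THE THIRD RAY IS FULL. -/
theorem third_fullk (h0 : P0 N phi E p g f b T iT sb sT mb mT F kk r nuT) (he : e = uT sb mb)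
    (heT : eT = uT sT mT) (hD : DD phi E) (hb : Gl phi E b i e g) (hT : Gl phi E T iT eT f)
    (hf0 : f.coeff 0 = 1) (hf1 : f ≠ 1) (hg0 : g.coeff 0 = 1) (hg1 : g ≠ 1) (hnb : nuT (-mb, b) ≠ 0)
    (hn : Kn phi E b T i iT e eT nu) (hkw : Kw phi E b i e mu) (hmT : mu T ≠ 0)
    (hTi : co phi i T = 0) (hbT : co phi iT b = 0) (hRs : R ∈ supp E)
    (hRo : ∀ q, phi R q = 0 ∨ (phi b q = 0 ∧ phi T q = 0)) (hnR : nu R ≠ 0)
    (hfullT : ∀ nu : L →+ ℤ, Kw phi E T iT eT nu → nu = 0) {sR : ℤˣ} {m s : ℤ}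
    (hR : Gl phi E R iR (uT sR (-s)) (C m)) (hs : mu R = 0 → nuT (s, R) = -nuT (-mb, b))
    {muR : L →+ ℤ} (hkR : Kw phi E R iR (uT sR (-s)) muR) : muR = 0 := by
  have hRR : phi R iR = 1 := hR.po
  have hRb : co phi iR b = 0 ∧ co phi iR T = 0 := by
    rcases hRo iR with h1 | h1
    · rw [hRR] at h1; exact absurd h1 one_ne_zero
    · exact h1
  have hRi : co phi i R = 0 := by
    rcases hRo i with h1 | h1
    · exact h1
    · have h2 : phi b i = 1 := hb.po
      rw [h2] at h1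
      exact absurd h1.1 one_ne_zero
  have hRT : co phi iT R = 0 := by
    rcases hRo iT with h1 | h1
    · exact h1
    · have h2 : phi T iT = 1 := hT.po
      rw [h2] at h1
      exact absurd h1.2 one_ne_zero
  obtain ⟨h1, h2⟩ := kn_pat hn hkw hmT hTi hRi hRT hnR
  obtain ⟨eR, heR⟩ : ∃ eR : (RO ℤ)ˣ, eR = uT sR (-s) := ⟨_, rfl⟩
  have hR' := hR.eq
  rw [← heR] at hR'
  have hkR' := hkR
  rw [← heR] at hkR'
  -- `muR T = 0`
  have hRTz : muR T = 0 := by
    by_contra hne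
    have h3 := hkR'.2 T hRb.2 hne
    have h4 : (eR : RO ℤ) * ((eT : RO ℤ) * E.coeff (R + T)) = toLaurent f := by
      have h5 : T + R = R + T := add_comm _ _
      rw [h5] at h3
      linear_combination (eT : RO ℤ) * h3 - hT.eq
    rcases h2 with ⟨-, -, h5⟩ | ⟨-, -, h5⟩
    · rw [h5] at h4
      have h6 : toLaurent f = toLaurent (C m) := by
        rw [← h4]
        linear_combination -hR'
      exact const_ne hf0 hf1 (toLaurent_injective h6)
    · rw [h5, mul_zero] at h4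
      have h6 := toLaurent_injective ((map_zero _).trans h4)
      rw [← h6, coeff_zero] at hf0
      exact zero_ne_one hf0
  have hRbz : muR b = 0 := by
    by_contra hne
    have h3 := hkR'.2 b hRb.1 hne
    have h4 : (eR : RO ℤ) * ((e : RO ℤ) * E.coeff (R + b)) = toLaurent g := by
      have h5 : b + R = R + b := add_comm _ _
      rw [h5] at h3
      linear_combination (e : RO ℤ) * h3 - hb.eq
    rcases h2 with ⟨-, h5, -⟩ | ⟨-, h5, -⟩
    · rw [h5, mul_zero] at h4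
      have h6 := toLaurent_injective ((map_zero _).trans h4)
      rw [← h6, coeff_zero] at hg0
      exact zero_ne_one hg0
    · rw [h5] at h4
      have h6 : toLaurent g = toLaurent (C m) := by
        rw [← h4]
        linear_combination -hR'
      exact const_ne hg0 hg1 (toLaurent_injective h6)
  have biT : Tot.Bi (pr (co phi iT)) (tc E) := bi_of (co phi iT) E fun a ha => hD.bin a ha iT
  have bii : Tot.Bi (pr (co phi i)) (tc E) := bi_of (co phi i) E fun a ha => hD.bin a ha i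
  have biR : Tot.Bi (pr (co phi iR)) (tc E) := bi_of (co phi iR) E fun a ha => hD.bin a ha iR
  have hktR : Tot.KT (pr (co phi iR)) (-(-s), R) (sR : ℤ) (tc E) (pr muR) :=
    (BP80.kw_kt (co phi iR) R sR (-s) E muR).mp hkR
  have fin : Tot.KT (pr (co phi iT)) (-mT, T) (sT : ℤ) (tc E) (pr muR) → muR = 0 := by
    intro h3
    apply hfullT
    rw [heT]
    exact (BP80.kw_kt (co phi iT) T sT mT E muR).mpr h3
  by_cases hmR : mu R = 0
  · apply fin
    refine Tot.inc (p := pr (co phi iT)) (q := pr (co phi iR)) (b := (-mT, T)) (T := (-(-s), R))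
      biR hRT hRb.2 hR.po sR.ne_zero h0.kt ?_ hktR hRTz
    rw [neg_neg, hs hmR]
    exact neg_ne_zero.mpr hnb
  · -- `muR` kills the closing at `b`
    have h3 : Kw phi E b i e muR :=
      Tot.inc (p := co phi i) (q := co phi iR) (b := b) (T := R) (fun x hx => hD.bin x hx iR) hRi
        hRb.1 hR.po eR.ne_zero hkw hmR hkR' hRbz
    have h4 : Tot.KT (pr (co phi i)) (-mb, b) (sb : ℤ) (tc E) (pr muR) := by
      rw [he] at h3
      exact (BP80.kw_kt (co phi i) b sb mb E muR).mp h3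
    apply fin
    exact Tot.inc (p := pr (co phi iT)) (q := pr (co phi i)) (b := (-mT, T)) (T := (-mb, b))
      bii hbT hTi hb.po sb.ne_zero h0.kt hnb h4 hRTz


/-- an exponent of level zero, killed by the closing at `T`. -/
theorem lvl_y (hUA : UnitAS) (h0 : P0 N phi E p g f b T iT sb sT mb mT F kk r nuT)
    (he : e = uT sb mb) (heT : eT = uT sT mT) (hD : DD phi E) (hb : Gl phi E b i e g)
    (hT : Gl phi E T iT eT f) (hn : Kn phi E b T i iT e eT nu) (hkw : Kw phi E b i e mu)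
    (hmT : mu T ≠ 0) (hTi : co phi i T = 0) (hbT : co phi iT b = 0) (hRs : R ∈ supp E)
    (hRo : ∀ q, phi R q = 0 ∨ (phi b q = 0 ∧ phi T q = 0)) (hnR : nu R ≠ 0)
    (hnb : nuT (-mb, b) = 0) :
    ∃ (y : L) (s s0 : ℤ), co phi iT y = 0 ∧
      E.coeff y = LaurentPolynomial.C s0 * LaurentPolynomial.T s ∧ s0 ≠ 0 ∧ nuT (s, y) = 0 ∧
      (eT : RO ℤ) * E.coeff (y + T) = -E.coeff y := by
  have hRi : co phi i R = 0 := by
    rcases hRo i with h1 | h1
    · exact h1
    · have h2 : phi b i = 1 := hb.po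
      rw [h2] at h1
      exact absurd h1.1 one_ne_zero
  have hRT : co phi iT R = 0 := by
    rcases hRo iT with h1 | h1
    · exact h1
    · have h2 : phi T iT = 1 := hT.po
      rw [h2] at h1
      exact absurd h1.2 one_ne_zero
  have hnz := h0.nz
  -- an exponent `y` with `E_y = e (V_T)_(y + b) ≠ 0`
  have key : ∀ y : L, co phi iT y = 0 → E.coeff y ≠ 0 →
      (e : RO ℤ) * (E.coeff (y + b) + (eT : RO ℤ) * E.coeff (y + b + T)) = E.coeff y →
      ∃ (s s0 : ℤ), E.coeff y = LaurentPolynomial.C s0 * LaurentPolynomial.T s ∧ s0 ≠ 0 ∧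
        nuT (s, y) = 0 := by
    intro y hy hys h4
    have h5 : ∀ k : ℤ, (E.coeff y).coeff k ≠ 0 → nuT (k, y) = 0 := by
      intro k hk
      rw [← h4, he, uT_coeff] at hk
      have h6 := vt_ex h0 heT (y := y + b) (by rw [map_add, hy, hbT, add_zero])
        (right_ne_zero_of_mul hk)
      have h7 : ((k - mb, y + b) : ℤ × L) = (k, y) + (-mb, b) := by
        refine Prod.ext ?_ rfl
        change k - mb = k + -mb
        ring
      rw [h7, map_add, hnb, add_zero] at h6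
      exact h6
    obtain ⟨s, s0, h6, h7, h8⟩ := mono_of_one (F := E.coeff y) hys (by
      intro k j hk hj
      have h6 := h5 k hk
      have h7 := h5 j hj
      rw [nu_split] at h6 h7
      have h8 : k * nuT (1, 0) = j * nuT (1, 0) := by linear_combination h6 - h7
      exact mul_right_cancel₀ hnz h8)
    exact ⟨s, s0, h6, h7, h5 s h8⟩
  obtain ⟨h1, h2⟩ := kn_pat hn hkw hmT hTi hRi hRT hnR
  rcases h2 with ⟨-, h3, h3'⟩ | ⟨-, h3, h3'⟩
  · -- pattern 1
    obtain ⟨s, s0, h6, h7, h8⟩ := key R hRT hRs (by rw [mul_add, h3, zero_add, h1])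
    exact ⟨R, s, s0, hRT, h6, h7, h8, h3'⟩
  · -- pattern 2, reversed
    obtain ⟨t, u, hrev⟩ := H07.reversal hUA E hD.un
    have hbt : ∀ a ∈ supp E, t - a ∈ supp E := by
      intro a ha h4
      rw [hrev] at h4
      have h5 := (mul_eq_zero.mp h4).resolve_left u.ne_zero
      exact ha (H59.rsh_eq_zero.mp h5)
    obtain ⟨y, hy⟩ : ∃ y : L, y = t - (R + b + T) := ⟨_, rfl⟩
    have hti : ∀ (a : L) (j : P), a ∈ supp E → phi a j = 1 → phi t j = 1 := by
      intro a j ha haj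
      have h4 := hD.bin _ (hbt a ha) j
      have h5 := hD.bin _ (hbt 0 hD.st.1) j
      rw [map_sub, Pi.sub_apply, haj] at h4
      rw [sub_zero] at h5
      omega
    have hyT : co phi iT y = 0 := by
      have h4 := hti T iT hT.ray.1 hT.po
      have h5 : phi R iT = 0 := hRT
      have h6 : phi b iT = 0 := hbT
      have h7 : phi T iT = 1 := hT.po
      change phi y iT = 0
      rw [hy]
      simp only [map_sub, map_add, Pi.sub_apply, Pi.add_apply, h4, h5, h6, h7]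
      norm_num
    have e1 : y + b = t - (R + T) := by rw [hy]; abel
    have e2 : y + b + T = t - R := by rw [hy]; abel
    have e3 : y + T = t - (R + b) := by rw [hy]; abel
    have z1 : E.coeff (y + b) = 0 := by
      have h4 := (mul_eq_zero.mp h3').resolve_left eT.ne_zero
      rw [e1, hrev, h4, map_zero, mul_zero]
    have z2 : E.coeff (y + b + T) = (u : RO ℤ) * rsh (E.coeff R) := by rw [e2, hrev]
    have he1 : rsh (e : RO ℤ) * (e : RO ℤ) = 1 := H24.rsh_unit e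
    have he2 : rsh (eT : RO ℤ) * (eT : RO ℤ) = 1 := H24.rsh_unit eT
    have z3 : E.coeff y = (u : RO ℤ) * ((e : RO ℤ) * ((eT : RO ℤ) * rsh (E.coeff R))) := by
      have h4 := congrArg rsh h1
      rw [map_mul, map_mul] at h4
      rw [hy, hrev, ← h4]
      linear_combination (-(u : RO ℤ) * rsh (E.coeff (R + b + T))) * he1 -
        ((u : RO ℤ) * rsh (E.coeff (R + b + T)) * (rsh (e : RO ℤ) * (e : RO ℤ))) * he2
    have z4 : E.coeff (y + T) = -((u : RO ℤ) * ((e : RO ℤ) * rsh (E.coeff R))) := by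
      have h4 := congrArg rsh h3
      rw [map_mul, map_neg] at h4
      rw [e3, hrev]
      linear_combination ((u : RO ℤ) * (e : RO ℤ)) * h4 -
        ((u : RO ℤ) * rsh (E.coeff (R + b))) * he1
    have hys : E.coeff y ≠ 0 := by
      rw [z3]
      exact mul_ne_zero u.ne_zero (mul_ne_zero e.ne_zero (mul_ne_zero eT.ne_zero
        fun h4 => hRs (H59.rsh_eq_zero.mp h4)))
    obtain ⟨s, s0, h6, h7, h8⟩ := key y hyT hys (by
      rw [z1, z2, z3]
      ring)
    exact ⟨y, s, s0, hyT, h6, h7, h8, by rw [z3, z4]; ring⟩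

end

/-- (BPR_PZ) for `Rdk`. -/
theorem pzk (hNol : NolS) (hCres : UF.H74.CresqS) (hDec : DecS) (hK1 : K1S) (hCnt : CntS) (hCtb : CtbS) (hMc : BP12.McOneS) (hUf : UfgS)
    (hGen : GenS) (hF2 : F2S) (hVco : VcoS) (hFD : FDS) (hE2 : E2S) (hVZ : VZS) (hU : UnitRS)
    (hMV : MVS) (hE1 : E1S) (hM1 : M1S) (hMm : MmulS) (hG0 : G0S) (hC0 : Coeff0S) (hW : WWfS)
    (hRF : RayFacS) (hQst : QstS) (hQra : QraS) (hMin : MinS) (hB5 : B5aS) (hRk : RkS)
    (hKm : KmuS) (hQc : Qc3S) (hDv : Dv3S) (hNd : Nd3vS) (hD3 : D3S) (hG1 : G1pS)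
    (hR : ResWDS) (hRS : ResStS) (hEv : EvS) (hEvR : EvRS) (hEvm : EvmS) (hFcl : FclS)
    (hCno : Cno.CnoS) (hQm : Qm3S) (hNr : Nr3S) (hHp : HpgS) (hTa : Ta3S) (hUm : Um3vS)
    (hSt : St3S) (hSw : Sw3S) (hZf : ZfinS) (hNn : Nn3S) (hSm : SmallS) (hV1 : V1S)
    (hUA : UnitAS) (hC1 : C1bS) {P L : Type} [Fintype P] [DecidableEq P] [AddCommGroup L]
    [Module.Free ℤ L] [Module.Finite ℤ L] {phi : L →+ (P → ℤ)} {E : AO ℤ L} {N : ℕ} {p g f : ℤ[X]}
    {b : L} {i : P} {e : (RO ℤ)ˣ} {T : L} {iT : P} {eT : (RO ℤ)ˣ} {mu : L →+ ℤ} {c : RO ℤ} {n : ℕ}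
    {G : Fin n → AO ℤ (Ker (co phi iT))} (hRd : Rdk N p g phi E) (hb : Gl phi E b i e g)
    (hT : Gl phi E T iT eT f) (hadj : BPR.Adj E b T) (hkw : Kw phi E b i e mu) (hmT : mu T ≠ 0)
    (hNb : Nb phi E b i e) (hNT : Nb phi E T iT eT) (hf0 : f.coeff 0 = 1)
    (hfullT : ∀ nu : L →+ ℤ, Kw phi E T iT eT nu → nu = 0)
    (hZ : Zfg phi E T iT hT.po eT c n G) (hc : IsUnit c) : Bnm N p g := by
  classical
  have hkb : Gkr phi E g b i e := ⟨hb, mu, by rintro rfl; exact hmT rfl, hkw⟩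
  have hX := hRd.toXt
  have hN := hX.n3
  have hD := hX.dd
  have hg0 := hRd.g0
  have hdis : ∀ q, phi T q = 0 ∨ phi b q = 0 :=
    BP12.dis_of_ou hVco hF2 hD.inj hD.bin hb.ray hT.ray hb.po ⟨mu, hkw, hmT⟩
  obtain ⟨hTi, hbT⟩ := port_dis hdis hb.po hT.po
  obtain ⟨sb, mb, hesb⟩ := unit_uT hU e
  obtain ⟨sT, mT, hesT⟩ := unit_uT hU eT
  obtain ⟨F, kk, r, nuT, h0⟩ := pz_zero hUf hU hX (hRd.bnk (2 * N - 2) (by omega)) hb hT hf0 hg0
    hdis hkw hmT hfullT hZ hc hesb hesT hRk hKm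
  by_cases hg1 : g = 1
  · refine ⟨kk, r, 0, h0.k1, ?_, by rw [hg1]; simp⟩
    have h1 := h0.fg
    rw [hg1, h0.hf] at h1
    rw [h0.hp]
    linear_combination h1
  by_cases hf1 : f = 1
  · refine ⟨kk, 0, -r, h0.k1, ?_, ?_⟩
    · have h1 := h0.hf
      rw [hf1] at h1
      rw [h0.hp, C_0, zero_mul]
      linear_combination -h1
    · have h1 := h0.fg
      rw [hf1] at h1
      rw [C_neg]
      linear_combination -h1
  have hIb : ImS phi b := hRd.ims b i e hkb
  have hfct : ∀ lam : L →+ ℤ, FacF (supp E) lam → lam b = 0 →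
      ∃ (i : P) (m : ℤ), 0 < m ∧ ∀ a, lam a = m * phi a i :=
    fun lam h1 h2 => hRd.fct lam b i e h1 hkb h2
  obtain ⟨et, he⟩ : ∃ et : Eis, Et et := ⟨_, BP90.et_g6⟩
  obtain ⟨eu, heu⟩ : IsUnit et := IsUnit.of_mul_eq_one _ (et_mul he)
  obtain ⟨k0, hk0⟩ : ∃ k0 : (RO Eis)ˣ, (k0 : RO Eis) = LaurentPolynomial.C et * bcR (e : RO ℤ) :=
    ⟨Units.map (LaurentPolynomial.C : Eis →+* RO Eis) eu * bcU e, by
      rw [Units.val_mul, H09.bcU_val]
      change LaurentPolynomial.C ((eu : Eisˣ) : Eis) * _ = _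
      rw [heu]⟩
  obtain ⟨k1, hk1⟩ : ∃ k1 : (RO Eis)ˣ, (k1 : RO Eis) = LaurentPolynomial.C et * bcR (eT : RO ℤ) :=
    ⟨Units.map (LaurentPolynomial.C : Eis →+* RO Eis) eu * bcU eT, by
      rw [Units.val_mul, H09.bcU_val]
      change LaurentPolynomial.C ((eu : Eisˣ) : Eis) * _ = _
      rw [heu]⟩
  obtain ⟨c2, v2, bt2, H, T', pd⟩ := pd_ex hFD hE2 hVZ hU hMV hE1 hMm hG0 hC0 hW hRF hQst hQra
    hMin hB5 hRk hKm hQc hDv hNd hD3 he hk0 hk1 hX hb hg0 hT hf0 hIb hdis hadj hfct hkw hmT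
  have hrkle := (hRk (Ker (co (phO phi b i) iT)) (Ker (co (phO phi b i) iT))).2.2.1
    (supp (cl (co (phO phi b i) iT) T' pd.po k1 H))
  have hfF : ∀ k, |f.coeff k| ≤ 1 := by
    intro k
    rw [h0.hf, coeff_add, coeff_one]
    by_cases hk : k = 0
    · rw [if_pos hk, hk, h0.f0]
      norm_num
    · rw [if_neg hk, zero_add]
      exact h0.f1 k
  have hpf : p - f = C ((N : ℤ) - 1) := by
    rw [h0.hp, h0.hf, C_sub, C_1]
    ring
  by_cases hfull : rk (supp (cl (co (phO phi b i) iT) T' pd.po k1 H)) =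
      Module.finrank ℤ (Ker (co (phO phi b i) iT))
  · -- the double closing is full
    obtain ⟨h1, h2⟩ := pz_full hFD hMc hG1 hR hRS hEv hEvm hFcl hE1 hMV hMm hU hE2 hVZ hRk hCno hQc
      hNd hDv hQm hNr hHp hTa hUm hSt hSw hEvR hZf hNn hM1 hV1 he pd hN hX.rkL hfull hpf hf0 hfF
      hf1 (kk := kk) (by have := h0.k1; omega) (by
        intro k hk
        have h1 := congrArg (fun q : ℤ[X] => q.coeff k) h0.fg
        simp only [coeff_sub, coeff_C_mul, coeff_X_pow, if_neg hk, mul_zero] at h1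
        omega)
    exact ⟨kk, _, _, h0.k1, h1, h2⟩
  · obtain ⟨nu, hn⟩ := kn_ex hKm he hk0 hk1 pd hD hbT (lt_of_le_of_ne hrkle hfull)
    obtain ⟨R, hRay, hnR, hRo, hadR, hadTR⟩ := third hGen hD hb hT hdis hadj hn hkw hmT
    have hRs : R ∈ supp E := hRay.1
    by_cases hnb : nuT (-mb, b) = 0
    · exfalso
      obtain ⟨y, s, s0, y1, y2, y3, y4, y5⟩ := lvl_y hUA h0 hesb hesT hD hb hT hn hkw hmT hTi hbT
        hRs hRo hnR hnb
      exact hNol P L phi E N p f F T iT eT sT mT nuT hT.po c n G hX hT hesT h0.hp h0.hf h0.f0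
        h0.f1 (fun h => hf1 (by rw [h0.hf, h, add_zero])) hNT hfullT hZ hc h0.kt h0.nz y s s0 y1
        y2 y3 y4 y5
    have hRi : co phi i R = 0 := by
      rcases hRo i with h1 | h1
      · exact h1
      · have h2 : phi b i = 1 := hb.po
        rw [h2] at h1
        exact absurd h1.1 one_ne_zero
    have hRT : co phi iT R = 0 := by
      rcases hRo iT with h1 | h1
      · exact h1
      · have h2 : phi T iT = 1 := hT.po
        rw [h2] at h1
        exact absurd h1.2 one_ne_zero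
    obtain ⟨iR, hiR⟩ := BP12.ex_port hD.inj (hD.bin R hRs) hRay.2.1
    have hRdT : co phi iR T = 0 := by
      rcases hRo iR with h1 | h1
      · rw [hiR] at h1; exact absurd h1 one_ne_zero
      · exact h1.2
    have hRdis : ∀ q, phi R q = 0 ∨ phi b q = 0 := fun q => (hRo q).imp id fun h => h.1
    obtain ⟨s, s0, hEs, hs0, hsn⟩ := third_mono h0 hesb hesT hn hkw hmT hTi hbT hRs hRi hRT hnR
    obtain ⟨sR, m, hm, hGR⟩ := third_gl hRay hEs hs0 hiR
    have hfullR : ∀ muR : L →+ ℤ, Kw phi E R iR (uT sR (-s)) muR → muR = 0 := fun muR hk =>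
      third_fullk h0 hesb hesT hD hb hT hf0 hf1 hg0 hg1 hnb hn hkw hmT hTi hbT hRs hRo hnR hfullT
        hGR hsn hk
    have hIR : ImS phi R := ims_adjk hD3 hRk hRd hkb hRay hadR hRdis
    have hNR : Bnm N p g ∨ Nb phi E R iR (uT sR (-s)) := by
      by_cases hmR : mu R = 0
      · right
        have hpat : (eT : RO ℤ) * E.coeff (R + T) = -E.coeff R := by
          rcases (kn_pat hn hkw hmT hTi hRi hRT hnR).2 with ⟨-, -, h1⟩ | ⟨h1, -⟩
          · exact h1
          · exact absurd hmR h1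
        exact third_nb hFD hG0 hUA hMin hC1 hMm hSm hU hE2 hVZ h0 hesT hX hT hf1 hRT hRdT hNT hpat
          hGR hIR (by
            rw [hsn hmR]
            exact neg_ne_zero.mpr hnb)
      · exact levk hU hE2 hVZ hNd hCres hDec hK1 hRd hb hGR hRdis hkw hmR hNb
    rcases hNR with h1 | hNR
    · exact h1
    obtain ⟨hm1, c', n', G', hZ'⟩ := hCnt P L phi E N p (C m) R iR _ hiR hX hGR hIR hNR hfullR
    rw [coeff_C_zero] at hm1
    by_cases hcu : IsUnit c'
    · exfalso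
      have hZV : ZFree (cl (co phi iR) R hiR (uT sR (-s)) E) := by
        rw [hZ'.eq]
        exact zfree_unit hU hcu hZ'.zf
      obtain ⟨q, l, n'', hq, hl⟩ := hZV
      have hq0 : (q : ℤ) ≠ 0 := by exact_mod_cast hq.ne'
      have hV0 : (cl (co phi iR) R hiR (uT sR (-s)) E).coeff 0 = toLaurent (p - C m) := by
        rw [H47.cl_coeff_bin (co phi iR) R hiR _ E (fun x hx => hD.bin x hx iR),
          Submodule.coe_zero, zero_add]
        exact gl_apex hX hGR
      have hex : ∀ k : ℕ, (p - C m).coeff k ≠ 0 → (q : ℤ) * k = q * n'' := by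
        intro k hk
        have h1 := hl 0 (k : ℤ) (by rw [hV0, Cno.tl_coeff_nonneg]; exact hk)
        rw [map_zero, zero_add] at h1
        exact h1
      apply hf1
      rw [h0.hf]
      have hFz : F = 0 := by
        ext k
        rw [coeff_zero]
        by_cases hk : k = 0
        · rw [hk, h0.f0]
        · by_contra h1
          have h2 := hex k (by
            rw [h0.hp, coeff_sub, coeff_add, coeff_C, coeff_C, if_neg hk, if_neg hk]
            simpa using h1)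
          have h3 := hex 0 (by
            rw [h0.hp, coeff_sub, coeff_add, coeff_C_zero, coeff_C_zero, h0.f0]
            omega)
          rw [← h3] at h2
          have h4 := mul_left_cancel₀ hq0 h2
          exact hk (by exact_mod_cast h4)
      rw [hFz, add_zero]
    · exact bnm_of_allB hU hX hb hg0 (hCtb P L phi E N p (C m) R iR _ hiR c' n' G' hX hGR
        (by rw [coeff_C_zero]; exact hm1) hZ' hcu)



end Pool.Agent.B5.BP80
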