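import Pool.Agent.Lib.MP_b5021c_nt.BP.H80.Exe
import Pool.Agent.Lib.MP_b5021c_nt.BP.H80.Exg
import Pool.Agent.Lib.MP_b5021c_nt.BP.H12.Pb

/-!
# Board b5, exports of (BPX) (helper80): (D), the step at a reduced element
-/

namespace Pool.Agent.B5.BP80

open scoped LaurentPolynomial
open Polynomial
open Pool.Agent.B5
open Pool.Agent.B5.BPR
open Pool.Agent.B5.BP57
open Pool.Agent.B5.BP12 (Bpd)

set_option linter.unusedSectionVars false

/-- (D) a functional which kills the closing at the unit load of a unit ray. -/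
def BpdkS : Prop := ∀ (P L : Type) [Fintype P] [DecidableEq P] [AddCommGroup L]
  [Module.Free ℤ L] [Module.Finite ℤ L] (phi : L →+ (P → ℤ)) (G : AO ℤ L) (N : ℕ) (S : L)
  (w e : (RO ℤ)ˣ) (p g : ℤ[X]) (nu : L →+ ℤ), 2 ≤ N → DD phi G → ClassV N (G.coeff 0) →
    Module.finrank ℤ L + 1 = 2 * N → (∀ K < 2 * N, Bnk K) → Ray G S →
    (w : RO ℤ) * G.coeff 0 = toLaurent p → p.coeff 0 = N →
    (w : RO ℤ) * ((e : RO ℤ) * G.coeff S) = -toLaurent g → g.coeff 0 = 1 →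
    nu ≠ 0 → (∀ a ∈ US e S G, nu a = 0) → Cd N p g

/-- The rows for `Rdk`, at a reduced element. -/
structure Rowk (P L : Type) [Fintype P] [DecidableEq P] [AddCommGroup L] [Module.Free ℤ L]
    [Module.Finite ℤ L] (phi : L →+ (P → ℤ)) (E : AO ℤ L) (N : ℕ) (p g : ℤ[X]) : Prop where
  pb : ∀ (f : ℤ[X]) (b : L) (i : P) (e : (RO ℤ)ˣ) (T : L) (iT : P) (eT : (RO ℤ)ˣ) (mu : L →+ ℤ),
    Gl phi E b i e g → Gl phi E T iT eT f → BPR.Adj E b T → Kw phi E b i e mu → mu T ≠ 0 →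
    Nb phi E b i e → Bnm N p g ∨ (Nb phi E T iT eT ∧ ∃ nu, nu ≠ 0 ∧ Kw phi E T iT eT nu)
  t2 : ∀ (b : L) (i : P) (e : (RO ℤ)ˣ) (T : L) (iT : P) (eT : (RO ℤ)ˣ),
    Gl phi E b i e g → Gl phi E T iT eT g → Nb phi E b i e →
    Ou phi E b i e T → Ou phi E T iT eT b →
    (∀ nu : L →+ ℤ, Kw phi E b i e nu → nu T = 0 → nu = 0) → T2f phi E b T e eT → Bnm N p g
  str : ∀ (i : L → P) (e : L → (RO ℤ)ˣ) (f : L → ℤ[X]) (b : L),
    (∀ R, Ray E R → Gl phi E R (i R) (e R) (f R)) → Ray E b → f b = g →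
    Gkr phi E g b (i b) (e b) →
    (∀ T, Ray E T → BPR.Adj E b T → Ou phi E b (i b) (e b) T →
      Nb phi E T (i T) (e T) ∧ ∃ nu, nu ≠ 0 ∧ Kw phi E T (i T) (e T) nu) →
      Bnm N p g ∨
      ∀ T, Ray E T → BPR.Adj E b T → Ou phi E b (i b) (e b) T →
        f T = g ∧ Ou phi E T (i T) (e T) b ∧
        ∀ nu, Kw phi E b (i b) (e b) nu → nu T = 0 → nu = 0
  ins : ∀ (T : L) (i : P) (e : (RO ℤ)ˣ) (h : co phi i T = 1) (x : Ker (co phi i)) (w : (RO ℤ)ˣ)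
    (mu : L →+ ℤ) (b : L), Gl phi E T i e g → Nb phi E T i e →
    Ray (cl (co phi i) T h e E) x →
    (w : RO ℤ) * (cl (co phi i) T h e E).coeff x = toLaurent g →
    mu ≠ 0 → Kw phi E T i e mu →
    (∀ nu : L →+ ℤ, Kw phi E T i e nu → nu b = 0 → nu = 0) → Cn (N - 1) (p - g) g

section

variable {P : Type} [Fintype P] [DecidableEq P] {L : Type} [AddCommGroup L] [Module.Free ℤ L]
  [Module.Finite ℤ L]

theorem stepk {N : ℕ} {p g : ℤ[X]} {phi : L →+ (P → ℤ)} {E : AO ℤ L} (R : Rowk P L phi E N p g)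
    (hTys : TysS) (hGen : GenS) (hF1 : F1S) (hF2 : F2S) (hVco : VcoS) (hMp : MpaS) (hD3 : D3S)
    (hRk : RkS) (H : Rdk N p g phi E)
    {i : L → P} {e : L → (RO ℤ)ˣ} {f : L → ℤ[X]}
    (hall : ∀ R, Ray E R → Gl phi E R (i R) (e R) (f R)) {b : L} (hbr : Ray E b)
    (hfb : f b = g) (hkb : Gkr phi E g b (i b) (e b)) : Cd N p g := by
  have hX := H.toXt
  have hD := H.dd
  have hbl : Gl phi E b (i b) (e b) g := hkb.gl
  have hg0 := H.g0
  by_cases hNb : Nb phi E b (i b) (e b)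
  swap
  · exact Or.inl (bnm_of_tyC' (hTys P L phi E N p g b (i b) (e b) hX hbl hg0
      (H.ims b (i b) (e b) hkb) hNb))
  obtain ⟨mu, hmu0, hmk⟩ := hkb.kl
  by_cases hcn : Bnm N p g
  · exact Or.inl hcn
  -- the structure at a `g`-ray without binomial divisor
  have hstr : ∀ S, Ray E S → f S = g → Nb phi E S (i S) (e S) → Gkr phi E g S (i S) (e S) →
      ∀ T, Ray E T → BPR.Adj E S T → Ou phi E S (i S) (e S) T →
        (Nb phi E T (i T) (e T) ∧ ∃ nu, nu ≠ 0 ∧ Kw phi E T (i T) (e T) nu) ∧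
        f T = g ∧ Ou phi E T (i T) (e T) S ∧
        ∀ nu, Kw phi E S (i S) (e S) nu → nu T = 0 → nu = 0 := by
    intro S hS hfS hNS hkS T hT hadj hou
    have hpb : ∀ T, Ray E T → BPR.Adj E S T → Ou phi E S (i S) (e S) T →
        Nb phi E T (i T) (e T) ∧ ∃ nu, nu ≠ 0 ∧ Kw phi E T (i T) (e T) nu := by
      rintro T hT hadj ⟨nu, hnk, hnT⟩
      exact (R.pb (f T) S (i S) (e S) T (i T) (e T) nu hkS.gl (hall T hT) hadj hnk
        hnT hNS).resolve_left hcn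
    exact ⟨hpb T hT hadj hou,
      (R.str i e f S hall hS hfS hkS hpb).resolve_left hcn T hT hadj hou⟩
  obtain ⟨T, hT, hadj, hmT⟩ := (adjk hGen hF1 hF2 hVco hD3 hRk H hbl hmk).1 hmu0
  have hou : Ou phi E b (i b) (e b) T := ⟨mu, hmk, hmT⟩
  obtain ⟨⟨hNT, nu, hnu0, hnk⟩, hfT, houT, honeb⟩ := hstr b hbr hfb hNb hkb T hT hadj hou
  have hTl : Gl phi E T (i T) (e T) g := hfT ▸ hall T hT
  have hkT : Gkr phi E g T (i T) (e T) := ⟨hTl, nu, hnu0, hnk⟩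
  obtain ⟨-, -, -, honeT⟩ := hstr T hT hfT hNT hkT b hbr (BP12.adj_symm hadj) houT
  by_cases hfull : T2f phi E b T (e b) (e T)
  · exact Or.inl (R.t2 b (i b) (e b) T (i T) (e T) hbl hTl hNb hou houT honeb hfull)
  obtain ⟨x, hx, -, hbx, hTx, hcase⟩ :=
    BP12.kapw hGen hF1 hF2 hVco hMp hD hbl hTl hadj hou houT hfull
  have fin : ∀ (S : L), Ray E S → Gl phi E S (i S) (e S) g → Nb phi E S (i S) (e S) →
      ∀ (lam : L →+ ℤ) (S' : L), lam ≠ 0 → Kw phi E S (i S) (e S) lam →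
      (∀ nu : L →+ ℤ, Kw phi E S (i S) (e S) nu → nu S' = 0 → nu = 0) → f x = g →
      (∀ (i0 : P) (h : co phi i0 S = 1), ∃ x' : Ker (co phi i0), (x' : L) = x ∧
          (cl (co phi i0) S h (e S) E).coeff x' = E.coeff x ∧
          Ray (cl (co phi i0) S h (e S) E) x') → Cd N p g := by
    intro S hS hSl hNS lam S' hlam hlk hone hfx hcl
    obtain ⟨x', -, h2, h3⟩ := hcl (i S) hSl.po
    refine Or.inr (R.ins S (i S) (e S) hSl.po x' (-(e x)) lam S' hSl hNS h3 ?_ hlam hlk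
      hone)
    have h4 := (hall x hx).eq
    rw [h2, Units.val_neg, neg_mul, h4, neg_neg, hfx]
  rcases hcase with ⟨-, h2, h3⟩ | ⟨h1, -, h3⟩
  · obtain ⟨-, hfx, -, -⟩ := hstr T hT hfT hNT hkT x hx hTx h2
    exact fin b hbr hbl hNb mu T hmu0 hmk honeb hfx h3
  · obtain ⟨-, hfx, -, -⟩ := hstr b hbr hfb hNb hkb x hx hbx h1
    exact fin T hT hTl hNT nu b hnu0 hnk honeT hfx h3

end

/-- (D) from the rows. -/
theorem bpdk (hRow : ∀ (P L : Type) [Fintype P] [DecidableEq P] [AddCommGroup L]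
      [Module.Free ℤ L] [Module.Finite ℤ L] (phi : L →+ (P → ℤ)) (E : AO ℤ L) (N : ℕ)
      (p g : ℤ[X]), Rdk N p g phi E → Rowk P L phi E N p g)
    (hBx : BpxS) (hTys : TysS) (hGen : GenS) (hF1 : F1S) (hF2 : F2S) (hVco : VcoS) (hMp : MpaS)
    (h2 : FacetS) (h3 : ComplIrrS) (h4 : ComplS) (h5 : RkS) (hE1 : E1S) (hMV : MVS)
    (hM1 : M1S) (hE2 : E2S) (hb1 : BdV ℤ 1 1) (hEz : EvzS) (hD3 : D3S) (hSy : SymLS)
    (hL : LatResS) (hU : UnitRS) (hUA : UnitAS) : BpdkS := by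
  classical
  intro P L _ _ _ _ _ phi G N S w e p g nu hN hD hcv hrk hbn hS hp hp0 hg hg0 hnu hkill
  rcases Nat.lt_or_ge 2 N with hN3 | hN2
  swap
  · have h6 : N = 2 := le_antisymm hN2 hN
    subst h6
    left
    have h7 := hBx P L phi G 2 S w (-(w * e)) p g le_rfl hD hcv hrk hbn hS hp hp0
      (by rw [Units.val_neg, Units.val_mul]; linear_combination -hg) hg0
    by_cases hg1 : g = 1
    · rcases h7.2 hg1 with ⟨k, t, hk, hpk⟩ | ⟨s, M, F, hM, hB, -⟩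
      · exact ⟨k, t, 0, hk, hpk, by rw [hg1]; simp⟩
      · have := hB.1
        omega
    · exact bnm_of_bpx_two (h7.1 hg1)
  have ih : BpA (N - 1) := by
    intro P' L' _ _ _ _ _ phi' G' S' w' w1' p' g' a1 a2 a3 a4 a5 a6 a7 a8 a9
    exact hBx P' L' phi' G' (N - 1) S' w' w1' p' g' (by omega) a1 a2 a3 a4 a5 a6 a7 a8 a9
  obtain ⟨P', L', x1, x2, x3, x4, x5, phi', E1, S', hB, hG, htop, hims, hfct⟩ :=
    redk h2 h3 h4 h5 hE1 hMV hM1 hE2 hb1 hEz hVco hUA hD3 hSy hL (by omega : 2 ≤ N) hp0 hg0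
      (⟨hD, hcv, hrk, w, hp⟩ : Bpd N p phi G) (⟨hS, w, e, nu, hp, hg, hnu, hkill⟩ : Gk p g G S)
  obtain ⟨hS'r, w', e', mu, hw', hwS, hmu, hmk⟩ := hG
  have hwu : IsUnit (w' : RO ℤ) := w'.isUnit
  have hw0 : (w' : RO ℤ) ≠ 0 := hwu.ne_zero
  obtain ⟨E, hE⟩ : ∃ E : AO ℤ L', E = cst (w' : RO ℤ) * E1 := ⟨_, rfl⟩
  have hsupp : supp E = supp E1 := by rw [hE]; exact H78.supp_cst_mul hw0 E1
  have hco : ∀ a, E.coeff a = (w' : RO ℤ) * E1.coeff a := fun a => by rw [hE, H78.cstm]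
  have hDE : DD phi' E := by
    rw [hE]
    exact H78.dd_cst hwu (fun z => (hwu.map (evR z)).ne_zero) hB.dd
  have hE0 : E.coeff 0 = toLaurent p := by rw [hco, hw']
  have hray : ∀ R, Ray E R ↔ Ray E1 R := by
    intro R
    constructor
    · rintro ⟨a1, a2, lam, a3, a4⟩
      rw [hsupp] at a1
      exact ⟨a1, a2, lam, a3, fun a ha => a4 a (by rw [hsupp]; exact ha)⟩
    · rintro ⟨a1, a2, lam, a3, a4⟩
      exact ⟨by rw [hsupp]; exact a1, a2, lam, a3, fun a ha => a4 a (by rw [← hsupp]; exact ha)⟩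
  have hgk : ∀ R i e, Gkr phi' E g R i e → Gk p g E1 R := by
    rintro R i e ⟨hl, nu', hnu', hk'⟩
    have hR1 := (hray R).mp hl.ray
    refine ⟨hR1, w', e, nu', hw', ?_, hnu', ?_⟩
    · have h6 := hl.eq
      rw [hco] at h6
      linear_combination h6
    · rw [hE] at hk'
      exact (BP12.kw_us hVco hB.dd.inj hB.dd.bin hR1.1 hR1.2.1 hl.po).mp (kw_nrm.mp hk')
  obtain ⟨iS, hiS⟩ := BP12.ex_port hDE.inj (hDE.bin S' (by rw [hsupp]; exact hS'r.1)) hS'r.2.1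
  have hglS : Gl phi' E S' iS e' g := by
    rw [hE]
    exact gl_nrm (phi := phi') hiS hS'r hwS hg0
  have hkS : Kw phi' E S' iS e' mu := by
    rw [hE]
    exact kw_nrm.mpr ((BP12.kw_us hVco hB.dd.inj hB.dd.bin hS'r.1 hS'r.2.1 hiS).mpr hmk)
  by_cases hz : ZFree E
  · left
    have h6 := BP12.gz1 hz hU (w := 1) (a := 0) (p := p) (by rw [Units.val_one, one_mul, hE0])
      (by rw [hp0]; exact_mod_cast (by omega : N ≠ 0))
    have h7 := BP12.gz1 hz hU (w := -e') (a := S') (p := g) (by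
      rw [Units.val_neg, neg_mul, hglS.eq, neg_neg]) (by rw [hg0]; exact one_ne_zero)
    rw [hg0, C_1] at h7
    rw [hp0] at h6
    exact bnm_const h7 h6
  have hpne : p.coeff 0 ≠ 0 := by rw [hp0]; exact_mod_cast (by omega : N ≠ 0)
  obtain ⟨hpz, -⟩ := BP57.zf_of_unit hU hcv hp hpne
  have hnp : ‖(Coef.emb (p.coeff 0) : ℂ)‖ = N := by
    rw [hp0]
    change ‖(((N : ℤ) : ℤ) : ℂ)‖ = _
    rw [Complex.norm_intCast]
    simp
  have hcvE : ClassV N (E.coeff 0) := by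
    rw [hE0]
    have h6 := BP57.classV_of (O := ℤ) hU (w := 1) (F := toLaurent p) (v := p)
      (by rw [Units.val_one, one_mul]) (by
        rw [hnp]
        have : (3 : ℝ) ≤ N := by exact_mod_cast hN3
        linarith) hpz
    rw [hnp] at h6
    exact h6
  have hR : Rdk N p g phi' E :=
    { dd := hDE
      cv := hcvE
      rkL := hB.rkL
      n3 := hN3
      e0 := hE0
      p0 := hp0
      nz := hz
      g0 := hg0
      ims := fun R i e hR => hims R (hgk R i e hR)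
      fct := fun lam R i e hlam hR h0 =>
        hfct lam R (by rw [← hsupp]; exact hlam) (hgk R i e hR) h0
      bnk := hbn
      ih := ih }
  -- ports and loads
  have hch : ∀ R : L', ∃ (i : P') (e : (RO ℤ)ˣ) (f : ℤ[X]), (Ray E R → Gl phi' E R i e f) ∧
      (R = S' → i = iS ∧ e = e' ∧ f = g) := by
    intro R
    by_cases hRS : R = S'
    · exact ⟨iS, e', g, fun _ => by rw [hRS]; exact hglS, fun _ => ⟨rfl, rfl, rfl⟩⟩
    by_cases hRr : Ray E R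
    · obtain ⟨i, hi⟩ := BP12.ex_port hDE.inj (hDE.bin R hRr.1) hRr.2.1
      obtain ⟨e, f, hef, hf⟩ := BP12.good_load hRr.1
      exact ⟨i, e, f, fun _ => ⟨hRr, hi, hef, hf⟩, fun h => absurd h hRS⟩
    · exact ⟨iS, 1, 0, fun h => absurd h hRr, fun h => absurd h hRS⟩
  choose i e f hall using hch
  obtain ⟨c1, c2, c3⟩ := (hall S').2 rfl
  exact stepk (hRow P' L' phi' E N p g hR) hTys hGen hF1 hF2 hVco hMp hD3 h5 hR
    (fun R hR => (hall R).1 hR) hglS.ray c3 (by rw [c1, c2]; exact ⟨hglS, mu, hmu, hkS⟩)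

end Pool.Agent.B5.BP80
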