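import Pool.Agent.Lib.MP_b5021c_nt.BP.H80.Spe

/-!
# Board b5, exports of (BPX) (helper80): row NOL
-/

namespace Pool.Agent.B5.BP80

open scoped LaurentPolynomial
open Polynomial
open Pool.Agent.B5 Pool.Agent.B5.BPR Pool.Agent.B5.Dcm Pool.Agent.B5.Uf07
open Pool.Agent.B5.Tl (pr tc)

set_option linter.unusedSectionVars false

theorem kap_lin (v : ℤˣ) (t a b : ℤ) :
    kap v (mz 0 t * toLaurent (C a + C b * X : ℤ[X])) = mz 0 (t * (a + b * (v : ℤ))) := by
  have h1 : (toLaurent (C a + C b * X : ℤ[X]) : RO ℤ) = mz 0 a + mz 1 b := by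
    rw [map_add, map_mul, toLaurent_C, toLaurent_C, toLaurent_X,
      ← LaurentPolynomial.single_eq_C_mul_T]
    rfl
  have h2 : ∀ x y : ℤ, (mz 0 x + mz 0 y : RO ℤ) = mz 0 (x + y) := by
    intro x y
    unfold mz
    rw [AddMonoidAlgebra.single_add]
  rw [h1, map_mul, map_add, kap_mz, kap_mz, kap_mz, zpow_zero, zpow_one, Units.val_one, mul_one,
    mul_one, h2, mz_mul, add_zero]

theorem contract_lin {F : ℤ[X]} {a : ℤ} (h0 : F.coeff 0 = 0) {m : ℕ} (hm : 0 < m)
    (hd : F.natDegree = m) : contract m (C a + F) = C a + C (F.coeff m) * X := by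
  ext j
  rw [coeff_contract hm.ne', coeff_add, coeff_add, coeff_C, coeff_C, coeff_C_mul, coeff_X]
  rcases Nat.lt_or_ge j 1 with hj | hj
  · have hj0 : j = 0 := by omega
    subst hj0
    rw [zero_mul, h0]
    simp
  · rcases Nat.lt_or_ge 1 j with hj2 | hj2
    · have h1 : F.coeff (j * m) = 0 := by
        apply coeff_eq_zero_of_natDegree_lt
        rw [hd]
        calc m = 1 * m := by ring
          _ < j * m := Nat.mul_lt_mul_of_pos_right hj2 hm
      rw [h1, if_neg (by positivity), if_neg (by omega), if_neg (by omega)]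
      ring
    · have hj1 : j = 1 := by omega
      subst hj1
      rw [one_mul, if_neg (by omega), if_neg (by omega), if_pos rfl]
      ring

theorem finrank_ker_add {L : Type} [AddCommGroup L] [Module.Free ℤ L] [Module.Finite ℤ L]
    (hRk : RkS) {k : L →+ ℤ} {T : L} (h : k T = 1) {S : Set (Ker k)}
    (hS : Module.finrank ℤ L = rk S + 1) {mu : L →+ ℤ} (hT : mu T = 0)
    (hmu : ∀ a ∈ S, mu (a : L) = 0) : mu = 0 := by
  have h1 := (hRk L L).1 k (by rintro rfl; exact zero_ne_one h)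
  obtain ⟨mu', hmu'⟩ : ∃ mu' : Ker k →+ ℤ, mu' = mu.comp (incl (Ker k)) := ⟨_, rfl⟩
  have h2 : mu' = 0 := by
    by_contra hne
    have h3 := (hRk (Ker k) (Ker k)).1 mu' hne
    have h4 : rk S ≤ Module.finrank ℤ (Ker mu') := by
      unfold rk
      apply Submodule.finrank_mono
      rw [Submodule.span_le]
      intro a ha
      change mu' a = 0
      rw [hmu']
      exact hmu a ha
    omega
  ext x
  have h3 : mu' (prj k T h x) = 0 := by rw [h2]; rfl
  rw [hmu'] at h3
  change mu ((prj k T h x : Ker k) : L) = 0 at h3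
  rw [prj_coe, map_sub, map_zsmul, hT, smul_zero, sub_zero] at h3
  exact h3

/-- (NOL) -/
theorem nolS (hRk : RkS) (hKm : KmuS) (hDcm : DcmS) (hSub : SubzS) (hPr : PrimS) (hG0 : G0S)
    (hFD : FDS) (hSm : SmallS) (hUA : UnitAS) (hMin : MinS) (hMm : MmulS) (hE2 : E2S)
    (hVZ : VZS) (hU : UnitRS) (hSt : StSpecS) (hFa : FactS) (hW : WWfS) (hC : Coeff0S)
    (hR : ResWDS) (hRS : ResStS) (hE1 : E1S) (hMV : MVS) (hC4 : C4S) (hEz : EvzS) : NolS := by
  classical
  intro P L _ _ _ _ _ phi E N p f F T iT eT sT mT nuT hT c n G hX hGT heT hp hf hF0 hF1 hFn hNT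
    hfull hZ hc hkt0 hnz y s s0 hy hEy hs0 hlv0 hyT
  have hN := hX.n3
  have hrkL := hX.rkL
  have hD := hX.dd
  -- a positive functional
  obtain ⟨q, nu, hq, hnq, hkt, hlv⟩ : ∃ (q : ℕ) (nu : ℤ × L →+ ℤ), 0 < q ∧ nu (1, 0) = q ∧
      Tot.KT (pr (co phi iT)) (-mT, T) (sT : ℤ) (tc E) nu ∧ nu (s, y) = 0 := by
    rcases lt_or_gt_of_ne hnz with h | h
    · refine ⟨(-nuT (1, 0)).toNat, -nuT, by omega, ?_, ⟨?_, ?_⟩, ?_⟩
      · rw [AddMonoidHom.neg_apply, Int.toNat_of_nonneg (by omega)]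
      · rw [AddMonoidHom.neg_apply, hkt0.1, neg_zero]
      · intro x h1 h2
        exact hkt0.2 x h1 fun h3 => h2 (by rw [AddMonoidHom.neg_apply, h3, neg_zero])
      · rw [AddMonoidHom.neg_apply, hlv0, neg_zero]
    · exact ⟨(nuT (1, 0)).toNat, nuT, by omega, by rw [Int.toNat_of_nonneg (by omega)], hkt0, hlv0⟩
  have hq0 : (q : ℤ) ≠ 0 := by exact_mod_cast hq.ne'
  -- the degree
  obtain ⟨m, hm⟩ : ∃ m, m = F.natDegree := ⟨_, rfl⟩
  have hm1 : 1 ≤ m := by
    by_contra hcon
    have h1 : F.natDegree = 0 := by omega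
    apply hFn
    rw [eq_C_of_natDegree_eq_zero h1, hF0, C_0]
  have hlead : F.coeff m ≠ 0 := by
    rw [hm]
    exact leadingCoeff_ne_zero.mpr hFn
  obtain ⟨v, hv⟩ : ∃ v : ℤˣ, F.coeff m * (v : ℤ) = -1 := by
    have h1 := abs_le.mp (hF1 m)
    have h2 : F.coeff m = 1 ∨ F.coeff m = -1 := by omega
    rcases h2 with h2 | h2
    · exact ⟨-1, by rw [h2]; norm_num⟩
    · exact ⟨1, by rw [h2]; norm_num⟩
  -- the average
  have hCC := BP57.gl_cc hE2 hVZ hU hX hGT
  have hse : (eT : RO ℤ) = mz mT (sT : ℤ) := by rw [heT, Uf07.uT_mz]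
  have hbinT : ∀ a ∈ supp E, co phi iT a = 0 ∨ co phi iT a = 1 := fun a ha => hD.bin a ha iT
  have hVco := fun a : Ker (co phi iT) => H47.cl_coeff_bin (co phi iT) T hT eT E hbinT a
  have hnV : ∀ (a : Ker (co phi iT)) (k : ℤ),
      ((cl (co phi iT) T hT eT E).coeff a).coeff k ≠ 0 → nu (k, (a : L)) = 0 := by
    intro a k hk
    by_contra hne
    apply hk
    have h1 := hkt.2 (k, (a : L)) a.2 hne
    rw [hVco, AddMonoidAlgebra.coeff_add, Finsupp.add_apply, heT, Tl.uT_coeff]
    exact h1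
  have hET : ∀ j : ℤ, (E.coeff T).coeff (j - mT) = -(sT : ℤ) * (toLaurent f).coeff j := by
    intro j
    have h1 := congrArg (fun x : RO ℤ => x.coeff j) hGT.eq
    change ((eT : RO ℤ) * E.coeff T).coeff j = -((toLaurent f).coeff j) at h1
    rw [heT, Tl.uT_coeff] at h1
    have h2 := Uf.sq_unit sT
    linear_combination (sT : ℤ) * h1 - (E.coeff T).coeff (j - mT) * h2
  have hf0 : f.coeff 0 = 1 := by rw [hf, coeff_add, hF0, coeff_one_zero, add_zero]
  have hSc : (E.coeff T).coeff (-mT) ≠ 0 := by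
    have h1 := hET 0
    have h2 := Dcm.toLaurent_coeff_nonneg f 0
    rw [Nat.cast_zero] at h2
    rw [zero_sub, h2, hf0, mul_one] at h1
    rw [h1]
    exact neg_ne_zero.mpr sT.ne_zero
  have hrk : Module.finrank ℤ L = rk (supp (cl (co phi iT) T hT eT E)) + 1 := by
    rw [BP57.full_of_kw hKm hRk hD hT hfull]
    exact (BP57.finrank_kerO hRk hT).symm
  obtain ⟨K, D, T', h', gam, s1, A⟩ := avx hRk hDcm hSub hPr hG0 hFD hSm hUA hMin hMm (h := hT)
    hCC hZ hc hse hq hnq hkt.1 hnV hSc hrk hm1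
  have hnu : ∀ (k : ℤ) (a : L), nu (k, a) = q * k + nu (0, a) := by
    intro k a
    have h2 : ((k, a) : ℤ × L) = k • ((1 : ℤ), (0 : L)) + (0, a) := by simp
    rw [h2, map_add, map_zsmul, hnq, smul_eq_mul]
    ring
  have hgT : gam T' = -mT := by
    have h1 := A.gm T'
    have h2 := hkt.1
    rw [hnu] at h2
    rw [A.eS] at h1
    apply mul_left_cancel₀ hq0
    linarith
  have hyK : y ∈ K := A.mem y s (by
    rw [hEy, ← LaurentPolynomial.single_eq_C_mul_T, AddMonoidAlgebra.coeff_single,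
      Finsupp.single_eq_same]
    exact hs0) (by rw [hlv]; exact dvd_zero _)
  obtain ⟨y', hy'⟩ : ∃ y' : K, (y' : L) = y := ⟨⟨y, hyK⟩, rfl⟩
  have hgy : gam y' = s := by
    have h1 := A.gm y'
    rw [hnu] at hlv
    rw [hy'] at h1
    apply mul_left_cancel₀ hq0
    linarith
  have hbinK : ∀ a ∈ supp D, co (phi.comp (incl K)) iT a = 0 ∨ co (phi.comp (incl K)) iT a = 1 :=
    fun a ha => A.dd.bin a ha iT
  -- the coefficients of the average
  have hm0 : 0 < m := hm1
  have hmz : ∀ (t : ℤ) (x : RO ℤ) (j : ℤ), (mz 0 t * x).coeff j = t * x.coeff j := by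
    intro t x j
    rw [mzs_coeff, sub_zero]
  have hD0 : D.coeff 0 = mz 0 (s1 : ℤ) * toLaurent (C (N : ℤ) + C (F.coeff m) * X) := by
    apply AddMonoidAlgebra.ext
    apply Finsupp.ext
    intro j
    rw [hmz, A.co, ← contract_lin (a := (N : ℤ)) hF0 hm0 hm.symm, Uf.toL_contract hm0,
      map_zero gam, zero_add, ← hp]
    change (s1 : ℤ) * (E.coeff 0).coeff (m * j) = _
    rw [hX.e0]
  have hDT : D.coeff T' = mz 0 (-((s1 : ℤ) * sT)) * toLaurent (C 1 + C (F.coeff m) * X) := by
    apply AddMonoidAlgebra.ext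
    apply Finsupp.ext
    intro j
    rw [hmz, A.co, ← contract_lin (a := 1) hF0 hm0 hm.symm, Uf.toL_contract hm0, A.eS, hgT,
      show -mT + (m : ℤ) * j = m * j - mT by ring, hET, hf, C_1]
    ring
  have hDy : D.coeff y' = mz 0 ((s1 : ℤ) * s0) := by
    apply AddMonoidAlgebra.ext
    apply Finsupp.ext
    intro j
    rw [A.co, hy', hgy, hEy, ← LaurentPolynomial.single_eq_C_mul_T, AddMonoidAlgebra.coeff_single]
    unfold mz
    rw [AddMonoidAlgebra.coeff_single, Finsupp.single_apply, Finsupp.single_apply]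
    by_cases hj : j = 0
    · subst hj
      rw [mul_zero, add_zero, if_pos rfl, if_pos rfl]
    · rw [if_neg, if_neg (Ne.symm hj), mul_zero]
      intro h1
      have h2 : (m : ℤ) * j = 0 := by linarith
      rcases mul_eq_zero.mp h2 with h3 | h3
      · omega
      · exact hj h3
  have hDyT : D.coeff (y' + T') = mz 0 (-((s1 : ℤ) * (sT * s0))) := by
    apply AddMonoidAlgebra.ext
    apply Finsupp.ext
    intro j
    have h1 := congrArg (fun x : RO ℤ => x.coeff (s + m * j)) hyT
    change ((eT : RO ℤ) * E.coeff (y + T)).coeff (s + m * j) = -((E.coeff y).coeff (s + m * j))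
      at h1
    rw [heT, Tl.uT_coeff] at h1
    have h2 : ((y' + T' : K) : L) = y + T := by rw [Submodule.coe_add, hy', A.eS]
    have h3 : gam (y' + T') + (m : ℤ) * j = s + m * j - mT := by rw [map_add, hgy, hgT]; ring
    have h4 := Uf.sq_unit sT
    have h5 : (E.coeff (y + T)).coeff (s + m * j - mT) =
        -((sT : ℤ) * (E.coeff y).coeff (s + m * j)) := by
      linear_combination (sT : ℤ) * h1 - (E.coeff (y + T)).coeff (s + m * j - mT) * h4
    have h6 : (D.coeff y').coeff j = s1 * (E.coeff y).coeff (s + m * j) := by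
      rw [A.co, hy', hgy]
    rw [A.co, h2, h3, h5]
    have h7 : (s1 : ℤ) * -((sT : ℤ) * (E.coeff y).coeff (s + m * j)) =
        -(sT : ℤ) * (D.coeff y').coeff j := by
      rw [h6]; ring
    rw [h7, hDy]
    unfold mz
    rw [AddMonoidAlgebra.coeff_single, AddMonoidAlgebra.coeff_single, Finsupp.single_apply,
      Finsupp.single_apply]
    split_ifs <;> ring
  -- the specialisation
  obtain ⟨V, hV⟩ : ∃ V : AO ℤ K, V = kapA v D := ⟨_, rfl⟩
  have hVc : ∀ a, V.coeff a = kap v (D.coeff a) := fun a => by rw [hV, kapA_coeff]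
  have hVs : ∀ a ∈ supp V, a ∈ supp D := fun a ha => kapA_sub (by rw [← hV]; exact ha)
  have hV0 : V.coeff 0 = mz 0 ((s1 : ℤ) * ((N : ℤ) - 1)) := by
    rw [hVc, hD0, kap_lin, hv]
    congr 2
  have hVT : V.coeff T' = 0 := by
    rw [hVc, hDT, kap_lin, hv]
    have h1 : (-((s1 : ℤ) * sT)) * (1 + -1) = 0 := by ring
    rw [h1]
    unfold mz
    rw [AddMonoidAlgebra.single_zero]
  have hVy : y' ∈ supp V := by
    change V.coeff y' ≠ 0
    rw [hVc, hDy, kap_mz, zpow_zero, Units.val_one, mul_one]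
    exact mz0_ne (mul_ne_zero s1.ne_zero hs0)
  have hVyT : y' + T' ∈ supp V := by
    change V.coeff (y' + T') ≠ 0
    rw [hVc, hDyT, kap_mz, zpow_zero, Units.val_one, mul_one]
    exact mz0_ne (neg_ne_zero.mpr (mul_ne_zero s1.ne_zero (mul_ne_zero sT.ne_zero hs0)))
  have hc0 : (s1 : ℤ) * ((N : ℤ) - 1) ≠ 0 := mul_ne_zero s1.ne_zero (by omega)
  have hst : Stable V := by
    rw [hV]
    exact kapA_stable hSt v A.dd.st hc0 (by rw [← hVc, hV0])
  have hun : Unitary V := by
    rw [hV]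
    exact kapA_unitary v A.dd.un
  have hbin : ∀ a ∈ supp V, Bin (phi.comp (incl K)) a := fun a ha => A.dd.bin a (hVs a ha)
  obtain ⟨k, hk⟩ : ∃ k : K →+ ℤ, k = co (phi.comp (incl K)) iT := ⟨_, rfl⟩
  -- the closing of `V`
  have hcl : cl (co (phi.comp (incl K)) iT) T' h' (H40.uT sT 0) V =
      cl (co (phi.comp (incl K)) iT) T' h' (H40.uT sT 0) D := by
    apply AddMonoidAlgebra.ext
    apply Finsupp.ext
    intro a
    have h1 := H47.cl_coeff_bin (co (phi.comp (incl K)) iT) T' h' (H40.uT sT 0) V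
      (fun x hx => hbin x hx iT) a
    have h2 := H47.cl_coeff_bin (co (phi.comp (incl K)) iT) T' h' (H40.uT sT 0) D hbinK a
    have h3 := kap_id (u := v) (A.cs a)
    rw [h1, hVc, hVc, ← h3, h2, RingHom.map_add, RingHom.map_mul, Uf07.uT_mz, kap_mz, zpow_zero,
      Units.val_one, mul_one]
  have hsV : ∀ a : Ker (co (phi.comp (incl K)) iT),
      a ∈ supp (cl (co (phi.comp (incl K)) iT) T' h' (H40.uT sT 0) D) →
      (a : K) ∈ supp V ∨ (a : K) + T' ∈ supp V := by
    intro a ha
    rw [← hcl] at ha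
    have h1 := H47.cl_coeff_bin (co (phi.comp (incl K)) iT) T' h' (H40.uT sT 0) V
      (fun x hx => hbin x hx iT) a
    by_contra hcon
    push Not at hcon
    apply ha
    have h2 : V.coeff (a : K) = 0 := by
      by_contra h3
      exact hcon.1 h3
    have h3 : V.coeff ((a : K) + T') = 0 := by
      by_contra h4
      exact hcon.2 h4
    rw [h1, h2, h3, mul_zero, add_zero]
  -- the rank
  have hrkV : rk (supp V) = Module.finrank ℤ K := by
    have h1 := (hRk K K).2.2.1 (supp V)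
    by_contra hne
    obtain ⟨mu, hmu, hmz'⟩ := hKm K (supp V) (lt_of_le_of_ne h1 hne)
    apply hmu
    have h2 : mu T' = 0 := by
      have h3 := hmz' _ hVyT
      rw [map_add, hmz' _ hVy, zero_add] at h3
      exact h3
    refine finrank_ker_add hRk h' A.dr h2 fun a ha => ?_
    rcases hsV a ha with h3 | h3
    · exact hmz' _ h3
    · have h4 := hmz' _ h3
      rw [map_add, h2, add_zero] at h4
      exact h4
  obtain ⟨-, -, lam, hlT, hlp⟩ := hGT.ray
  refine cnt_no hFa hW hC hR hRS hE1 hMV hMm hC4 hEz hRk A.dd.inj hbin hst hun (n0 := N - 1)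
    (c := (s1 : ℤ) * ((N : ℤ) - 1)) (by omega) ?_ hV0 ?_ ?_
  · rw [Int.natAbs_mul, Int.isUnit_iff_natAbs_eq.mp s1.isUnit, one_mul]
    omega
  · intro b e hb hd
    by_cases hpb : prj (co (phi.comp (incl K)) iT) T' h' b = 0
    · -- on the line of `T'`
      have h1 := congrArg (fun x : Ker (co (phi.comp (incl K)) iT) => (x : K)) hpb
      change ((prj (co (phi.comp (incl K)) iT) T' h' b :
        Ker (co (phi.comp (incl K)) iT)) : K) = 0 at h1
      rw [prj_coe] at h1
      refine no_line hMin (T := T') (k := co (phi.comp (incl K)) iT)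
        (lam := lam.comp (incl K)) h' ?_ ?_ ?_ (sub_eq_zero.mp h1) hb hd
      · change lam (T' : L) = 0
        rw [A.eS, hlT]
      · intro a ha ha0
        change 0 < lam (a : L)
        have h2 := hVs a ha
        obtain ⟨j, hj⟩ : ∃ j, (D.coeff a).coeff j ≠ 0 := by
          by_contra hcon
          push Not at hcon
          apply h2
          apply AddMonoidAlgebra.ext
          exact Finsupp.ext hcon
        rw [A.co] at hj
        refine hlp _ ?_ (fun h3 => ha0 (Subtype.ext h3)) (fun h3 => ?_)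
        · intro h3
          have h4 : E.coeff (a : L) = 0 := h3
          rw [h4] at hj
          exact right_ne_zero_of_mul hj rfl
        · have h4 : a = T' := Subtype.ext (h3.trans A.eS.symm)
          rw [h4] at ha
          exact ha hVT
      · rw [hV0]
        exact mz0_ne hc0
    · have h1 := map_dvd (cl (co (phi.comp (incl K)) iT) T' h' (H40.uT sT 0)) hd
      rw [hcl, map_sub, map_one, cl_single, ← Units.val_mul] at h1
      exact A.ns _ _ hpb h1
  · rw [hrkV, A.rkL]
    omega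

end Pool.Agent.B5.BP80
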