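import Pool.Agent.Lib.MP_b5021c_nt.BP.H80.Exh
import Pool.Agent.Lib.MP_b5021c_nt.BP.H80.Nol
import Pool.Agent.Lib.MP_b5021c_nt.BP.H80.All

/-!
# Board b5, exports of (BPX) (helper80): (D) from base rows only
-/

namespace Pool.Agent.B5.BP80

open scoped LaurentPolynomial
open Polynomial
open Pool.Agent.B5
open Pool.Agent.B5.BPR
open Pool.Agent.B5.BP57

set_option linter.unusedSectionVars false

/-- (D) from base rows. -/
theorem bpd_all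
    -- chapters A, B
    (hMulti : MultiS) (hStSpec : StSpecS) (hB2c : B2cS) (hG0 : G0S) (hEvR : EvRS) (hA3a : A3aS)
    (hA3b : A3bS) (hA5 : A5S) (hA6 : A6S) (hA7 : A7S) (hZf : ZfinS) (hUA : UnitAS) (hU : UnitRS)
    (hCI : ComplIrrS) (hCo : ComplS) (hRk : RkS) (hFacet : FacetS) (hFcl : FclS) (hE2 : E2S)
    (hVZ : VZS) (hMm : MmulS) (hMV : MVS) (hE1 : E1S) (hM1 : M1S) (hMmo : MmonoS) (hMono : MonoS)
    (hC0 : Coeff0S) (hMin : MinS) (hB3 : B3S) (hB4 : B4S) (hB5a : B5aS) (hB5 : B5S) (hC1 : C1S)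
    (hC1b : C1bS) (hC2 : C2S) (hFull : FullS) (hPr : PrimS) (hSh : SharpS) (hDe : DensS)
    (hHur : HurS) (hSlM : SlMulS) (hSlE : SlEvalS) (hKe : KerEvS) (hFace : FaceS)
    (hRS : ResStS) (hR : ResWDS) (hGen : GenS) (hC4 : C4S) (hFa : FactS)
    -- closings
    (hFD : FDS) (hSm : SmallS) (hF1 : F1S) (hF2 : F2S) (hVco : VcoS) (hMp : MpaS) (hMco : McoS)
    (hD2 : D2S) (hD3 : D3S) (hUS : RkUSS) (hLMN : LMNS) (hW : WWfS) (hRF : RayFacS)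
    (hQst : QstS) (hQra : QraS) (hKm : KmuS) (hG1 : G1pS) (hG4 : G4S) (hLsn : LsnS) (hL2 : L2S)
    (hSy : SymLS) (hLR : LatResS)
    -- Eisenstein
    (hEv : EvS) (hEvm : EvmS) (hEvz : EvzS) (hEv1 : BdV ℤ 1 1)
    -- masses
    (hQc : Qc3S) (hDv : Dv3S) (hNd : Nd3vS) (hQm : Qm3S) (hNr : Nr3S) (hHp : HpgS) (hTa : Ta3S)
    (hUm : Um3vS) (hSt3 : St3S) (hSw3 : Sw3S) (hNn : Nn3S) (hQp : Qp3S) (hDb : Db3S)
    (hHp3 : Hp3S) (hTrg : TrgS) (hPai : PaiS) (hPav : PavS) (hHar : HarS) (hPmf : PmfS)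
    (hSnt : SntS) (hLin : E1.LinS)
    -- averages
    (hDcm : DcmS) (hSub : SubzS) (hPc : PCZS) (hBx : BpxS) : BpdkS ∧ TysS ∧ CntS ∧ CtbS ∧ UfgS ∧
      BP57.V1zS := by
  have hV1 : BP57.V1S := BP57.v1 hTrg hPai hPav hHar hPmf hSnt hE2 hEvR hU hM1 hMV
  have hV1z : BP57.V1zS := BP57.v1z hTrg hPai hPav hHar hPmf hSnt hE2 hEvR hU hM1 hMV hLin
  have hFw : H71.FclwS := H71.fclw (H71.fclg_all hHur hA3a hB3 hC1 hC2 hB4 hSh hStSpec hC0 hSlM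
    hPr hCI hCo)
  have hCno : Cno.CnoS := Cno.cno hMulti hStSpec hEvR hE2 hG0
  have hCq : UF.H74.CresqS := H02.cresq hMulti hStSpec hG0 hEvR hE2
  have hUf : UfgS := Ufg.ufg_all hDcm hSub hPr hG0 hRk hE2 hFD hSm hUA hMin hMm hGen hPc hG4 hMono
    hE1 hMV hMulti hStSpec hEvR hA5 hA7 hB5a hB2c hA3b hZf hCI hCo hFcl hEvz hEv1
  have hK1 : K1S := by apply BP23.k1s <;> assumption
  have hTys : TysS := by apply BP90.tysS <;> assumption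
  have hDec : DecS := by apply DecP.decS <;> assumption
  have hCtb : CtbS := DecP.ctbS (UfgC.ccng hCq hE2 hG0 hPr hA5 hA7) hDec
  have hCnt : CntS := by apply cntS <;> assumption
  have hMc : BP12.McOneS := by apply BP52.mcOneS <;> assumption
  have hNol : NolS := by apply nolS <;> assumption
  refine ⟨?_, hTys, hCnt, hCtb, hUf, hV1z⟩
  refine bpdk ?_ hBx hTys hGen hF1 hF2 hVco hMp hFacet hCI hCo hRk hE1 hMV hM1 hE2 hEv1 hEvz hD3
    hSy hLR hU hUA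
  intro P L _ _ _ _ _ phi E N p g H
  have hX := H.toXt
  refine ⟨?_, ?_, ?_, ?_⟩
  · intro f b i e T iT eT mu hb hT hadj hk hmT hNb
    obtain ⟨hdis, hIa⟩ := (adjk hGen hF1 hF2 hVco hD3 hRk H hb hk).2 T hT.ray hmT
    rcases levk hU hE2 hVZ hNd hCq hDec hK1 H hb hT hdis hk hmT hNb with h1 | hNT
    · exact Or.inl h1
    by_cases hnu : ∃ nu, nu ≠ 0 ∧ Kw phi E T iT eT nu
    · exact Or.inr ⟨hNT, hnu⟩
    left
    have hfull : ∀ nu : L →+ ℤ, Kw phi E T iT eT nu → nu = 0 := fun nu hk => by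
      by_contra hne
      exact hnu ⟨nu, hne, hk⟩
    have hI : ImS phi T := hIa hadj
    obtain ⟨hf0, c, n, G, hz⟩ := hCnt P L phi E N p f T iT eT hT.po hX hT hI hNT hfull
    by_cases hc : IsUnit c
    · exact pzk hNol hCq hDec hK1 hCnt hCtb hMc hUf hGen hF2 hVco hFD hE2 hVZ hU hMV hE1 hM1 hMm
        hG0 hC0 hW hRF hQst hQra hMin hB5a hRk hKm hQc hDv hNd hD3 hG1 hR hRS hEv hEvR hEvm hFcl
        hCno hQm hNr hHp hTa hUm hSt3 hSw3 hZf hNn hSm hV1 hUA hC1b H hb hT hadj hk hmT hNb hNT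
        hf0 hfull hz hc
    · exact bnm_of_allB hU hX hb H.g0 (hCtb P L phi E N p f T iT eT hT.po c n G hX hT hf0 hz hc)
  · intro b i e T iT eT hb hT hNb h1 h2 hone hfull
    exact t2mk hMc hFD hE2 hVZ hU hMV hE1 hM1 hMm hG0 hC0 hW hRF hQst hQra hMin hB5a hRk hKm hQc
      hDv hNd hLMN hUS hD2 hF1 hF2 hMco hD3 hMp hVco hG1 hR hRS hEv hEvR hEvm hFcl hCno hQm hNr
      hHp hTa hUm hSt3 hSw3 hZf hNn hSm hV1 hV1z H hb hT hNb h1 h2 hone hfull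
  · intro i e f b hGl hb hfb hkb hadj
    exact strk hLMN hUS hGen hF1 hF2 hVco hD3 hA6 hMmo hB5 hB2c hFD hE2 hVZ hU hMV hE1 hM1 hMm hG0
      hC0 hW hRF hQst hQra hMin hB5a hRk hKm hQc hDv hNd hG1 hFw hL2 hR hRS hEv hEvm H hGl hb hfb
      hkb hadj
  · intro T i e h x w mu b hT hNb hx hw hmu hk hone
    exact ink hG0 hC0 hMm hE1 hMV hM1 hU hE2 hVZ hW hRF hR hRS hRk hFD hSm hKm h H hT hNb hx hw
      hmu hk hone

end Pool.Agent.B5.BP80
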