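import Pool.Agent.Lib.MP_b5021c_nt.BP.H80.Exi
import Pool.Agent.Lib.MP_b5021c_nt.BP.H80.Exf
import Pool.Agent.Lib.MP_b5021c_nt.KO.H40.Side
import Pool.Agent.Lib.MP_b5021c_nt.IfaceOC

/-!
# Board b5, exports of (BPX) (helper80): the forms used in (O4), from base rows
-/

namespace Pool.Agent.B5.BP80

open scoped LaurentPolynomial
open Polynomial
open Pool.Agent.B5
open Pool.Agent.B5.BPR
open Pool.Agent.B5.BP57

set_option linter.unusedSectionVars false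

/-- helper40's form. -/
theorem bpdqS (h : BpdkS) : KO.H40.BpdqS := by
  intro P L _ _ _ _ _ phi G N S w e p g nu a1 a2 a3 a4 a5 a6 a7 a8 a9 a10 a11 a12 a13
  rcases h P L phi G N S w e p g nu a1 a2 a3 a4 a5 a6 a7 a8 a9 a10 a12 a13 with h1 | h1
  · exact Or.inl h1
  · exact Or.inr (h1.1 a11)

/-- helper35's form of (D). -/
theorem oc_bxdS (h : BpdkS) : OC.BxdS := bpdqS h

/-- helper35's form of (F). -/
theorem oc_bxfS (h : BpfS) : OC.BxfS := h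

/-- (D) in helper40's form, from base rows. -/
theorem bpdq_all
    -- chapters A, B
    (hMulti : MultiS) (hStSpec : StSpecS) (hB2c : B2cS) (hG0 : G0S) (hEvR : EvRS) (hA3a : A3aS)
    (hA3b : A3bS) (hA5 : A5S) (hA6 : A6S) (hA7 : A7S) (hZf : ZfinS) (hUA : UnitAS) (hU : UnitRS)
    (hCI : ComplIrrS) (hCo : ComplS) (hRk : RkS) (hFacet : FacetS) (hFcl : FclS) (hE2 : E2S)
    (hVZ : VZS) (hMm : MmulS) (hMV : MVS) (hE1 : E1S) (hM1 : M1S) (hMmo : MmonoS) (hMono : MonoS)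
    (hC0 : Coeff0S) (hMin : MinS) (hB3 : B3S) (hB4 : B4S) (hB5a : B5aS) (hB5 : B5S) (hC1 : C1S)
    (hC1b : C1bS) (hC2 : C2S) (hFull : FullS) (hPr : PrimS) (hSh : SharpS) (hDe : DensS)
    (hHur : HurS) (hSlM : SlMulS) (hSlE : SlEvalS) (hKe : KerEvS) (hFace : FaceS)
    (hRS : ResStS) (hR : ResWDS) (hGen : GenS) (hC4 : C4S) (hFa : FactS)
    -- closings
    (hFD : FDS) (hSm : SmallS) (hF1 : F1S) (hF2 : F2S) (hVco : VcoS) (hMp : MpaS) (hMco : McoS)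
    (hD2 : D2S) (hD3 : D3S) (hUS : RkUSS) (hLMN : LMNS) (hW : WWfS) (hRF : RayFacS)
    (hQst : QstS) (hQra : QraS) (hKm : KmuS) (hG1 : G1pS) (hG4 : G4S) (hLsn : LsnS) (hL2 : L2S)
    (hSy : SymLS) (hLR : LatResS)
    -- Eisenstein
    (hEv : EvS) (hEvm : EvmS) (hEvz : EvzS) (hEv1 : BdV ℤ 1 1)
    -- masses
    (hQc : Qc3S) (hDv : Dv3S) (hNd : Nd3vS) (hQm : Qm3S) (hNr : Nr3S) (hHp : HpgS) (hTa : Ta3S)
    (hUm : Um3vS) (hSt3 : St3S) (hSw3 : Sw3S) (hNn : Nn3S) (hQp : Qp3S) (hDb : Db3S)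
    (hHp3 : Hp3S) (hTrg : TrgS) (hPai : PaiS) (hPav : PavS) (hHar : HarS) (hPmf : PmfS)
    (hSnt : SntS) (hLin : E1.LinS)
    -- averages
    (hDcm : DcmS) (hSub : SubzS) (hPc : PCZS) (hBx : BpxS) : KO.H40.BpdqS := by
  have h : BpdkS ∧ TysS ∧ CntS ∧ CtbS ∧ UfgS ∧ BP57.V1zS := by apply bpd_all <;> assumption
  exact bpdqS h.1

/-- (F) in helper35's form, from base rows. -/
theorem bxf_all
    -- chapters A, B
    (hMulti : MultiS) (hStSpec : StSpecS) (hB2c : B2cS) (hG0 : G0S) (hEvR : EvRS) (hA3a : A3aS)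
    (hA3b : A3bS) (hA5 : A5S) (hA6 : A6S) (hA7 : A7S) (hZf : ZfinS) (hUA : UnitAS) (hU : UnitRS)
    (hCI : ComplIrrS) (hCo : ComplS) (hRk : RkS) (hFacet : FacetS) (hFcl : FclS) (hE2 : E2S)
    (hVZ : VZS) (hMm : MmulS) (hMV : MVS) (hE1 : E1S) (hM1 : M1S) (hMmo : MmonoS) (hMono : MonoS)
    (hC0 : Coeff0S) (hMin : MinS) (hB3 : B3S) (hB4 : B4S) (hB5a : B5aS) (hB5 : B5S) (hC1 : C1S)
    (hC1b : C1bS) (hC2 : C2S) (hFull : FullS) (hPr : PrimS) (hSh : SharpS) (hDe : DensS)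
    (hHur : HurS) (hSlM : SlMulS) (hSlE : SlEvalS) (hKe : KerEvS) (hFace : FaceS)
    (hRS : ResStS) (hR : ResWDS) (hGen : GenS) (hC4 : C4S) (hFa : FactS)
    -- closings
    (hFD : FDS) (hSm : SmallS) (hF1 : F1S) (hF2 : F2S) (hVco : VcoS) (hMp : MpaS) (hMco : McoS)
    (hD2 : D2S) (hD3 : D3S) (hUS : RkUSS) (hLMN : LMNS) (hW : WWfS) (hRF : RayFacS)
    (hQst : QstS) (hQra : QraS) (hKm : KmuS) (hG1 : G1pS) (hG4 : G4S) (hLsn : LsnS) (hL2 : L2S)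
    (hSy : SymLS) (hLR : LatResS)
    -- Eisenstein
    (hEv : EvS) (hEvm : EvmS) (hEvz : EvzS) (hEv1 : BdV ℤ 1 1)
    -- masses
    (hQc : Qc3S) (hDv : Dv3S) (hNd : Nd3vS) (hQm : Qm3S) (hNr : Nr3S) (hHp : HpgS) (hTa : Ta3S)
    (hUm : Um3vS) (hSt3 : St3S) (hSw3 : Sw3S) (hNn : Nn3S) (hQp : Qp3S) (hDb : Db3S)
    (hHp3 : Hp3S) (hTrg : TrgS) (hPai : PaiS) (hPav : PavS) (hHar : HarS) (hPmf : PmfS)
    (hSnt : SntS) (hLin : E1.LinS)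
    -- averages
    (hDcm : DcmS) (hSub : SubzS) (hPc : PCZS) (hBx : BpxS) : OC.BxfS := by
  have h : BpdkS ∧ TysS ∧ CntS ∧ CtbS ∧ UfgS ∧ BP57.V1zS := by apply bpd_all <;> assumption
  obtain ⟨-, h1, h2, h3, h4, h5⟩ := h
  exact bpfS hU hE2 hVZ h5 h1 h2 h3 h4

end Pool.Agent.B5.BP80
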