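import Pool.Agent.Lib.MP_b5021c_nt.BP.H12.Red
import Pool.Agent.Lib.MP_b5021c_nt.BP.H12.Wd
import Pool.Agent.Lib.MP_b5021c_nt.BP.H12.Asm
import Pool.Agent.Lib.MP_b5021c_nt.E.H07.Top
import Pool.Agent.Lib.MP_b5021c_nt.B.H09.Sha

/-!
# Board b5, exports of (BPX) (helper80): the reduction which keeps a killing functional
-/

namespace Pool.Agent.B5.BP80

open scoped LaurentPolynomial
open Polynomial
open Pool.Agent.B5
open Pool.Agent.B5.BPR
open Pool.Agent.B5.BP12 (Bpd kw_us ex_port zero_of_supp)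

set_option linter.unusedSectionVars false

/-- `R` is a `g`-ray, and a functional `mu ≠ 0` kills its closing at the unit load `e`
(`w E_0 = p`, `w e E_R = -g`). -/
def Gk {L : Type} [AddCommGroup L] (p g : ℤ[X]) (E : AO ℤ L) (R : L) : Prop :=
  Ray E R ∧ ∃ (w e : (RO ℤ)ˣ) (mu : L →+ ℤ), (w : RO ℤ) * E.coeff 0 = toLaurent p ∧
    (w : RO ℤ) * ((e : RO ℤ) * E.coeff R) = -toLaurent g ∧ mu ≠ 0 ∧ ∀ a ∈ US e R E, mu a = 0

section

variable {P : Type} [Fintype P] [DecidableEq P] {L : Type} [AddCommGroup L] [Module.Free ℤ L]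
  [Module.Finite ℤ L]

/-- A killing functional is not proportional to a functional `lam ≥ 0`. -/
theorem not_fac (hUA : UnitAS) {phi : L →+ (P → ℤ)} {E : AO ℤ L} (hD : DD phi E) {R : L} {i : P}
    (hi : co phi i R = 1) {e : (RO ℤ)ˣ} {mu lam : L →+ ℤ} (hR : R ∈ supp E) (hmu : mu ≠ 0)
    (hk : Kw phi E R i e mu) (hnn : ∀ a ∈ supp E, 0 ≤ lam a) (hlR : lam R = 0)
    (h : ∀ x, lam x = 0 → mu x = 0) (hap : E.coeff 0 + (e : RO ℤ) * E.coeff R ≠ 0) : False := by
  obtain ⟨t, u, hrev⟩ := H07.reversal hUA E hD.un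
  have h0 : E.coeff 0 ≠ 0 := hD.st.1
  have hco : ∀ a, E.coeff a ≠ 0 → E.coeff (t - a) ≠ 0 := by
    intro a ha h1
    rw [hrev] at h1
    have h2 := (mul_eq_zero.mp h1).resolve_left u.ne_zero
    exact ha (H59.rsh_eq_zero.mp h2)
  have hbt : ∀ a ∈ supp E, t - a ∈ supp E := fun a ha => hco a ha
  have ht : t ∈ supp E := by
    have h1 := hbt 0 h0
    rwa [sub_zero] at h1
  -- a positive level
  obtain ⟨a1, ha1, hm1⟩ : ∃ a ∈ supp E, mu a ≠ 0 := by
    by_contra hcon
    push Not at hcon
    exact hmu (zero_of_supp hD hcon)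
  have hl1 : 0 < lam a1 := by
    rcases (hnn a1 ha1).lt_or_eq with h1 | h1
    · exact h1
    · exact absurd (h a1 h1.symm) hm1
  have hlt : 0 < lam t := by
    have h2 := hnn (t - a1) (hbt a1 ha1)
    rw [map_sub] at h2
    linarith
  -- `mu t ≠ 0`
  have hmt : mu t ≠ 0 := by
    intro h0t
    have h3 : lam (lam t • a1 - lam a1 • t) = 0 := by
      rw [map_sub, map_zsmul, map_zsmul, smul_eq_mul, smul_eq_mul]; ring
    have h4 := h _ h3
    rw [map_sub, map_zsmul, map_zsmul, h0t, smul_zero, sub_zero, smul_eq_mul] at h4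
    rcases mul_eq_zero.mp h4 with h5 | h5
    · omega
    · exact hm1 h5
  have hRi : phi R i = 1 := hi
  have hti : phi t i = 1 := by
    rcases hD.bin t ht i with h1 | h1
    · exfalso
      rcases hD.bin _ (hbt R hR) i with h2 | h2
      · rw [map_sub, Pi.sub_apply, h1, hRi] at h2; omega
      · rw [map_sub, Pi.sub_apply, h1, hRi] at h2; omega
    · exact h1
  have h1 : E.coeff (t - R) + (e : RO ℤ) * E.coeff (t - R + R) = 0 := by
    refine hk.2 (t - R) ?_ ?_
    · change phi (t - R) i = 0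
      rw [map_sub, Pi.sub_apply, hti, hRi, sub_self]
    · rw [map_sub, hk.1, sub_zero]; exact hmt
  have h2 : E.coeff t = (u : RO ℤ) * rsh (E.coeff 0) := by
    have h3 := hrev 0
    rwa [sub_zero] at h3
  rw [sub_add_cancel, hrev, h2] at h1
  have h3 : (u : RO ℤ) * (rsh (E.coeff R) + (e : RO ℤ) * rsh (E.coeff 0)) = 0 := by
    linear_combination h1
  have h4 := (mul_eq_zero.mp h3).resolve_left u.ne_zero
  apply hap
  have h5 := congrArg (fun x => (e : RO ℤ) * rsh x) h4
  simp only [map_add, map_mul, map_zero, mul_zero] at h5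
  rw [H09.rsh_rsh, H09.rsh_rsh] at h5
  have h6 : rsh (e : RO ℤ) * (e : RO ℤ) = 1 := H24.rsh_unit e
  linear_combination h5 - E.coeff 0 * h6

/-- The completion at a facet through a ray with a killing functional. -/
theorem cplk (h2 : FacetS) (h3 : ComplIrrS) (h4 : ComplS) (h5 : RkS) (hE1 : E1S) (hMV : MVS)
    (hM1 : M1S) (hE2 : E2S) (hb1 : BdV ℤ 1 1) (hEz : EvzS) (hVco : VcoS) (hUA : UnitAS) {N : ℕ}
    (hN : 2 ≤ N) {p g : ℤ[X]} (hp0 : p.coeff 0 = N) (hg0 : g.coeff 0 = 1)
    {phi : L →+ (P → ℤ)} {E : AO ℤ L} (H : Bpd N p phi E) {lam : L →+ ℤ}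
    (hfac : FacF (supp E) lam) {R : L} (hR : Gk p g E R) (hlR : lam R = 0) :
    ∃ (phi' : Ker lam × ℤ →+ (Option P → ℤ)) (E' : AO ℤ (Ker lam × ℤ)) (R' : Ker lam × ℤ),
      Bpd N p phi' E' ∧ Gk p g E' R' ∧
        (supp E').ncard = 2 * {a | a ∈ supp E ∧ lam a = 0}.ncard := by
  classical
  obtain ⟨hl0, hnn, hrk⟩ := hfac
  have hD := H.dd
  have htwo : 2 ≤ Module.finrank ℤ L := by have := H.rkL; omega
  have hWD : WD phi ∅ Finset.univ E := by
    refine ⟨hD.inj, Finset.disjoint_empty_left _, fun a ha => ⟨fun j _ => hD.bin a ha j, ?_, ?_⟩,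
      hD.st, hD.un, hD.irr, hD.spn⟩
    · left; intro i hi; exact absurd hi (Finset.notMem_empty i)
    · intro j _ hj; exact absurd (Finset.mem_univ j) hj
  have hNn : Nn lam E := fun a ha => hnn a (Finsupp.mem_support_iff.mp ha)
  obtain ⟨c, B, hc, hcB, hBp, hBs, hcop, hBw, hBr, hBc⟩ :=
    h2 ℤ P L phi ∅ Finset.univ E lam hWD hNn hl0 hrk htwo (Or.inl ⟨N, H.cv⟩)
  obtain ⟨c1, c2, c3, c4, c5⟩ := h4 ℤ (Ker lam) B hBs
  have hB0 : B ≠ 0 := by
    rintro rfl
    exact hBs.1 rfl
  have hirr := h3 ℤ (Ker lam) B hB0 hcop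
  have hk1 : Module.finrank ℤ (Ker lam) + 1 = Module.finrank ℤ L := (h5 L L).1 lam hl0
  have hk2 : Module.finrank ℤ (Ker lam × ℤ) = Module.finrank ℤ (Ker lam) + 1 :=
    (h5 (Ker lam) L).2.2.2.2.2.2.2.2.2
  -- the coefficients of `B`
  have hcoef : ∀ x : Ker lam, E.coeff (x : L) = c * B.coeff x := by
    intro x
    have h7 := congrArg (fun G : AO ℤ (Ker lam) => G.coeff x) hcB
    simp only [res_coeff] at h7
    rw [h7, cst, AddMonoidAlgebra.coeff_single_zero_mul]
  have hsB : ∀ x : Ker lam, x ∈ supp B ↔ (x : L) ∈ supp E := by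
    intro x
    change B.coeff x ≠ 0 ↔ E.coeff (x : L) ≠ 0
    rw [hcoef]
    exact ⟨fun h => mul_ne_zero hc h, fun h => right_ne_zero_of_mul h⟩
  have hDD : DD (H20.phC phi lam) (compl B) := by
    refine ⟨?_, ?_, c1, c2, hirr, ?_⟩
    · -- injective
      rw [injective_iff_map_eq_zero]
      rintro ⟨a, k⟩ hx
      have hk : k = 0 := congrFun hx none
      subst hk
      have ha : (a : L) = 0 := by
        apply hD.inj
        rw [map_zero]
        funext j
        have h6 : phi (a : L) j + 0 = 0 := congrFun hx (some j)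
        rw [add_zero] at h6
        exact h6
      have ha' : a = 0 := Subtype.ext ha
      rw [ha']; rfl
    · -- binary
      intro x hx o
      rcases o with _ | j
      · change x.2 = 0 ∨ x.2 = 1
        rcases c4 x hx with h | h
        · exact Or.inl h.1
        · exact Or.inr h.1
      · change phi (x.1 : L) j + x.2 = 0 ∨ phi (x.1 : L) j + x.2 = 1
        rcases c4 x hx with h | h
        · rw [h.1, add_zero]
          exact hD.bin _ ((hsB _).mp h.2) j
        · rw [h.1]
          have h6 := hD.bin _ ((hsB _).mp h.2) j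
          have e1 : phi ((-x.1 : Ker lam) : L) j = -phi (x.1 : L) j := by
            rw [Submodule.coe_neg, map_neg, Pi.neg_apply]
          rw [e1] at h6
          omega
    · rw [c5, hBr, hk2, hk1]
  -- the class
  obtain ⟨N', hN'le, hN'⟩ := hBc.1 N H.cv
  obtain ⟨n', rfl⟩ := BP12.classV_nat hN'
  have hcV : ClassV n' ((compl B).coeff 0) := by rw [c3]; exact hN'
  have hNn' : n' = N := by
    have hle : n' ≤ N := by exact_mod_cast hN'le
    have h1 : 1 ≤ n' := by exact_mod_cast hN'.1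
    have hrL := H.rkL
    rcases Nat.lt_or_ge 1 n' with h | h
    · have h8 := hEz n' h (Option P) (Ker lam × ℤ) (H20.phC phi lam) (compl B) hDD hcV
      have h9 : Module.finrank ℤ (Ker lam × ℤ) ≤ 2 * n' := by exact_mod_cast h8
      omega
    · have h10 : n' = 1 := le_antisymm h h1
      subst h10
      have h8 := hb1 (Option P) (Ker lam × ℤ) (H20.phC phi lam) (compl B) hDD
        (by simpa using hcV)
      have h9 : Module.finrank ℤ (Ker lam × ℤ) ≤ 1 := by exact_mod_cast h8
      omega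
  rw [hNn'] at hN' hcV
  have hE0 : E.coeff 0 = c * B.coeff 0 := hcoef 0
  have hcu : IsUnit c := by
    refine BP12.unit_of_cls hE1 hMV hM1 (b := B.coeff 0) (N := N) ?_ hN' ?_
    · rw [← hE0]; exact H.cv
    · rw [← hE0]; exact (hE2 ℤ P L phi E hD htwo).1
  obtain ⟨cu, hcu'⟩ := hcu
  refine ⟨H20.phC phi lam, compl B, (⟨R, hlR⟩, 0), ⟨hDD, hcV, by rw [hk2, hk1]; exact H.rkL, ?_⟩,
    ?_, ?_⟩
  · obtain ⟨w, hw⟩ := H.e0
    refine ⟨w * cu, ?_⟩
    rw [c3, Units.val_mul, hcu', mul_assoc, ← hE0, hw]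
  · obtain ⟨hRr, w, e, mu, hw0, hwR, hmu0, hkU⟩ := hR
    have hray : Ray (compl B) ((⟨R, hlR⟩ : Ker lam), (0 : ℤ)) := by
      obtain ⟨hR1, hR2, mu, hmR, hmp⟩ := hRr
      set M0 : ℤ := 1 + ∑ a ∈ E.coeff.support, |mu a| with hM0
      have hMle : ∀ a ∈ supp E, |mu a| < M0 := by
        intro a ha
        have : |mu a| ≤ ∑ a ∈ E.coeff.support, |mu a| :=
          Finset.single_le_sum (f := fun a => |mu a|) (fun _ _ => abs_nonneg _)
            (Finsupp.mem_support_iff.mpr ha)
        rw [hM0]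
        linarith
      refine ⟨?_, ?_, ?_⟩
      · rw [H59.supp_compl]
        exact Or.inl ⟨rfl, (hsB _).mpr hR1⟩
      · intro h0
        apply hR2
        have := congrArg (fun x : Ker lam × ℤ => (x.1 : L)) h0
        exact this
      · refine ⟨{ toFun := fun x => mu (x.1 : L) + x.2 * M0
                  map_zero' := by simp
                  map_add' := fun x y => by
                    simp only [Prod.fst_add, Prod.snd_add, Submodule.coe_add, map_add]
                    ring }, ?_, ?_⟩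
        · change mu R + 0 * M0 = 0
          rw [hmR, zero_mul, add_zero]
        · rintro ⟨x, k⟩ hx hx0 hxR
          change 0 < mu (x : L) + k * M0
          rcases c4 _ hx with ⟨hk, hxB⟩ | ⟨hk, hxB⟩
          · change k = 0 at hk
            subst hk
            rw [zero_mul, add_zero]
            refine hmp _ ((hsB _).mp hxB) (fun h => hx0 ?_) (fun h => hxR ?_)
            · exact Prod.ext (Subtype.ext h) rfl
            · exact Prod.ext (Subtype.ext h) rfl
          · change k = 1 at hk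
            subst hk
            have h11 := hMle _ ((hsB _).mp hxB)
            have e1 : mu ((-x : Ker lam) : L) = -mu (x : L) := by
              rw [Submodule.coe_neg, map_neg]
            change |mu ((-x : Ker lam) : L)| < M0 at h11
            rw [e1, abs_neg] at h11
            have := (abs_lt.1 h11).1
            linarith
    -- a port
    obtain ⟨i, hi⟩ := ex_port hD.inj (hD.bin R hRr.1) hRr.2.1
    have hi' : co phi i R = 1 := hi
    have hk := (kw_us hVco hD.inj hD.bin hRr.1 hRr.2.1 hi').mpr hkU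
    obtain ⟨mu', hmu'⟩ : ∃ mu' : Ker lam × ℤ →+ ℤ, mu' = (mu.comp (incl (Ker lam))).comp
      (AddMonoidHom.fst (Ker lam) ℤ) := ⟨_, rfl⟩
    have hmv : ∀ x : Ker lam × ℤ, mu' x = mu (x.1 : L) := fun x => by rw [hmu']; rfl
    have hBR : (compl B).coeff ((⟨R, hlR⟩ : Ker lam), (0 : ℤ)) = B.coeff ⟨R, hlR⟩ := by
      rw [H59.compl_coeff]
      simp
    have hap : E.coeff 0 + (e : RO ℤ) * E.coeff R ≠ 0 := by
      intro h0
      have h8 : toLaurent (p - g) = (0 : RO ℤ) := by
        rw [map_sub]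
        linear_combination (w : RO ℤ) * h0 - hw0 - hwR
      have h9 := congrArg (fun q : ℤ[X] => q.coeff 0)
        (toLaurent_injective (h8.trans (map_zero _).symm))
      simp only [coeff_sub, coeff_zero, hp0, hg0] at h9
      omega
    refine ⟨hray, w * cu, e, mu', ?_, ?_, ?_, ?_⟩
    · rw [c3, Units.val_mul, hcu', mul_assoc, ← hE0, hw0]
    · rw [hBR, Units.val_mul, hcu']
      have h8 : (w : RO ℤ) * c * ((e : RO ℤ) * B.coeff ⟨R, hlR⟩) =
          (w : RO ℤ) * ((e : RO ℤ) * (c * B.coeff ⟨R, hlR⟩)) := by ring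
      rw [h8, ← hcoef ⟨R, hlR⟩]
      exact hwR
    · intro h0
      refine not_fac hUA hD hi' hRr.1 hmu0 hk hnn hlR (fun x hx => ?_) hap
      have h8 := hmv ((⟨x, hx⟩ : Ker lam), (0 : ℤ))
      rw [h0] at h8
      exact h8.symm
    · have hip : co (H20.phC phi lam) (some i) ((⟨R, hlR⟩ : Ker lam), (0 : ℤ)) = 1 := by
        change phi R i + 0 = 1
        rw [hi, add_zero]
      refine (kw_us hVco hDD.inj hDD.bin hray.1 hray.2.1 hip).mp ⟨?_, ?_⟩
      · rw [hmv]; exact hk.1
      · rintro ⟨x, k⟩ hx hxm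
        rw [hmv] at hxm
        change mu (x : L) ≠ 0 at hxm
        have hxi : phi (x : L) i + k = 0 := hx
        change (compl B).coeff (x, k) + (e : RO ℤ) *
          (compl B).coeff ((x, k) + ((⟨R, hlR⟩ : Ker lam), (0 : ℤ))) = 0
        have hadd : ((x, k) + ((⟨R, hlR⟩ : Ker lam), (0 : ℤ)) : Ker lam × ℤ) =
            (x + ⟨R, hlR⟩, k) := Prod.ext rfl (add_zero k)
        rw [hadd, H59.compl_coeff, H59.compl_coeff]
        by_cases hk0 : k = 0
        · subst hk0
          rw [if_pos rfl, if_pos rfl]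
          have h8 := hk.2 (x : L) (by change phi (x : L) i = 0; rw [add_zero] at hxi; exact hxi) hxm
          have h9 : c * (B.coeff x + (e : RO ℤ) * B.coeff (x + ⟨R, hlR⟩)) = 0 := by
            have h10 := hcoef x
            have h11 := hcoef (x + ⟨R, hlR⟩)
            have h12 : ((x + ⟨R, hlR⟩ : Ker lam) : L) = (x : L) + R := rfl
            rw [h12] at h11
            change E.coeff (x : L) + (e : RO ℤ) * E.coeff ((x : L) + R) = 0 at h8
            rw [h10, h11] at h8
            linear_combination h8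
          exact (mul_eq_zero.mp h9).resolve_left hc
        · by_cases hk1' : k = 1
          · subst hk1'
            rw [if_neg one_ne_zero, if_pos rfl, if_neg one_ne_zero, if_pos rfl]
            -- `y = -x - R`
            obtain ⟨y, hy⟩ : ∃ y : Ker lam, y = -(x + ⟨R, hlR⟩) := ⟨_, rfl⟩
            have hyR : y + ⟨R, hlR⟩ = -x := by rw [hy]; abel
            have hyL : (y : L) = -((x : L) + R) := by rw [hy]; rfl
            have h8 := hk.2 (y : L) (by
                change phi (y : L) i = 0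
                rw [hyL, map_neg, map_add, Pi.neg_apply, Pi.add_apply, hi]
                omega) (by
                rw [hyL, map_neg, map_add, hk.1, add_zero]
                exact neg_ne_zero.mpr hxm)
            have h9 : c * (B.coeff y + (e : RO ℤ) * B.coeff (-x)) = 0 := by
              have h10 := hcoef y
              have h11 := hcoef (y + ⟨R, hlR⟩)
              have h12 : ((y + ⟨R, hlR⟩ : Ker lam) : L) = (y : L) + R := rfl
              rw [h12, hyR] at h11
              change E.coeff (y : L) + (e : RO ℤ) * E.coeff ((y : L) + R) = 0 at h8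
              rw [h10, h11] at h8
              linear_combination h8
            have h10 := (mul_eq_zero.mp h9).resolve_left hc
            rw [← hy]
            have h11 := congrArg (fun q => (e : RO ℤ) * rsh q) h10
            simp only [map_add, map_mul, map_zero, mul_zero] at h11
            have h12 : rsh (e : RO ℤ) * (e : RO ℤ) = 1 := H24.rsh_unit e
            linear_combination h11 - rsh (B.coeff (-x)) * h12
          · rw [if_neg hk0, if_neg hk1', if_neg hk0, if_neg hk1', mul_zero, add_zero]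
  · -- the number of exponents
    have hfin : (supp B).Finite := by
      refine (B.coeff.support.finite_toSet).subset fun x hx => ?_
      exact Finsupp.mem_support_iff.mpr hx
    have hE : supp (compl B) = (fun x : Ker lam => (x, (0 : ℤ))) '' supp B ∪
        (fun x : Ker lam => (-x, (1 : ℤ))) '' supp B := by
      ext x
      rw [H59.supp_compl]
      constructor
      · rintro (h | h)
        · left
          exact ⟨x.1, h.2, Prod.ext rfl h.1.symm⟩
        · right
          exact ⟨-x.1, h.2, Prod.ext (neg_neg x.1) h.1.symm⟩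
      · rintro (⟨y, hy, rfl⟩ | ⟨y, hy, rfl⟩)
        · exact Or.inl ⟨rfl, hy⟩
        · refine Or.inr ⟨rfl, ?_⟩
          change - -y ∈ supp B
          rw [neg_neg]; exact hy
    have hF : {a | a ∈ supp E ∧ lam a = 0} = (fun x : Ker lam => (x : L)) '' supp B := by
      ext a
      constructor
      · rintro ⟨h, h'⟩
        exact ⟨⟨a, h'⟩, (hsB ⟨a, h'⟩).mpr h, rfl⟩
      · rintro ⟨x, hx, rfl⟩
        exact ⟨(hsB x).mp hx, x.2⟩
    rw [hE, hF, Set.ncard_union_eq ?_ (hfin.image _) (hfin.image _),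
      Set.ncard_image_of_injective _ ?_, Set.ncard_image_of_injective _ ?_,
      Set.ncard_image_of_injective _ Subtype.coe_injective]
    · ring
    · intro x y h
      exact neg_injective (congrArg Prod.fst h)
    · intro x y h
      exact congrArg Prod.fst h
    · rw [Set.disjoint_left]
      rintro _ ⟨x, -, rfl⟩ ⟨y, -, h⟩
      exact absurd (congrArg Prod.snd h) one_ne_zero

/-- restriction to the lattice of the exponents. -/
theorem gk_res (hVco : VcoS) {p g : ℤ[X]} {phi : L →+ (P → ℤ)} {E : AO ℤ L} (hD : DD phi E) {R : L}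
    (hR : Gk p g E R) (K : Submodule ℤ L) (hK : K = Submodule.span ℤ (supp E))
    (hD' : DD (phi.comp (incl K)) (res K E)) : ∃ R' : K, (R' : L) = R ∧ Gk p g (res K E) R' := by
  obtain ⟨hRr, w, e, mu, hw0, hwR, hmu0, hkU⟩ := hR
  have hRK : R ∈ K := by rw [hK]; exact Submodule.subset_span hRr.1
  have hray : Ray (res K E) (⟨R, hRK⟩ : K) := by
    refine ⟨hRr.1, ?_, ?_⟩
    · intro h0
      exact hRr.2.1 (congrArg (fun x : K => (x : L)) h0)
    · obtain ⟨nu, h1, h2⟩ := hRr.2.2
      refine ⟨nu.comp (incl K), h1, fun a ha a0 aR => h2 (a : L) ha ?_ ?_⟩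
      · intro h; exact a0 (Subtype.ext h)
      · intro h; exact aR (Subtype.ext h)
  obtain ⟨i, hi⟩ := ex_port hD.inj (hD.bin R hRr.1) hRr.2.1
  have hi' : co phi i R = 1 := hi
  have hk := (kw_us hVco hD.inj hD.bin hRr.1 hRr.2.1 hi').mpr hkU
  refine ⟨⟨R, hRK⟩, rfl, hray, w, e, mu.comp (incl K), hw0, hwR, ?_, ?_⟩
  · intro h0
    apply hmu0
    apply zero_of_supp hD
    intro a ha
    have haK : a ∈ K := by rw [hK]; exact Submodule.subset_span ha
    exact congrArg (fun F : K →+ ℤ => F ⟨a, haK⟩) h0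
  · have hip : co (phi.comp (incl K)) i (⟨R, hRK⟩ : K) = 1 := hi
    refine (kw_us hVco hD'.inj hD'.bin hray.1 hray.2.1 hip).mp ⟨hk.1, fun x hx hxm => ?_⟩
    exact hk.2 (x : L) hx hxm

end

/-- REDUCTION: facet ports at all `g`-rays with a killing functional. -/
theorem redk (h2 : FacetS) (h3 : ComplIrrS) (h4 : ComplS) (h5 : RkS) (hE1 : E1S) (hMV : MVS)
    (hM1 : M1S) (hE2 : E2S) (hb1 : BdV ℤ 1 1) (hEz : EvzS) (hVco : VcoS) (hUA : UnitAS)
    (hD3 : D3S) (hSy : SymLS)
    (hL : LatResS) {N : ℕ} (hN : 2 ≤ N) {p g : ℤ[X]} (hp0 : p.coeff 0 = N) (hg0 : g.coeff 0 = 1)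
    {P L : Type} [Fintype P] [DecidableEq P]
    [AddCommGroup L] [Module.Free ℤ L] [Module.Finite ℤ L] {phi : L →+ (P → ℤ)} {E : AO ℤ L}
    (H : Bpd N p phi E) {S : L} (hS : Gk p g E S) :
    ∃ (P' L' : Type) (_ : Fintype P') (_ : DecidableEq P') (_ : AddCommGroup L')
      (_ : Module.Free ℤ L') (_ : Module.Finite ℤ L') (phi' : L' →+ (P' → ℤ)) (E' : AO ℤ L')
      (S' : L'), Bpd N p phi' E' ∧ Gk p g E' S' ∧ Submodule.span ℤ (supp E') = ⊤ ∧
        (∀ R, Gk p g E' R → ImS phi' R) ∧
        ∀ (lam : L' →+ ℤ) (R : L'), FacF (supp E') lam → Gk p g E' R → lam R = 0 →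
          ∃ (i : P') (m : ℤ), 0 < m ∧ ∀ a, lam a = m * phi' a i := by
  classical
  set Q : ℕ → Prop := fun n => ∃ (P' L' : Type) (_ : Fintype P') (_ : DecidableEq P')
    (_ : AddCommGroup L') (_ : Module.Free ℤ L') (_ : Module.Finite ℤ L')
    (phi' : L' →+ (P' → ℤ)) (E' : AO ℤ L') (S' : L'), Bpd N p phi' E' ∧ Gk p g E' S' ∧
      (supp E').ncard = n with hQ
  have hex : ∃ n, Q n := ⟨_, P, L, inferInstance, inferInstance, inferInstance, inferInstance,
    inferInstance, phi, E, S, H, hS, rfl⟩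
  obtain ⟨P1, L1, i1, i2, i3, i4, i5, phi1, E1, S1, hE1', hS1, hn1⟩ := Nat.find_spec hex
  obtain ⟨K, hK⟩ : ∃ K : Submodule ℤ L1, K = Submodule.span ℤ (supp E1) := ⟨_, rfl⟩
  obtain ⟨H2, htop⟩ := BP12.bpd_res hL hE1' K hK
  obtain ⟨S2, -, hS2⟩ := gk_res hVco hE1'.dd hS1 K hK H2.dd
  set D : AO ℤ K := res K E1 with hD
  have hnD : (supp D).ncard ≤ Nat.find hex := by
    rw [← hn1]
    have hfin : (supp E1).Finite := by
      refine E1.coeff.support.finite_toSet.subset fun a ha => ?_
      exact Finsupp.mem_support_iff.mpr ha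
    refine Set.ncard_le_ncard_of_injOn (fun a : K => (a : L1)) ?_ ?_ hfin
    · intro a ha
      exact ha
    · intro a _ b _ h
      exact Subtype.ext h
  -- facets through the rays `R`
  have htwo : ∀ (lam : K →+ ℤ) (R : K), FacF (supp D) lam → Gk p g D R → lam R = 0 →
      ∃ m : ℤ, TwoL (supp D) lam m := by
    intro lam R hlam hR hlR
    obtain ⟨phi', E', R', hB', hR', hn'⟩ :=
      cplk h2 h3 h4 h5 hE1 hMV hM1 hE2 hb1 hEz hVco hUA hN hp0 hg0 H2 hlam hR hlR
    have hmin : Nat.find hex ≤ (supp E').ncard :=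
      Nat.find_min' hex ⟨Option P1, Ker lam × ℤ, inferInstance, inferInstance, inferInstance,
        inferInstance, inferInstance, phi', E', R', hB', hR', rfl⟩
    refine hSy ℤ P1 K (phi1.comp (incl K)) D lam H2.dd hlam.1 hlam.2.1 ?_
    rw [← hn']
    exact hnD.trans hmin
  set Zs : (K →+ ℤ) → Finset K := fun lam => D.coeff.support.filter (fun a => lam a = 0) with hZs
  have hZmem : ∀ (lam : K →+ ℤ) (a : K), a ∈ Zs lam ↔ a ∈ supp D ∧ lam a = 0 := by
    intro lam a
    rw [hZs]
    simp only [Finset.mem_filter, Finsupp.mem_support_iff]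
    rfl
  set Qf : Finset K → Prop := fun F => ∃ lam : K →+ ℤ,
    (∀ a ∈ supp D, lam a = 0 ∨ lam a = 1) ∧ Zs lam = F with hQf
  set FF : Finset (Finset K) := (D.coeff.support.powerset).filter Qf with hFF
  have hFQ : ∀ F : {F // F ∈ FF}, Qf F.1 := fun F => (Finset.mem_filter.mp F.2).2
  choose lf hlf using hFQ
  have key : ∀ (lam : K →+ ℤ) (R : K), FacF (supp D) lam → Gk p g D R → lam R = 0 →
      ∃ (F : {F // F ∈ FF}) (m : ℤ), 0 < m ∧ ∀ x, lam x = m * lf F x := by
    intro lam R hlam hR hlR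
    obtain ⟨m, hm⟩ := htwo lam R hlam hR hlR
    obtain ⟨l0, hl0, hl1⟩ := H63.E0.two_norm htop hm
    have hmemF : Zs l0 ∈ FF := by
      rw [hFF, Finset.mem_filter]
      refine ⟨Finset.mem_powerset.mpr (Finset.filter_subset _ _), l0, hl0, rfl⟩
    refine ⟨⟨Zs l0, hmemF⟩, m, hm.1, fun x => ?_⟩
    obtain ⟨hf2, hf3⟩ := hlf ⟨Zs l0, hmemF⟩
    have : l0 = lf ⟨Zs l0, hmemF⟩ := by
      refine H63.E0.fun_ext_span htop fun a ha => ?_
      have h1 : l0 a = 0 ↔ lf ⟨Zs l0, hmemF⟩ a = 0 := by
        have e1 := hZmem l0 a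
        have e2 := hZmem (lf ⟨Zs l0, hmemF⟩) a
        rw [hf3] at e2
        change a ∈ Zs l0 ↔ _ at e2
        constructor
        · intro h
          exact (e2.mp (e1.mpr ⟨ha, h⟩)).2
        · intro h
          exact (e1.mp (e2.mpr ⟨ha, h⟩)).2
      rcases hl0 a ha with h | h
      · rw [h, (h1.mp h)]
      · rcases hf2 a ha with h' | h'
        · rw [h1.mpr h', h']
        · rw [h, h']
    rw [← this]
    exact hl1 x
  set phi' : K →+ (P1 ⊕ {F // F ∈ FF} → ℤ) :=
    { toFun := fun a => Sum.elim (fun j => phi1 (a : L1) j) (fun F => lf F a)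
      map_zero' := by
        funext o
        rcases o with o | o <;> simp
      map_add' := fun a b => by
        funext o
        rcases o with o | o <;> simp } with hphi
  have hB : Bpd N p phi' D := by
    refine ⟨⟨?_, ?_, H2.dd.st, H2.dd.un, H2.dd.irr, H2.dd.spn⟩, H2.cv, H2.rkL, H2.e0⟩
    · intro x y hxy
      apply H2.dd.inj
      funext j
      exact congrFun hxy (Sum.inl j)
    · intro a ha o
      rcases o with j | F
      · exact H2.dd.bin a ha j
      · exact (hlf F).1 a ha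
  refine ⟨P1 ⊕ {F // F ∈ FF}, K, inferInstance, inferInstance, inferInstance, inferInstance,
    inferInstance, phi', D, S2, hB, hS2, htop, ?_, ?_⟩
  · intro R hR x hx
    -- a port of `R`
    have hbR : Bin (phi1.comp (incl K)) R := H2.dd.bin R hR.1.1
    obtain ⟨i0, hi0⟩ : ∃ i0 : P1, (phi1.comp (incl K)) R i0 = 1 := by
      by_contra hcon
      push Not at hcon
      apply hR.1.2.1
      apply H2.dd.inj
      rw [map_zero]
      funext j
      rcases hbR j with h | h
      · exact h
      · exact absurd h (hcon j)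
    set k : K →+ ℤ := co (phi1.comp (incl K)) i0 with hk
    have hkR : k R = 1 := hi0
    refine ⟨k x, ?_⟩
    by_contra hne
    obtain ⟨lam, hfac, hlR, hlx⟩ := BP12.facet_thr hD3 h5 H2.dd.spn hR.1 hkR hne
    obtain ⟨F, m, hm, hF⟩ := key lam R hfac hR hlR
    have h6 : lf F R = 0 := by
      have := hF R
      rw [hlR] at this
      rcases mul_eq_zero.mp this.symm with h | h
      · exact absurd h hm.ne'
      · exact h
    have h7 : lf F x = 0 := hx (Sum.inr F) h6
    apply hlx
    rw [hF x, h7, mul_zero]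
  · intro lam R hfac hR hlR
    obtain ⟨F, m, hm, hF⟩ := key lam R hfac hR hlR
    exact ⟨Sum.inr F, m, hm, hF⟩

end Pool.Agent.B5.BP80
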