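import Pool.Agent.Lib.MP_b5021c_nt.BP.H80.Avx
import Pool.Agent.Lib.MP_b5021c_nt.BP.H80.Exg
import Pool.Agent.Lib.MP_b5021c_nt.BP.H80.Cnt
import Pool.Agent.Lib.MP_b5021c_nt.UF.H07.W
import Pool.Agent.Lib.MP_b5021c_nt.E.H07.Mcf
import Pool.Agent.Lib.MP_b5021c_nt.B.H09.Sha

/-!
# Board b5, exports of (BPX) (helper80): the specialisation `z = ±1` and the count (row NOL)
-/

namespace Pool.Agent.B5.BP80

open scoped LaurentPolynomial
open Polynomial
open Pool.Agent.B5 Pool.Agent.B5.H83 Pool.Agent.B5.Dcm Pool.Agent.B5.Uf07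

set_option linter.unusedSectionVars false

/-- `±1` on the circle. -/
noncomputable def cz (u : ℤˣ) : Circle := if u = 1 then 1 else -1

theorem cz_coe (u : ℤˣ) : (cz u : ℂ) = ((u : ℤ) : ℂ) := by
  unfold cz
  rcases Int.units_eq_one_or u with h | h
  · rw [if_pos h, h]; simp
  · rw [if_neg (by rw [h]; decide), h]; simp

theorem evR_kap (z : Circle) (u : ℤˣ) (q : RO ℤ) : evR z (kap u q) = evR (cz u) q := by
  have h : (evR z).comp (kap u) = evR (cz u) := by
    refine AddMonoidAlgebra.ringHom_ext ?_ ?_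
    · intro b
      change evR z (kap u (mz 0 b)) = evR (cz u) (mz 0 b)
      rw [kap_mz, Dcm.evR_mz, Dcm.evR_mz]
      simp
    · intro n
      change evR z (kap u (mz n 1)) = evR (cz u) (mz n 1)
      rw [kap_mz, Dcm.evR_mz, Dcm.evR_mz, Circle.coe_zpow, Circle.coe_zpow, cz_coe, zpow_zero,
        mul_one, one_mul, map_one, one_mul]
      change (((u ^ n : ℤˣ) : ℤ) : ℂ) = ((u : ℤ) : ℂ) ^ n
      have h1 : ∀ v : ℤˣ, (((v : ℤˣ) : ℤ) : ℂ) = ((Units.map (Int.castRingHom ℂ).toMonoidHom v :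
        ℂˣ) : ℂ) := fun v => rfl
      rw [h1, h1, map_zpow, Units.val_zpow_eq_zpow_val]
  exact congrArg (fun f : RO ℤ →+* ℂ => f q) h

theorem rsh_kap (u : ℤˣ) (q : RO ℤ) : kap u (rsh q) = rsh (kap u q) := by
  have hr : ∀ n c : ℤ, rsh (mz n c : RO ℤ) = mz (-n) c := by
    intro n c
    rw [rsh_int]
    have h1 : (mz n c : RO ℤ) = LaurentPolynomial.C c * LaurentPolynomial.T n := by
      rw [← LaurentPolynomial.single_eq_C_mul_T]
      rfl
    rw [h1, map_mul, LaurentPolynomial.invert_C, LaurentPolynomial.invert_T,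
      ← LaurentPolynomial.single_eq_C_mul_T]
    rfl
  have hu : ∀ n : ℤ, (u ^ (-n) : ℤˣ) = u ^ n := by
    intro n
    rcases Int.units_eq_one_or u with h | h
    · rw [h, one_zpow, one_zpow]
    · rw [zpow_neg, inv_eq_iff_mul_eq_one, ← mul_zpow, h]
      simp
  have h : (kap u).comp rsh = (rsh).comp (kap u) := by
    refine AddMonoidAlgebra.ringHom_ext ?_ ?_
    · intro b
      change kap u (rsh (mz 0 b)) = rsh (kap u (mz 0 b))
      rw [hr, kap_mz, kap_mz, hr, neg_zero]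
    · intro n
      change kap u (rsh (mz n 1)) = rsh (kap u (mz n 1))
      rw [hr, kap_mz, kap_mz, hr, hu, neg_zero]
  exact congrArg (fun f : RO ℤ →+* RO ℤ => f q) h

theorem mz0_ne {c : ℤ} (hc : c ≠ 0) : (mz 0 c : RO ℤ) ≠ 0 := by
  intro h
  have h1 := congrArg (fun q : RO ℤ => q.coeff 0) h
  change (AddMonoidAlgebra.single (0 : ℤ) c : RO ℤ).coeff 0 = 0 at h1
  rw [AddMonoidAlgebra.coeff_single, Finsupp.single_eq_same] at h1
  exact hc h1

section

variable {K : Type} [AddCommGroup K]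

theorem kapA_sub {u : ℤˣ} {D : AO ℤ K} {a : K} (ha : a ∈ supp (kapA u D)) : a ∈ supp D := by
  intro h
  apply ha
  have h1 : D.coeff a = 0 := h
  rw [kapA_coeff, h1, map_zero]

theorem kapA_spec (z : Circle) (u : ℤˣ) (D : AO ℤ K) : spec z (kapA u D) = spec (cz u) D := by
  apply AddMonoidAlgebra.ext
  apply Finsupp.ext
  intro a
  rw [spec_coeff, spec_coeff, kapA_coeff, evR_kap]

theorem kapA_sharp (u : ℤˣ) (D : AO ℤ K) : kapA u (sharp D) = sharp (kapA u D) := by
  apply AddMonoidAlgebra.ext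
  apply Finsupp.ext
  intro a
  rw [kapA_coeff, sharp_coeff', sharp_coeff', kapA_coeff, rsh_kap]

theorem kapA_unitary (u : ℤˣ) {D : AO ℤ K} (h : Unitary D) : Unitary (kapA u D) := by
  obtain ⟨v, hv⟩ := h
  refine ⟨Units.map (kapA u).toMonoidHom v, ?_⟩
  rw [← kapA_sharp]
  change kapA u (sharp D) * kapA u (v : AO ℤ K) = _
  rw [← map_mul, hv]

theorem kapA_stable [Module.Free ℤ K] [Module.Finite ℤ K] (hSt : StSpecS) (u : ℤˣ) {D : AO ℤ K}
    (h : Stable D) {c : ℤ} (hc : c ≠ 0) (h0 : kap u (D.coeff 0) = mz 0 c) :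
    Stable (kapA u D) := by
  have h1 : evR (cz u) (D.coeff 0) ≠ 0 := by
    rw [← evR_kap 1 u, h0, Dcm.evR_mz, zpow_zero, Circle.coe_one, mul_one]
    intro h2
    exact hc (by exact_mod_cast (show ((c : ℤ) : ℂ) = 0 from h2))
  obtain ⟨a1, -, -⟩ := hSt ℤ K D
  obtain ⟨-, b2, -⟩ := hSt ℤ K (kapA u D)
  have h2 := a1 h (cz u) h1
  refine b2 ?_ ?_ fun z _ => by rw [kapA_spec]; exact h2
  · rw [kapA_coeff, h0]
    exact mz0_ne hc
  · obtain ⟨-, lam, hl, -⟩ := h
    refine ⟨lam, fun a ha ha0 => hl a ?_ ha0⟩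
    rw [Finsupp.mem_support_iff] at ha ⊢
    exact kapA_sub ha

theorem kap_id {u : ℤˣ} {q : RO ℤ} (h : ∀ k, q.coeff k ≠ 0 → k = 0) : kap u q = q := by
  have h1 := kap_one_exp u h
  rw [zpow_zero] at h1
  have h2 : (mz 0 (((1 : ℤˣ) : ℤ)) : RO ℤ) = 1 := rfl
  rw [h2, one_mul] at h1
  exact h1

end

section

variable {P : Type} [Fintype P] [DecidableEq P] {K : Type} [AddCommGroup K] [Module.Free ℤ K]
  [Module.Finite ℤ K]

theorem thin_bin {psi : K →+ (P → ℤ)} (hpsi : Function.Injective psi) {S : Set K}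
    (h : ∀ a ∈ S, Bin psi a) : Thin S := by
  intro a ha b hb m n hm hn hmn
  apply hpsi
  funext j
  have h1 := congrArg (fun x => psi x j) hmn
  simp only [map_nsmul, Pi.smul_apply, nsmul_eq_mul] at h1
  have hm0 : (m : ℤ) ≠ 0 := by exact_mod_cast hm.ne'
  have hn0 : (n : ℤ) ≠ 0 := by exact_mod_cast hn.ne'
  rcases h a ha j with h2 | h2 <;> rcases h b hb j with h3 | h3 <;> rw [h2, h3] at h1 ⊢
  · exfalso
    rw [mul_zero, mul_one] at h1
    exact hn0 h1.symm
  · exfalso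
    rw [mul_zero, mul_one] at h1
    exact hm0 h1

theorem rk_iUnion (hRk : RkS) {n : ℕ} (G : Fin n → AO ℤ K) (s : Finset (Fin n)) :
    rk (⋃ i ∈ s, supp (G i)) ≤ ∑ i ∈ s, rk (supp (G i)) := by
  classical
  induction s using Finset.induction_on with
  | empty =>
    simp only [Finset.notMem_empty, Set.iUnion_of_empty, Set.iUnion_empty, Finset.sum_empty]
    unfold rk
    rw [Submodule.span_empty]
    simp
  | insert i s hi ih =>
    rw [Finset.sum_insert hi, Finset.set_biUnion_insert]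
    exact ((hRk K K).2.2.2.2.2.1 _ _).trans (Nat.add_le_add_left ih _)

/-- THE COUNT: a stable unitary binary element with a constant apex and without small factors. -/
theorem cnt_no (hFa : FactS) (hW : WWfS) (hC : Coeff0S) (hR : ResWDS) (hRS : ResStS)
    (hE1 : E1S) (hMV : MVS) (hMm : MmulS) (hC4 : C4S) (hEz : EvzS) (hRk : RkS)
    {psi : K →+ (P → ℤ)} (hpsi : Function.Injective psi) {V : AO ℤ K}
    (hbin : ∀ a ∈ supp V, Bin psi a) (hst : Stable V) (hun : Unitary V) {n0 : ℕ} {c : ℤ}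
    (hn0 : 1 ≤ n0) (hc : c.natAbs = n0) (hV0 : V.coeff 0 = mz 0 c)
    (hns : ∀ (b : K) (e : (RO ℤ)ˣ), b ≠ 0 →
      ¬ (1 - AddMonoidAlgebra.single b (e : RO ℤ)) ∣ V)
    (hrk : 2 * n0 < rk (supp V)) : False := by
  classical
  obtain ⟨c', n, G, hc', hVG, hV00, hG, hK⟩ := H07.facDD hFa hW hC hR hRS hpsi hbin hst hun
  have hcls : ClassV (n0 : ℝ) (V.coeff 0) := by
    have h1 : ‖(Coef.emb c : ℂ)‖ = (n0 : ℝ) := by
      change ‖((c : ℤ) : ℂ)‖ = _
      rw [Complex.norm_intCast, ← hc, Nat.cast_natAbs, Int.cast_abs]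
    refine ⟨by exact_mod_cast hn0, 0, C c, ?_, by rw [coeff_C_zero]; exact h1, ?_⟩
    · rw [hV0, LaurentPolynomial.T_zero, one_mul, toLaurent_C]
      rfl
    · intro z _ h2
      rw [map_C, eval_C] at h2
      rw [h2, norm_zero] at h1
      have : (1 : ℝ) ≤ n0 := by exact_mod_cast hn0
      linarith
  rw [hV00] at hcls
  have hG0 : ∀ i, (G i).coeff 0 ≠ 0 := fun i => (hG i).2.2.1.1
  obtain ⟨Nc, -, hcV, -, -⟩ := (hE1 ℤ).1 _ _ _ hcls
  obtain ⟨c0, hc0, rfl⟩ := O1.H12.classV_nat hcV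
  have hgV : ∀ i, ∃ m : ℕ, 1 ≤ m ∧ ClassV (m : ℝ) ((G i).coeff 0) := by
    intro i
    have h3 : c' * ∏ i, (G i).coeff 0 =
        (G i).coeff 0 * (c' * ∏ k ∈ Finset.univ.erase i, (G k).coeff 0) := by
      rw [← Finset.mul_prod_erase Finset.univ (fun i => (G i).coeff 0) (Finset.mem_univ i)]
      ring
    rw [h3] at hcls
    obtain ⟨N1, -, h4, -, -⟩ := (hE1 ℤ).1 _ _ _ hcls
    obtain ⟨m, hm, rfl⟩ := O1.H12.classV_nat h4
    exact ⟨m, hm, h4⟩
  choose Ni hNi1 hNiV using hgV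
  have hMc : M c' = c0 := ((hMV ℤ).1 _ _ hcV).2
  have hMi : ∀ i, M ((G i).coeff 0) = Ni i := fun i => ((hMV ℤ).1 _ _ (hNiV i)).2
  have hMp : ∀ s : Finset (Fin n), M (∏ i ∈ s, (G i).coeff 0) = ∏ i ∈ s, (Ni i : ℝ) := by
    intro s
    induction s using Finset.induction_on with
    | empty =>
      rw [Finset.prod_empty, Finset.prod_empty]
      exact (hMm ℤ).2.2 1 isUnit_one
    | insert i s hi ih =>
      rw [Finset.prod_insert hi, Finset.prod_insert hi,
        (hMm ℤ).1 _ _ (hG0 i) (Finset.prod_ne_zero_iff.mpr fun k _ => hG0 k), ih, hMi]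
  obtain ⟨N', hN'⟩ : ∃ N' : ℕ, N' = ∏ i, Ni i := ⟨_, rfl⟩
  have hprod : n0 = c0 * N' := by
    have h3 := ((hMV ℤ).1 _ _ hcls).2
    rw [(hMm ℤ).1 _ _ hc' (Finset.prod_ne_zero_iff.mpr fun k _ => hG0 k), hMc, hMp] at h3
    have h4 : ((c0 * N' : ℕ) : ℝ) = n0 := by
      rw [← h3, hN']
      push_cast
      rfl
    exact_mod_cast h4.symm
  -- all factors are big
  have hN2 : ∀ i, 2 ≤ Ni i := by
    intro i
    by_contra hcon
    have h1 : Ni i = 1 := by have := hNi1 i; omega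
    obtain ⟨g1, g2, g3, -, g5⟩ := hG i
    obtain ⟨hu, b, hb, hub, hsup⟩ := hC4 ℤ K (G i) g1 g3 g2
      (thin_bin hpsi g5) (by rw [hMi, h1]; simp)
    obtain ⟨u0, hu0⟩ := hu
    obtain ⟨ub, hub'⟩ := hub
    apply hns b (-(u0⁻¹ * ub)) hb
    have h2 : G i = cst (u0 : RO ℤ) * (1 - AddMonoidAlgebra.single b
        ((-(u0⁻¹ * ub) : (RO ℤ)ˣ) : RO ℤ)) := by
      apply AddMonoidAlgebra.ext
      apply Finsupp.ext
      intro a
      have h4 : ((1 : AO ℤ K) - AddMonoidAlgebra.single b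
          ((-(u0⁻¹ * ub) : (RO ℤ)ˣ) : RO ℤ)).coeff a =
          (if (0 : K) = a then (1 : RO ℤ) else 0) -
            (if b = a then ((-(u0⁻¹ * ub) : (RO ℤ)ˣ) : RO ℤ) else 0) := by
        change (AddMonoidAlgebra.single (0 : K) (1 : RO ℤ) -
          AddMonoidAlgebra.single b ((-(u0⁻¹ * ub) : (RO ℤ)ˣ) : RO ℤ) : AO ℤ K).coeff a = _
        rw [AddMonoidAlgebra.coeff_sub, Finsupp.sub_apply, AddMonoidAlgebra.coeff_single,
          AddMonoidAlgebra.coeff_single, Finsupp.single_apply, Finsupp.single_apply]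
      rw [H78.cstm, h4]
      by_cases ha0 : a = 0
      · rw [ha0, if_pos rfl, if_neg hb, sub_zero, mul_one, hu0]
      · by_cases hab : b = a
        · subst hab
          rw [if_neg (Ne.symm ha0), if_pos rfl, zero_sub, Units.val_neg, neg_neg, Units.val_mul,
            ← mul_assoc, Units.mul_inv, one_mul, hub']
        · rw [if_neg (Ne.symm ha0), if_neg hab, sub_zero, mul_zero]
          by_contra h3
          have h5 : a ∈ supp (G i) := h3
          rw [hsup] at h5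
          rcases h5 with h5 | h5
          · exact ha0 h5
          · exact hab h5.symm
    rw [hVG]
    refine Dvd.dvd.mul_left ?_ _
    refine dvd_trans ?_ (Finset.dvd_prod_of_mem G (Finset.mem_univ i))
    rw [h2]
    exact Dvd.intro_left _ rfl
  have hb1 : ∀ i, rk (supp (G i)) ≤ 2 * Ni i := by
    intro i
    obtain ⟨U, hsat, hU, hUr, hDD⟩ := hK i
    have h1 := hEz (Ni i) (hN2 i) P U _ _ hDD (hNiV i)
    rw [hUr] at h1
    exact_mod_cast h1
  have hsum1 : ∑ i, rk (supp (G i)) ≤ ∑ i, 2 * Ni i := Finset.sum_le_sum fun i _ => hb1 i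
  have hrk2 : rk (supp V) ≤ ∑ i, rk (supp (G i)) := by
    refine le_trans ?_ (rk_iUnion hRk G Finset.univ)
    refine (hRk K K).2.2.2.2.2.2.2.2.1 _ _ fun a ha => ⟨1, one_ne_zero, ?_⟩
    rw [one_smul]
    have h7 : a ∈ supp (∏ i, G i) := by
      intro h0
      apply ha
      rw [hVG, H71.cst_mul_coeff, h0, mul_zero]
    exact O1.H12.supp_prod G _ (fun i x hx => Submodule.subset_span
      (Set.mem_iUnion₂.mpr ⟨i, Finset.mem_univ i, hx⟩)) Finset.univ a h7
  have hne : (Finset.univ : Finset (Fin n)).Nonempty := by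
    rw [Finset.nonempty_iff_ne_empty]
    intro h5
    rw [h5, Finset.sum_empty] at hrk2
    omega
  obtain ⟨hsp, -⟩ := O1.H12.sum_le_prod Finset.univ Ni (fun i _ => hN2 i) hne
  rw [← hN'] at hsp
  have hsum3 : ∑ i, 2 * Ni i = 2 * ∑ i, Ni i := by rw [Finset.mul_sum]
  have hN1 : N' ≤ n0 := by
    rw [hprod]
    exact Nat.le_mul_of_pos_left N' (by omega)
  omega

/-- No factor `1 - e w^b` with `b` on the line of a missing ray. -/
theorem no_line (hMin : MinS) {V : AO ℤ K} {T : K} {k lam : K →+ ℤ} (hkT : k T = 1)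
    (hlT : lam T = 0) (hl : ∀ a ∈ supp V, a ≠ 0 → 0 < lam a) (hV0 : V.coeff 0 ≠ 0) {b : K} {n : ℤ}
    (hb : b = n • T) (hb0 : b ≠ 0) {e : (RO ℤ)ˣ}
    (hd : (1 - AddMonoidAlgebra.single b (e : RO ℤ)) ∣ V) : False := by
  classical
  obtain ⟨H, hH⟩ := hd
  have hn : n ≠ 0 := by
    rintro rfl
    exact hb0 (by rw [hb, zero_smul])
  have hkb : k b = n := by rw [hb, map_zsmul, hkT, smul_eq_mul, mul_one]
  have hlb : lam b = 0 := by rw [hb, map_zsmul, hlT, smul_zero]
  obtain ⟨B, hB⟩ : ∃ B : ℤ, B = ∑ a ∈ V.coeff.support, |k a| := ⟨_, rfl⟩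
  have hBle : ∀ a ∈ supp V, |k a| ≤ B := by
    intro a ha
    rw [hB]
    exact Finset.single_le_sum (f := fun a => |k a|) (fun _ _ => abs_nonneg _)
      (Finsupp.mem_support_iff.mpr ha)
  have hB0 : 0 ≤ B := by
    rw [hB]
    exact Finset.sum_nonneg fun _ _ => abs_nonneg _
  have hk1 : ∀ (s : ℤ), (s = 1 ∨ s = -1) → ∀ a ∈ supp V, 0 ≤ (B • lam + s • k) a := by
    intro s hs a ha
    change 0 ≤ B • lam a + s • k a
    rw [smul_eq_mul, smul_eq_mul]
    by_cases ha0 : a = 0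
    · rw [ha0, map_zero, map_zero]; simp
    · have h1 := hl a ha ha0
      have h2 := abs_le.mp (hBle a ha)
      have h3 : B ≤ B * lam a := by nlinarith
      rcases hs with h | h <;> rw [h] <;> linarith [h2.1, h2.2]
  have hsb : ∀ s : ℤ, (B • lam + s • k) b = s * n := by
    intro s
    change B • lam b + s • k b = s * n
    rw [hlb, hkb, smul_zero, zero_add, smul_eq_mul]
  have hsbn : ∀ s : ℤ, (B • lam + s • k) (-b) = -(s * n) := by
    intro s
    rw [map_neg, hsb]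
  by_cases hH0 : H.coeff 0 = 0
  · -- shift by `b`
    have hHb : H.coeff (-b) ≠ 0 := by
      intro h1
      apply hV0
      have h2 : V = H - AddMonoidAlgebra.single b (e : RO ℤ) * H := by rw [hH]; ring
      rw [h2, AddMonoidAlgebra.coeff_sub, Finsupp.sub_apply, hH0,
        AddMonoidAlgebra.coeff_single_mul_apply, add_zero, h1, mul_zero, sub_zero]
    have hV2 : V = (AddMonoidAlgebra.single (-b) (1 : RO ℤ) - AddMonoidAlgebra.single 0 (e : RO ℤ)) *
        (AddMonoidAlgebra.single b (1 : RO ℤ) * H) := by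
      rw [hH, ← mul_assoc]
      congr 1
      rw [sub_mul, AddMonoidAlgebra.single_mul_single,
        AddMonoidAlgebra.single_mul_single, neg_add_cancel, zero_add, mul_one, mul_one]
      rfl
    have hG : (AddMonoidAlgebra.single (-b) (1 : RO ℤ) - AddMonoidAlgebra.single 0 (e : RO ℤ) :
        AO ℤ K).coeff (-b) = 1 := by
      rw [AddMonoidAlgebra.coeff_sub, Finsupp.sub_apply, AddMonoidAlgebra.coeff_single,
        AddMonoidAlgebra.coeff_single, Finsupp.single_eq_same, Finsupp.single_eq_of_ne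
          (by rw [Ne, neg_eq_zero]; exact hb0), sub_zero]
    have hGm : (-b) ∈ supp (AddMonoidAlgebra.single (-b) (1 : RO ℤ) -
        AddMonoidAlgebra.single 0 (e : RO ℤ) : AO ℤ K) := by
      change _ ≠ _
      rw [hG]
      exact one_ne_zero
    have hGn : (AddMonoidAlgebra.single (-b) (1 : RO ℤ) - AddMonoidAlgebra.single 0 (e : RO ℤ) :
        AO ℤ K) ≠ 0 := by
      intro h1
      rw [h1] at hG
      exact zero_ne_one hG
    have hHn : (AddMonoidAlgebra.single b (1 : RO ℤ) * H : AO ℤ K).coeff 0 ≠ 0 := by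
      rw [AddMonoidAlgebra.coeff_single_mul_apply, one_mul, add_zero]
      exact hHb
    have h1 := hMin ℤ K _ _ hGn hHn (B • lam + (1 : ℤ) • k) 0 (by
      rw [← hV2]; exact hk1 1 (Or.inl rfl)) _ hGm
    have h2 := hMin ℤ K _ _ hGn hHn (B • lam + (-1 : ℤ) • k) 0 (by
      rw [← hV2]; exact hk1 (-1) (Or.inr rfl)) _ hGm
    rw [hsbn] at h1 h2
    omega
  · have hG : (1 - AddMonoidAlgebra.single b (e : RO ℤ) : AO ℤ K).coeff b = -(e : RO ℤ) := by
      change (AddMonoidAlgebra.single (0 : K) (1 : RO ℤ) -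
          AddMonoidAlgebra.single b (e : RO ℤ) : AO ℤ K).coeff b = _
      rw [AddMonoidAlgebra.coeff_sub, Finsupp.sub_apply, AddMonoidAlgebra.coeff_single,
        AddMonoidAlgebra.coeff_single, Finsupp.single_eq_same, Finsupp.single_eq_of_ne hb0,
        zero_sub]
    have hGm : b ∈ supp (1 - AddMonoidAlgebra.single b (e : RO ℤ) : AO ℤ K) := by
      change _ ≠ _
      rw [hG]
      exact neg_ne_zero.mpr e.ne_zero
    have hGn : (1 - AddMonoidAlgebra.single b (e : RO ℤ) : AO ℤ K) ≠ 0 := by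
      intro h1
      rw [h1] at hG
      exact neg_ne_zero.mpr e.ne_zero hG.symm
    have h1 := hMin ℤ K _ _ hGn hH0 (B • lam + (1 : ℤ) • k) 0 (by
      rw [← hH]; exact hk1 1 (Or.inl rfl)) _ hGm
    have h2 := hMin ℤ K _ _ hGn hH0 (B • lam + (-1 : ℤ) • k) 0 (by
      rw [← hH]; exact hk1 (-1) (Or.inr rfl)) _ hGm
    rw [hsb] at h1 h2
    omega

end

end Pool.Agent.B5.BP80
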