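import Mathlib

/-!
# Board b5, BpS, levels: telescoping in a graded ring (helper80)
-/

namespace Pool.Agent.B5.BP80

/-- A `ℤ`-grading by projections (as much as is needed). -/
structure Grd (A : Type*) [CommRing A] where
  pi : ℤ → A →+ A
  fin : ∀ W : A, ∃ n : ℕ, ∀ j : ℤ, (n : ℤ) < |j| → pi j W = 0

variable {A : Type*} [CommRing A]

/-- `x` has the degree `k` (as a multiplier). -/
def Grd.Hom (G : Grd A) (x : A) (k : ℤ) : Prop := ∀ (j : ℤ) (W : A), G.pi j (x * W) = x * G.pi (j - k) W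

/-- `a` is homogeneous of degree `s`. -/
def Grd.Deg (G : Grd A) (a : A) (s : ℤ) : Prop := ∀ j : ℤ, G.pi j a = if j = s then a else 0

/-- `(1 - x) W = A + D` with `A`, `D` of different degrees and `x` of degree `k0 ≠ 0`. -/
theorem tele (G : Grd A) (x : Aˣ) (k0 s : ℤ) (hk : k0 ≠ 0) (hx : G.Hom x k0) (W a D : A)
    (ha : G.Deg a 0) (hD : G.Deg D s) (hW : (1 - (x : A)) * W = a + D) :
    a = 0 ∨ ∃ r : ℤ, r * k0 = s ∧ a + ((x ^ (-r) : Aˣ) : A) * D = 0 := by
  classical
  obtain ⟨n0, hn0⟩ := G.fin W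
  obtain ⟨n, hn⟩ : ∃ n : ℕ, n = n0 + s.natAbs + 1 := ⟨_, rfl⟩
  have hge : ∀ j : ℤ, |j| ≤ |j * k0| := by
    intro j
    rw [abs_mul]
    have h1 : 1 ≤ |k0| := Int.one_le_abs hk
    nlinarith [abs_nonneg j]
  have step : ∀ j : ℤ, ((x ^ (-j) : Aˣ) : A) * G.pi (j * k0) (a + D) =
      ((x ^ (-j) : Aˣ) : A) * G.pi (j * k0) W -
        ((x ^ (-(j - 1)) : Aˣ) : A) * G.pi ((j - 1) * k0) W := by
    intro j
    rw [← hW, sub_mul, one_mul, map_sub, hx]
    have h1 : j * k0 - k0 = (j - 1) * k0 := by ring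
    have h2 : (x ^ (-(j - 1)) : Aˣ) = x ^ (-j) * x := by
      rw [show -(j - 1) = -j + 1 by ring, zpow_add, zpow_one]
    rw [h1, h2, Units.val_mul]
    ring
  have sum1 : ∑ i ∈ Finset.range (2 * n + 1), ((x ^ (-((i : ℤ) - n)) : Aˣ) : A) *
      G.pi (((i : ℤ) - n) * k0) (a + D) = 0 := by
    obtain ⟨f, hf⟩ : ∃ f : ℕ → A, ∀ i, f i = ((x ^ (-((i : ℤ) - n - 1)) : Aˣ) : A) *
        G.pi (((i : ℤ) - n - 1) * k0) W := ⟨_, fun _ => rfl⟩
    have h1 : ∀ i ∈ Finset.range (2 * n + 1), ((x ^ (-((i : ℤ) - n)) : Aˣ) : A) *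
      G.pi (((i : ℤ) - n) * k0) (a + D) = f (i + 1) - f i := by
      intro i _
      have h3 : (((i + 1 : ℕ) : ℤ) - n - 1) = (i : ℤ) - n := by push_cast; ring
      rw [step, hf, hf, h3]
    rw [Finset.sum_congr rfl h1, Finset.sum_range_sub, hf, hf]
    have h4 : G.pi ((((2 * n + 1 : ℕ) : ℤ) - n - 1) * k0) W = 0 := by
      apply hn0
      refine lt_of_lt_of_le ?_ (hge _)
      push_cast
      rw [show (2 * (n : ℤ) + 1 - n - 1) = n by ring, abs_of_nonneg (by positivity)]
      omega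
    have h5 : G.pi ((((0 : ℕ) : ℤ) - n - 1) * k0) W = 0 := by
      apply hn0
      refine lt_of_lt_of_le ?_ (hge _)
      push_cast
      rw [abs_sub_comm, show (1 - (0 - (n : ℤ))) = n + 1 by ring, abs_of_nonneg (by positivity)]
      omega
    rw [h4, h5, mul_zero, mul_zero, sub_zero]
  have sum2 : ∑ i ∈ Finset.range (2 * n + 1), ((x ^ (-((i : ℤ) - n)) : Aˣ) : A) *
      G.pi (((i : ℤ) - n) * k0) (a + D) =
      a + ∑ i ∈ Finset.range (2 * n + 1), if ((i : ℤ) - n) * k0 = s then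
        ((x ^ (-((i : ℤ) - n)) : Aˣ) : A) * D else 0 := by
    have h1 : ∀ i ∈ Finset.range (2 * n + 1), ((x ^ (-((i : ℤ) - n)) : Aˣ) : A) *
      G.pi (((i : ℤ) - n) * k0) (a + D) = (if i = n then a else 0) +
        if ((i : ℤ) - n) * k0 = s then ((x ^ (-((i : ℤ) - n)) : Aˣ) : A) * D else 0 := by
      intro i _
      rw [map_add, ha, hD, mul_add]
      congr 1
      · by_cases h : i = n
        · rw [if_pos h, h]
          simp
        · have h2 : ¬ ((i : ℤ) - n) * k0 = 0 := by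
            intro h3
            rcases mul_eq_zero.mp h3 with h4 | h4
            · exact h (by omega)
            · exact hk h4
          rw [if_neg h, if_neg h2, mul_zero]
      · split_ifs <;> simp
    rw [Finset.sum_congr rfl h1, Finset.sum_add_distrib]
    congr 1
    rw [Finset.sum_ite_eq' (Finset.range (2 * n + 1)) n (fun _ => a), if_pos]
    rw [Finset.mem_range]
    omega
  rw [sum1] at sum2
  by_cases hr : ∃ r : ℤ, r * k0 = s
  · obtain ⟨r, hr⟩ := hr
    refine Or.inr ⟨r, hr, ?_⟩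
    have hrn : |r| ≤ n := by
      have h1 := hge r
      rw [hr] at h1
      have h2 : (s.natAbs : ℤ) = |s| := Int.natCast_natAbs s
      omega
    rw [abs_le] at hrn
    have h3 : ∑ i ∈ Finset.range (2 * n + 1), (if ((i : ℤ) - n) * k0 = s then
        ((x ^ (-((i : ℤ) - n)) : Aˣ) : A) * D else 0) = ((x ^ (-r) : Aˣ) : A) * D := by
      rw [Finset.sum_eq_single_of_mem (r + n).toNat]
      · have h4 : (((r + n).toNat : ℤ) - n) = r := by
          rw [Int.toNat_of_nonneg (by omega)]; ring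
        rw [h4, if_pos hr]
      · rw [Finset.mem_range]
        omega
      · intro i _ hi
        rw [if_neg]
        intro h5
        apply hi
        have h6 : (((i : ℤ) - n) - r) * k0 = 0 := by
          rw [sub_mul, h5, hr, sub_self]
        rcases mul_eq_zero.mp h6 with h7 | h7
        · omega
        · exact absurd h7 hk
    rw [h3] at sum2
    exact sum2.symm
  · refine Or.inl ?_
    have h3 : ∑ i ∈ Finset.range (2 * n + 1), (if ((i : ℤ) - n) * k0 = s then
        ((x ^ (-((i : ℤ) - n)) : Aˣ) : A) * D else 0) = 0 := by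
      refine Finset.sum_eq_zero fun i _ => ?_
      rw [if_neg]
      intro h5
      exact hr ⟨_, h5⟩
    rw [h3, add_zero] at sum2
    exact sum2.symm

/-- Levels: a divisor `1 - x` of `a + D` (`a` of degree `0`, `D` of degree `s ≠ 0`). -/
theorem lev_alg (G : Grd A) (x tau : Aˣ) (k0 s : ℤ) (hs : s ≠ 0) (hx : G.Hom x k0) (a D : A)
    (ha : G.Deg a 0) (hD : G.Deg D s) (hW : (1 - (x : A)) ∣ a + D) :
    (1 - (x : A)) ∣ a + tau * D ∨ ∃ r : ℤ, (1 - ((tau⁻¹ * x ^ (-r) : Aˣ) : A)) ∣ a + tau * D := by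
  obtain ⟨W, hW⟩ := hW
  by_cases hk : k0 = 0
  · left
    have key : ∀ j, G.pi j (a + D) = (1 - (x : A)) * G.pi j W := by
      intro j
      rw [hW, sub_mul, one_mul, map_sub, hx, hk, sub_zero, sub_mul, one_mul]
    have h1 : a = (1 - (x : A)) * G.pi 0 W := by
      rw [← key, map_add, ha, hD, if_pos rfl, if_neg (Ne.symm hs), add_zero]
    have h2 : D = (1 - (x : A)) * G.pi s W := by
      rw [← key, map_add, ha, hD, if_neg hs, if_pos rfl, zero_add]
    refine ⟨G.pi 0 W + tau * G.pi s W, ?_⟩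
    conv_lhs => rw [h1, h2]
    ring
  · rcases tele G x k0 s hk hx W a D ha hD hW.symm with h | ⟨r, -, h⟩
    · left
      refine ⟨tau * W, ?_⟩
      rw [h, zero_add] at hW ⊢
      rw [hW]
      ring
    · right
      refine ⟨r, tau * D, ?_⟩
      rw [eq_neg_of_add_eq_zero_left h]
      have h1 : ((tau⁻¹ * x ^ (-r) : Aˣ) : A) * (tau * D) = ((x ^ (-r) : Aˣ) : A) * D := by
        rw [Units.val_mul]
        calc _ = ((tau⁻¹ : Aˣ) : A) * tau * (((x ^ (-r) : Aˣ) : A) * D) := by ring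
          _ = _ := by rw [Units.inv_mul, one_mul]
      rw [sub_mul, one_mul, h1]
      ring

end Pool.Agent.B5.BP80
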